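import Pool.Agent.Lib.MP_19e880_co_FV.Ctr
import Pool.Agent.Lib.MP_19e880_co_TT.ClsA

/-!
The h-polynomial of a sphere with a full vertex.
-/

set_option autoImplicit false
set_option linter.unusedSectionVars false

namespace Pool.Agent.MP19e880.FV

open Pool.Agent.MP19e880 Pool.Agent.MP19e880.Low Pool.Agent.MP19e880.G2 Polynomial

variable {V : Type} [Fintype V] [LinearOrder V] {k : Type} [Field k]

/-- Octahedral contractions away from `x` lead to a suspension of the link of `x`. -/
inductive Oc (d : ℕ) (x : V) : Finset (Finset V) → Prop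
  | susp (S : Finset (Finset V)) : (Low.na (Adj S) (lv S ∅) x).card = 1 → Oc d x S
  | ctr (S : Finset (Finset V)) (a b : V) : a ∈ Low.na (Adj S) (lv S ∅) x →
      b ∈ Low.na (Adj S) (lv S ∅) x → Adj S a b → W1.NoSq S a b →
      (lv S {a, b}).card = 2 * (d - 2) → Oc d x (W1.con S a b) → Oc d x S

private theorem Poly_empty {S : Finset (Finset V)} {d : ℕ} (h : HS k S d) :
    (∅ : Finset V) ∈ S :=
  h.flag ∅ (fun a ha => absurd ha (Finset.notMem_empty a))

theorem full_oc {d : ℕ} (hd : 2 ≤ d) (x : V) : ∀ (n : ℕ) (S : Finset (Finset V)), HS k S d →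
    x ∈ lv S ∅ → gg S (d - 1) {x} = gg S d ∅ → (Low.na (Adj S) (lv S ∅) x).card = n + 1 →
    Oc d x S ∧ H S d ∅ = (1 + X) * H S d {x} + C (n : ℤ) * (X * (1 + X) ^ (d - 2)) := by
  intro n
  induction n with
  | zero =>
    intro S h hx _ hn
    refine ⟨Oc.susp S hn, ?_⟩
    have h1 := susp_H h (Poly_empty h) hx (by omega)
    rw [insert_empty_eq] at h1
    rw [h1]
    simp
  | succ n ih =>
    intro S h hx hf hn
    obtain ⟨m, rfl⟩ : ∃ m, d = m + 2 := ⟨d - 2, by omega⟩
    have hE := TT.eul_of_hs h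
    have h0 := Poly_empty h
    have hU : Lk S (m + 2) (m + 2) (lv S ∅) := ⟨∅, h0, rfl, by simp⟩
    have hnb := nb_lv h hE ∅ x hx
    rw [insert_empty_eq] at hnb
    obtain ⟨a, ha, b, hb, hab, hq⟩ := full_edge (fam h hE) m (lv S ∅) x hU hx (by
      rw [hnb]
      exact hf) (by omega)
    have hv : ∀ y : V, y ∈ lv S ∅ ↔ ({y} : Finset V) ∈ S := by
      intro y
      rw [mem_lv, insert_empty_eq]
      simp
    have haS : ({a} : Finset V) ∈ S := (hv a).mp (Low.mem_na.mp ha).1
    have hbS : ({b} : Finset V) ∈ S := (hv b).mp (Low.mem_na.mp hb).1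
    have hno : W1.NoSq S a b := by
      intro s t hs ht hst
      by_cases hsb : s = b
      · left
        rw [hsb, Finset.pair_eq_singleton]
        exact hbS
      by_cases hsa : s = a
      · left
        rw [hsa, Finset.pair_comm]
        exact hab.2
      by_cases hta : t = a
      · right
        rw [hta, Finset.pair_eq_singleton]
        exact haS
      by_cases htb : t = b
      · right
        rw [htb]
        exact hab.2
      by_cases hst' : s = t
      · left
        rw [hst']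
        exact ht
      have hsS : s ∈ lv S ∅ := (hv s).mpr (h.down _ hs _ (by simp))
      have htS : t ∈ lv S ∅ := (hv t).mpr (h.down _ ht _ (by simp))
      rcases hq s hsS t htS hsb hta ⟨fun h' => hsa h'.symm, hs⟩ ⟨fun h' => htb h'.symm, ht⟩
        ⟨hst', hst⟩ with h1 | h1
      · exact Or.inl h1.2
      · exact Or.inr h1.2
    obtain ⟨c1, c2, c3, c4, c5, c6, c7⟩ := full_con h hd hx hf ha hb hab hno
    obtain ⟨h1, h2⟩ := ih (W1.con S a b) c1 c2 c5 (by
      rw [c3, Finset.card_erase_of_mem hb, hn]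
      omega)
    refine ⟨Oc.ctr S a b ha hb hab hno c4 h1, ?_⟩
    rw [c7, h2, c6]
    push_cast
    rw [C_add, C_1]
    ring

private theorem Poly_gv {S : Finset (Finset V)} {d : ℕ} (h : HS k S d) {g : Finset V → ℕ → ℤ}
    (hg : G3.GV S d g) {τ : Finset V} (hτ : τ ∈ S) :
    G3.GV (lkF S τ) (d - τ.card) (fun σ => g (σ ∪ τ)) := by
  intro σ hσ
  obtain ⟨h1, h2⟩ := (W1.HslkAux.mem_lk h τ σ).mp hσ
  obtain ⟨h3, h4⟩ := hg (σ ∪ τ) h2
  have h5 := h.card_le τ hτ
  rw [Finset.card_union_of_disjoint h1] at h3 h4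
  refine ⟨fun i hi => h3 i (by omega), ?_⟩
  rw [TT.H_lkF h hτ h1 h2, h4]
  have h6 : d - (σ.card + τ.card) = d - τ.card - σ.card := by omega
  rw [h6]

private theorem Poly_step {S : Finset (Finset V)} {d : ℕ} (h : HS k S d)
    {g : Finset V → ℕ → ℤ} (hg : G3.GV S d g) {τ : Finset V} (hτ : τ ∈ S) {v : V}
    (hv : v ∈ lv S τ) {e : ℕ} (he : τ.card + e = d) (he5 : 5 ≤ e)
    (h2 : g (insert v τ) 2 = g τ 2) : ∀ i, 2 ≤ i → g (insert v τ) i = g τ i := by
  have hv' := (mem_lv τ v).mp hv
  have hde : d - τ.card = e := by omega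
  have hL := W1.hs_lk h τ hτ
  have hgL := Poly_gv h hg hτ
  rw [hde] at hL hgL
  have hEL := TT.eul_of_hs hL
  have hvL : v ∈ lv (lkF S τ) ∅ := by
    rw [W1.lv_lkF h τ hτ]
    exact hv
  have h0L : (∅ : Finset V) ∈ lkF S τ := Poly_empty hL
  have hvS : ({v} : Finset V) ∈ lkF S τ := by
    have := ((mem_lv ∅ v).mp hvL).2
    rwa [insert_empty_eq] at this
  have e1 := G3.two_g2 hL hEL hgL ∅ h0L e (by simp) (by omega)
  have e2 := G3.two_g2 hL hEL hgL {v} hvS (e - 1) (by
    rw [Finset.card_singleton]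
    omega) (by omega)
  have hf : gg (lkF S τ) (e - 1) {v} = gg (lkF S τ) e ∅ := by
    unfold gg
    rw [e1, e2, Finset.singleton_union, Finset.empty_union, h2]
  have hne : (Low.na (Adj (lkF S τ)) (lv (lkF S τ) ∅) v).Nonempty := by
    obtain ⟨j, hj⟩ : ∃ j, e = j + 1 := ⟨e - 1, by omega⟩
    exact (fam hL hEL).na_nonempty j _ v ⟨∅, h0L, rfl, by simp [hj]⟩ hvL
  obtain ⟨n, hn⟩ : ∃ n, (Low.na (Adj (lkF S τ)) (lv (lkF S τ) ∅) v).card = n + 1 := by
    have := Finset.card_pos.mpr hne
    exact ⟨(Low.na (Adj (lkF S τ)) (lv (lkF S τ) ∅) v).card - 1, by omega⟩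
  have hH := (full_oc (by omega) v n (lkF S τ) hL hvL hf hn).2
  have k1 := TT.H_lkF h hτ (Finset.disjoint_empty_left _) (by rwa [Finset.empty_union])
  have k2 := TT.H_lkF h hτ (Finset.disjoint_singleton_left.mpr hv'.1) (by
    rw [Finset.singleton_union]
    exact hv'.2)
  rw [hde, Finset.empty_union] at k1
  rw [hde, Finset.singleton_union] at k2
  have g1 := hg τ hτ
  have g2 := hg (insert v τ) hv'.2
  rw [Finset.card_insert_of_notMem hv'.1] at g2
  have hd1 : d - (τ.card + 1) = e - 1 := by omega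
  rw [hde] at g1
  rw [hd1] at g2
  rw [k1, k2, g1.2, g2.2] at hH
  have s1 : (1 + X : ℤ[X]) * ∑ i ∈ Finset.range ((e - 1) / 2 + 1),
      C (g (insert v τ) i) * X ^ i * (1 + X) ^ (e - 1 - 2 * i) =
      ∑ i ∈ Finset.range (e / 2 + 1), C (g (insert v τ) i) * X ^ i * (1 + X) ^ (e - 2 * i) := by
    have hsub : Finset.range ((e - 1) / 2 + 1) ⊆ Finset.range (e / 2 + 1) := by
      intro i hi
      rw [Finset.mem_range] at hi ⊢
      omega
    rw [← Finset.sum_subset hsub, Finset.mul_sum]
    · refine Finset.sum_congr rfl fun i hi => ?_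
      rw [Finset.mem_range] at hi
      have h3 : e - 2 * i = (e - 1 - 2 * i) + 1 := by omega
      rw [h3, pow_succ]
      ring
    · intro i _ hi
      rw [Finset.mem_range] at hi
      rw [g2.1 i (by omega), C_0]
      ring
  have s2 : C (n : ℤ) * (X * (1 + X : ℤ[X]) ^ (e - 2)) =
      ∑ i ∈ Finset.range (e / 2 + 1),
        C (if i = 1 then (n : ℤ) else 0) * X ^ i * (1 + X) ^ (e - 2 * i) := by
    rw [Finset.sum_eq_single 1]
    · rw [if_pos rfl]
      ring
    · intro i _ hi
      rw [if_neg hi, C_0]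
      ring
    · intro hi
      exfalso
      apply hi
      rw [Finset.mem_range]
      omega
  rw [s1, s2] at hH
  have hu := Cone.unique_zero e (e / 2 + 1)
    (fun i => g τ i - g (insert v τ) i - (if i = 1 then (n : ℤ) else 0)) (by
      simp only [C_sub, sub_mul, Finset.sum_sub_distrib]
      rw [hH]
      ring)
  intro i hi
  by_cases hie : i < e / 2 + 1
  · have h3 := hu i hie
    rw [if_neg (by omega)] at h3
    linarith
  · rw [g1.1 i (by omega), g2.1 i (by omega)]

private theorem Poly_mono {S : Finset (Finset V)} {d : ℕ} (h : HS k S d)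
    {g : Finset V → ℕ → ℤ} (hg : G3.GV S d g) : ∀ (n : ℕ) (σ τ : Finset V), σ ⊆ τ → τ ∈ S →
      (τ \ σ).card = n → τ.card + 4 ≤ d → g τ 2 ≤ g σ 2 := by
  have hE := TT.eul_of_hs h
  have hLm := lemmaL (fam h hE)
  intro n
  induction n with
  | zero =>
    intro σ τ hσ _ hn _
    have h1 : τ ⊆ σ := by
      rw [← Finset.sdiff_eq_empty_iff_subset]
      exact Finset.card_eq_zero.mp hn
    rw [Finset.Subset.antisymm hσ h1]
  | succ n ih =>
    intro σ τ hσ hτ hn hd
    obtain ⟨v, hv⟩ : (τ \ σ).Nonempty := by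
      rw [← Finset.card_pos]
      omega
    rw [Finset.mem_sdiff] at hv
    have hτ' : τ.erase v ∈ S := hE.down τ hτ _ (Finset.erase_subset _ _)
    have hc : (τ.erase v).card + 1 = τ.card := Finset.card_erase_add_one hv.1
    have hvl : v ∈ lv S (τ.erase v) := by
      rw [mem_lv, Finset.insert_erase hv.1]
      exact ⟨Finset.notMem_erase _ _, hτ⟩
    have h1 := ih σ (τ.erase v) (Finset.subset_erase.mpr ⟨hσ, hv.2⟩) hτ' (by
      rw [Finset.erase_sdiff_comm, Finset.card_erase_of_mem (Finset.mem_sdiff.mpr hv), hn]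
      omega) (by omega)
    have h2 := G3.mono h hE hLm hg (τ.erase v) hτ' (d - (τ.erase v).card) (by omega) (by omega)
      v hvl
    rw [Finset.insert_erase hv.1] at h2
    linarith

/-- A face whose link has the same second entry: the later entries agree. -/
theorem face_gamma {S : Finset (Finset V)} {d : ℕ} (h : HS k S d) {g : Finset V → ℕ → ℤ}
    (hg : G3.GV S d g) : ∀ (n : ℕ) (σ τ : Finset V), σ ⊆ τ → τ ∈ S → (τ \ σ).card = n →
      τ.card + 4 ≤ d → g τ 2 = g σ 2 → ∀ i, 2 ≤ i → g τ i = g σ i := by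
  have hE := TT.eul_of_hs h
  have hLm := lemmaL (fam h hE)
  intro n
  induction n with
  | zero =>
    intro σ τ hσ _ hn _ _ i _
    have h1 : τ ⊆ σ := by
      rw [← Finset.sdiff_eq_empty_iff_subset]
      exact Finset.card_eq_zero.mp hn
    rw [Finset.Subset.antisymm hσ h1]
  | succ n ih =>
    intro σ τ hσ hτ hn hd heq i hi
    obtain ⟨v, hv⟩ : (τ \ σ).Nonempty := by
      rw [← Finset.card_pos]
      omega
    rw [Finset.mem_sdiff] at hv
    have hτ' : τ.erase v ∈ S := hE.down τ hτ _ (Finset.erase_subset _ _)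
    have hc : (τ.erase v).card + 1 = τ.card := Finset.card_erase_add_one hv.1
    have hvl : v ∈ lv S (τ.erase v) := by
      rw [mem_lv, Finset.insert_erase hv.1]
      exact ⟨Finset.notMem_erase _ _, hτ⟩
    have hsub : σ ⊆ τ.erase v := Finset.subset_erase.mpr ⟨hσ, hv.2⟩
    have hcn : (τ.erase v \ σ).card = n := by
      rw [Finset.erase_sdiff_comm, Finset.card_erase_of_mem (Finset.mem_sdiff.mpr hv), hn]
      omega
    have h1 := Poly_mono h hg n σ (τ.erase v) hsub hτ' hcn (by omega)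
    have h2 := G3.mono h hE hLm hg (τ.erase v) hτ' (d - (τ.erase v).card) (by omega) (by omega)
      v hvl
    rw [Finset.insert_erase hv.1] at h2
    have h3 : g (τ.erase v) 2 = g σ 2 := by linarith
    have h4 := Poly_step h hg hτ' hvl (e := d - (τ.erase v).card) (by omega) (by omega) (by
      rw [Finset.insert_erase hv.1]
      linarith) i hi
    rw [Finset.insert_erase hv.1] at h4
    rw [h4]
    exact ih σ (τ.erase v) hsub hτ' hcn (by omega) h3 i hi

/-- `γ₂ ≤ 1`: the later entries vanish. -/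
theorem one_gamma {S : Finset (Finset V)} {d : ℕ} (h : HS k S d) {g : Finset V → ℕ → ℤ}
    (hg : G3.GV S d g) : ∀ (e : ℕ) (σ : Finset V), σ ∈ S → σ.card + e = d → 4 ≤ e →
      g σ 2 ≤ 1 → ∀ i, 3 ≤ i → g σ i = 0 := by
  have hE := TT.eul_of_hs h
  have hLm := lemmaL (fam h hE)
  intro e
  induction e with
  | zero =>
    intro σ _ _ h4
    omega
  | succ e ih =>
    intro σ hσ he he4 hle i hi
    have h0 := G3.nonneg h hE hLm hg σ hσ (e + 1) he he4
    rcases eq_or_ne (g σ 2) 0 with h1 | h1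
    · exact G3.all_zero h hE hLm hg (e + 1) he4 σ hσ he h1 i (by omega)
    · have h2 : g σ 2 = 1 := by omega
      by_cases he6 : 6 ≤ e + 1
      · obtain ⟨v, hv, hv1⟩ := G3.exists_one h hE hLm hg (e + 1) he6 σ hσ he h2
        obtain ⟨h3, h4⟩ := G3.lv_card_insert he hv
        have h5 := Poly_step h hg hσ hv he (by omega) (by rw [hv1, h2]) i (by omega)
        rw [← h5]
        exact ih (insert v σ) h3 h4 (by omega) (by omega) i hi
      · exact (hg σ hσ).1 i (by omega)

end Pool.Agent.MP19e880.FV
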