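import Pool.Agent.Lib.MP_19e880_co_FV.TStep

/-!
The base case.
-/

set_option autoImplicit false
set_option linter.unusedSectionVars false

namespace Pool.Agent.MP19e880.FV

open Pool.Agent.MP19e880.Low Pool.Agent.MP19e880.G2

variable {V : Type} [DecidableEq V] {A : V → V → Prop} {F : ℕ → Finset V → Prop}

private theorem Base_face (h : Fam A F) {m : ℕ} {U : Finset V} {a b c : V} (hU : F (m + 2) U)
    (ha : a ∈ U) (hb : b ∈ U) (hc : c ∈ U) (hab : A a b) (hbc : A b c) (hac : A a c)
    (hno : ∀ y ∈ U, A a y → A b y → A c y → False) : m = 1 := by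
  have h1 := h.link (m + 1) U a hU ha
  have hb1 : b ∈ nb A U a := mem_nb.2 ⟨hb, hab⟩
  have h2 := h.link m (nb A U a) b h1 hb1
  have hc2 : c ∈ nb A (nb A U a) b := mem_nb.2 ⟨mem_nb.2 ⟨hc, hac⟩, hbc⟩
  obtain _ | k := m
  · rw [h.zero] at h2
    rw [h2] at hc2
    exact absurd hc2 (Finset.notMem_empty c)
  · have h3 := h.link k (nb A (nb A U a) b) c h2 hc2
    obtain _ | l := k
    · rfl
    · obtain ⟨y, hy⟩ := h.ne l _ h3
      have hy1 := mem_nb.1 hy
      have hy2 := mem_nb.1 hy1.1
      have hy3 := mem_nb.1 hy2.1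
      exact (hno y hy3.1 hy3.2 hy2.2 hy1.2).elim

private theorem Base_a (h : Fam A F) {m : ℕ} {U C : Finset V} (hU : F (m + 2) U)
    (hT : Tt A (m + 2) U C) (h3 : 2 < C.card) {w : V} (hw : w ∈ C) :
    ∃ s ∈ oN A U C, ¬ A s w := by
  by_contra hcon
  push Not at hcon
  have hwU : w ∈ U := hT.sub hw
  have hconn := h.mconn (m + 1) U w hU hwU
  obtain ⟨f, hf⟩ := hT.far
  obtain ⟨hfU, hfC, hfad⟩ := mem_far.1 hf
  have hfna : f ∈ na A U w := by
    refine mem_na.2 ⟨hfU, fun e => hfC (by rw [e]; exact hw), fun e => hfad ⟨w, hw, e⟩⟩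
  have hempty : na A C w = ∅ := by
    by_contra hne
    have hsub : na A C w ⊆ na A U w := fun y hy => by
      have := mem_na.1 hy
      exact mem_na.2 ⟨hT.sub this.1, this.2⟩
    have hneq : na A C w ≠ na A U w := fun e => by
      rw [← e] at hfna
      exact hfC (mem_na.1 hfna).1
    obtain ⟨x, hx, b, hb, hbX, hxb⟩ := hconn (na A C w) hsub
      (Finset.nonempty_iff_ne_empty.2 hne) hneq
    have hb1 := mem_na.1 hb
    have hbC : b ∉ C := fun hbC => hbX (mem_na.2 ⟨hbC, hb1.2⟩)
    have hbO : b ∈ oN A U C := mem_oN.2 ⟨hb1.1, hbC, x, (mem_na.1 hx).1, hxb⟩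
    exact hb1.2.2 (h.symm _ _ (hcon b hbO))
  have hall : ∀ y ∈ C, y ≠ w → A w y := by
    intro y hy hyw
    by_contra hn
    have : y ∈ na A C w := mem_na.2 ⟨hy, hyw, hn⟩
    rw [hempty] at this
    exact absurd this (Finset.notMem_empty y)
  obtain ⟨c, hc, hcw⟩ : ∃ c ∈ C, c ≠ w := Finset.exists_mem_ne (by omega) w
  have hwc : A w c := hall c hc hcw
  have hl := h.link (m + 1) U c hU (hT.sub hc)
  have hwl : w ∈ nb A U c := mem_nb.2 ⟨hwU, h.symm _ _ hwc⟩
  obtain ⟨y, hy⟩ := h.na_nonempty m _ w hl hwl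
  have hy1 := mem_na.1 hy
  have hy2 := mem_nb.1 hy1.1
  by_cases hyC : y ∈ C
  · exact hy1.2.2 (hall y hyC hy1.2.1)
  · exact hy1.2.2 (h.symm _ _ (hcon y (mem_oN.2 ⟨hy2.1, hyC, c, hc, hy2.2⟩)))

private theorem Base_b (hs : ∀ x y, A x y → A y x) (hi : ∀ x, ¬ A x x) {C O : Finset V}
    (hC : Cn A C) (h3 : 2 < C.card) (hO : ∀ s ∈ O, Cn A (nb A C s) ∧ (nb A C s).Nonempty ∧
      (nb A C s).card ≤ 2)
    (hind : ∀ s ∈ O, ∀ a ∈ C, ∀ b ∈ C, ¬ A s a → ¬ A s b → ¬ A a b)
    (ha : ∀ w ∈ C, ∃ s ∈ O, ¬ A s w) :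
    (∃ a b c, C = {a, b, c} ∧ A a b ∧ A b c ∧ A a c) ∧ ∀ s ∈ O, (nb A C s).card = 2 := by
  have hnbr : ∀ x ∈ C, ∃ b ∈ C, b ≠ x ∧ A x b := by
    intro x hx
    obtain ⟨a', ha', b, hb, hbx, hab⟩ := hC {x} (Finset.singleton_subset_iff.2 hx)
      (Finset.singleton_nonempty x) (fun e => by rw [← e, Finset.card_singleton] at h3; omega)
    rw [Finset.mem_singleton] at ha' hbx
    rw [ha'] at hab
    exact ⟨b, hb, hbx, hab⟩
  have hcard : ∀ s ∈ O, (nb A C s).card = 2 := by
    intro s hsO
    by_contra hne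
    obtain ⟨hcn, hnn, hle⟩ := hO s hsO
    have h1 : (nb A C s).card = 1 := by
      have := hnn.card_pos
      omega
    obtain ⟨w, hw⟩ := Finset.card_eq_one.1 h1
    have hwm : w ∈ nb A C s := by rw [hw]; exact Finset.mem_singleton_self w
    obtain ⟨hwC, hsw⟩ := mem_nb.1 hwm
    have hns : ∀ x ∈ C, x ≠ w → ¬ A s x := by
      intro x hx hxw hsx
      have : x ∈ nb A C s := mem_nb.2 ⟨hx, hsx⟩
      rw [hw, Finset.mem_singleton] at this
      exact hxw this
    have hxw : ∀ x ∈ C, x ≠ w → A x w := by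
      intro x hx hne'
      obtain ⟨b, hb, hbx, hab⟩ := hnbr x hx
      by_cases hbw : b = w
      · rwa [hbw] at hab
      · exact absurd hab (hind s hsO x hx b hb (hns x hx hne') (hns b hb hbw))
    obtain ⟨s', hs', hs'w⟩ := ha w hwC
    have hl : ∀ x ∈ C, x ≠ w → A s' x := by
      intro x hx hne'
      by_contra hn
      exact hind s' hs' x hx w hwC hn hs'w (hxw x hx hne')
    obtain ⟨l1, hl1, l2, hl2, hl12⟩ : ∃ l1 ∈ C.erase w, ∃ l2 ∈ C.erase w, l1 ≠ l2 := by
      have : 1 < (C.erase w).card := by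
        rw [Finset.card_erase_of_mem hwC]
        omega
      obtain ⟨l1, hl1, l2, hl2, h12⟩ := Finset.one_lt_card.1 this
      exact ⟨l1, hl1, l2, hl2, h12⟩
    rw [Finset.mem_erase] at hl1 hl2
    have hm1 : l1 ∈ nb A C s' := mem_nb.2 ⟨hl1.2, hl l1 hl1.2 hl1.1⟩
    have hm2 : l2 ∈ nb A C s' := mem_nb.2 ⟨hl2.2, hl l2 hl2.2 hl2.1⟩
    obtain ⟨a', ha', b, hb, hbx, hab⟩ := (hO s' hs').1 {l1} (Finset.singleton_subset_iff.2 hm1)
      (Finset.singleton_nonempty l1) (fun e => by
        rw [← e, Finset.mem_singleton] at hm2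
        exact hl12 hm2.symm)
    rw [Finset.mem_singleton] at ha'
    rw [ha'] at hab
    have hb1 := mem_nb.1 hb
    have hbw : b ≠ w := fun e => hs'w (by rw [← e]; exact hb1.2)
    exact hind s hsO l1 hl1.2 b hb1.1 (hns l1 hl1.2 hl1.1) (hns b hb1.1 hbw) hab
  refine ⟨?_, hcard⟩
  -- pairs are edges
  have hedge : ∀ s ∈ O, ∀ x ∈ nb A C s, ∃ y ∈ nb A C s, y ≠ x ∧ A x y ∧ nb A C s = {x, y} := by
    intro s hsO x hx
    obtain ⟨a', ha', b, hb, hbx, hab⟩ := (hO s hsO).1 {x} (Finset.singleton_subset_iff.2 hx)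
      (Finset.singleton_nonempty x) (fun e => by
        have := hcard s hsO
        rw [← e, Finset.card_singleton] at this
        omega)
    rw [Finset.mem_singleton] at ha' hbx
    rw [ha'] at hab
    refine ⟨b, hb, hbx, hab, ?_⟩
    symm
    refine Finset.eq_of_subset_of_card_le ?_ ?_
    · intro y hy
      rw [Finset.mem_insert, Finset.mem_singleton] at hy
      rcases hy with rfl | rfl
      · exact hx
      · exact hb
    · rw [hcard s hsO, Finset.card_pair (Ne.symm hbx)]
  obtain ⟨w0, hw0⟩ : C.Nonempty := Finset.card_pos.1 (by omega)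
  obtain ⟨s0, hs0, -⟩ := ha w0 hw0
  obtain ⟨a, haS⟩ := (hO s0 hs0).2.1
  obtain ⟨b, hbS, hba, hab, hS0⟩ := hedge s0 hs0 a haS
  have haC := (mem_nb.1 haS).1
  have hbC := (mem_nb.1 hbS).1
  obtain ⟨s1, hs1, hs1a⟩ := ha a haC
  have hb1 : b ∈ nb A C s1 := by
    refine mem_nb.2 ⟨hbC, ?_⟩
    by_contra hn
    exact hind s1 hs1 a haC b hbC hs1a hn hab
  obtain ⟨c, hc1, hcb, hbc, hS1⟩ := hedge s1 hs1 b hb1
  have hcC := (mem_nb.1 hc1).1
  have hca : c ≠ a := fun e => hs1a (by rw [← e]; exact (mem_nb.1 hc1).2)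
  obtain ⟨s2, hs2, hs2b⟩ := ha b hbC
  have ha2 : a ∈ nb A C s2 := by
    refine mem_nb.2 ⟨haC, ?_⟩
    by_contra hn
    exact hind s2 hs2 a haC b hbC hn hs2b hab
  have hc2 : c ∈ nb A C s2 := by
    refine mem_nb.2 ⟨hcC, ?_⟩
    by_contra hn
    exact hind s2 hs2 b hbC c hcC hs2b hn hbc
  obtain ⟨c', hc', hc'a, hac', hS2⟩ := hedge s2 hs2 a ha2
  have hcc : c = c' := by
    rw [hS2, Finset.mem_insert, Finset.mem_singleton] at hc2
    exact hc2.resolve_left hca
  rw [← hcc] at hac' hS2
  refine ⟨a, b, c, ?_, hab, hbc, hac'⟩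
  apply Finset.Subset.antisymm
  · intro e he
    by_contra hn
    rw [Finset.mem_insert, Finset.mem_insert, Finset.mem_singleton] at hn
    push Not at hn
    obtain ⟨hea, heb, hec⟩ := hn
    obtain ⟨f, hf, hfe, hef⟩ := hnbr e he
    have h0 : ¬ A s0 e := by
      intro hse
      have : e ∈ nb A C s0 := mem_nb.2 ⟨he, hse⟩
      rw [hS0, Finset.mem_insert, Finset.mem_singleton] at this
      exact this.elim hea heb
    have hf0 : f ∈ nb A C s0 := by
      refine mem_nb.2 ⟨hf, ?_⟩
      by_contra hn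
      exact hind s0 hs0 e he f hf h0 hn hef
    rw [hS0, Finset.mem_insert, Finset.mem_singleton] at hf0
    rcases hf0 with rfl | rfl
    · have h1 : ¬ A s1 e := by
        intro hse
        have : e ∈ nb A C s1 := mem_nb.2 ⟨he, hse⟩
        rw [hS1, Finset.mem_insert, Finset.mem_singleton] at this
        exact this.elim heb hec
      exact hind s1 hs1 e he f hf h1 hs1a hef
    · have h1 : ¬ A s2 e := by
        intro hse
        have : e ∈ nb A C s2 := mem_nb.2 ⟨he, hse⟩
        rw [hS2, Finset.mem_insert, Finset.mem_singleton] at this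
        exact this.elim hea hec
      exact hind s2 hs2 e he f hf h1 hs2b hef
  · intro y hy
    rw [Finset.mem_insert, Finset.mem_insert, Finset.mem_singleton] at hy
    rcases hy with rfl | rfl | rfl
    · exact haC
    · exact hbC
    · exact hcC

private theorem Base_sum (hs : ∀ x y, A x y → A y x) (U C : Finset V) :
    ∑ x ∈ C, ((nb A (U \ C) x).card : ℤ) = ∑ y ∈ oN A U C, ((nb A C y).card : ℤ) := by
  classical
  have h1 : ∑ x ∈ C, ((nb A (U \ C) x).card : ℤ) = ∑ y ∈ U \ C, ((nb A C y).card : ℤ) := by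
    have e1 : ∀ (B : Finset V) (x : V), ((nb A B x).card : ℤ) =
        ∑ y ∈ B, if A x y then (1 : ℤ) else 0 := by
      intro B x
      have : nb A B x = B.filter (fun y => A x y) := by
        ext y
        rw [mem_nb, Finset.mem_filter]
      rw [this, Finset.card_filter]
      push_cast
      rfl
    simp only [e1]
    rw [Finset.sum_comm]
    refine Finset.sum_congr rfl fun y _ => Finset.sum_congr rfl fun x _ => ?_
    have : A x y ↔ A y x := ⟨hs _ _, hs _ _⟩
    simp only [this]
  rw [h1]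
  symm
  refine Finset.sum_subset ?_ ?_
  · intro y hy
    have := mem_oN.1 hy
    exact Finset.mem_sdiff.2 ⟨this.1, this.2.1⟩
  · intro y hy hyn
    rw [Finset.mem_sdiff] at hy
    have : nb A C y = ∅ := by
      rw [Finset.eq_empty_iff_forall_notMem]
      intro x hx
      have hx1 := mem_nb.1 hx
      exact hyn (mem_oN.2 ⟨hy.1, hy.2, x, hx1.1, hs _ _ hx1.2⟩)
    rw [this]
    simp

private theorem Base_d (h : Fam A F) {U C : Finset V} (hU : F 3 U) (hT : Tt A 3 U C) {a b c : V}
    (hC : C = {a, b, c}) (hab : A a b) (hbc : A b c) (hac : A a c)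
    (h2 : ∀ s ∈ oN A U C, (nb A C s).card = 2) : False := by
  classical
  have nab := h.neAdj hab
  have nbc := h.neAdj hbc
  have nac := h.neAdj hac
  have hcard : C.card = 3 := by
    rw [hC]
    exact Finset.card_eq_three.2 ⟨a, b, c, nab, nac, nbc, rfl⟩
  have hin : ∀ x ∈ C, (nb A C x).card = 2 := by
    intro x hx
    have h3 : nb A C x = C.erase x := by
      ext y
      rw [mem_nb, Finset.mem_erase, and_comm, and_congr_left_iff]
      intro hy
      rw [hC, Finset.mem_insert, Finset.mem_insert, Finset.mem_singleton] at hx hy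
      constructor
      · intro hxy
        exact (h.neAdj hxy).symm
      · intro hyx
        rcases hx with rfl | rfl | rfl <;> rcases hy with rfl | rfl | rfl <;>
          first
          | exact absurd rfl hyx
          | assumption
          | exact h.symm _ _ (by assumption)
    rw [h3, Finset.card_erase_of_mem hx, hcard]
  have hsplit : ∀ x ∈ C, ((nb A U x).card : ℤ) = ((nb A (U \ C) x).card : ℤ) + 2 := by
    intro x hx
    have h3 : nb A U x = nb A (U \ C) x ∪ nb A C x := by
      ext y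
      rw [Finset.mem_union, mem_nb, mem_nb, mem_nb, Finset.mem_sdiff]
      constructor
      · rintro ⟨h4, h5⟩
        by_cases hy : y ∈ C
        · exact Or.inr ⟨hy, h5⟩
        · exact Or.inl ⟨⟨h4, hy⟩, h5⟩
      · rintro (⟨⟨h4, _⟩, h5⟩ | ⟨h4, h5⟩)
        · exact ⟨h4, h5⟩
        · exact ⟨hT.sub h4, h5⟩
    have h4 : Disjoint (nb A (U \ C) x) (nb A C x) := by
      rw [Finset.disjoint_left]
      intro y hy hy'
      exact (Finset.mem_sdiff.1 (mem_nb.1 hy).1).2 (mem_nb.1 hy').1
    rw [h3, Finset.card_union_of_disjoint h4, hin x hx]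
    push_cast
    ring
  have hsum := Base_sum h.symm U C
  have hsum2 : ∑ y ∈ oN A U C, ((nb A C y).card : ℤ) = 2 * ((oN A U C).card : ℤ) := by
    rw [Finset.sum_congr rfl (fun y hy => by rw [h2 y hy])]
    rw [Finset.sum_const, nsmul_eq_mul]
    push_cast
    ring
  have hH := hT.eq
  unfold H at hH
  rw [Finset.sum_congr rfl (fun x hx => by rw [hsplit x hx])] at hH
  have hsum3 : ∑ x ∈ C, (((nb A (U \ C) x).card : ℤ) + 2 + ((nb A (U \ C) x).card : ℤ)) =
      2 * ∑ x ∈ C, ((nb A (U \ C) x).card : ℤ) + 2 * (C.card : ℤ) := by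
    rw [Finset.sum_add_distrib, Finset.sum_add_distrib, Finset.sum_const, nsmul_eq_mul]
    ring
  rw [hsum3, hsum, hsum2, hcard] at hH
  push_cast at hH
  have hO : ((oN A U C).card : ℤ) = 3 := by linarith
  have hsep := h.sep 3 U C (far A U C) hU hT.sub (fun y hy => (mem_far.1 hy).1) hT.ne hT.far
    (by
      rw [Finset.disjoint_left]
      intro y hy hy'
      exact (mem_far.1 hy').2.1 hy)
    (fun p hp q hq hpq => (mem_far.1 hq).2.2 ⟨p, hp, hpq⟩)
  have hle : ((U \ C) \ far A U C).card ≤ (oN A U C).card := by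
    refine Finset.card_le_card ?_
    intro y hy
    rw [Finset.mem_sdiff, Finset.mem_sdiff] at hy
    refine mem_oN.2 ⟨hy.1.1, hy.1.2, ?_⟩
    by_contra hn
    exact hy.2 (mem_far.2 ⟨hy.1.1, hy.1.2, hn⟩)
  omega

theorem base (h : Fam A F) : ∀ (m : ℕ) (U C E : Finset V), F m U → Tt A m U C →
    E ⊆ far A U C →
    (∀ G : Finset V, G ⊆ oN A U C → Cq A G → (cn A C G).Nonempty → (cn A E G).Nonempty) →
    (∀ s ∈ oN A U C, ∀ a ∈ C, ∀ b ∈ C, ¬ A s a → ¬ A s b → ¬ A a b) → C.card ≤ 2 := by
  intro m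
  induction m with
  | zero =>
    intro U C E hU hT _ _ _
    rw [h.zero] at hU
    have := hT.sub
    rw [hU, Finset.subset_empty] at this
    rw [this]
    simp
  | succ k ih =>
    intro U C E hU hT hE hout hind
    obtain _ | m := k
    · obtain ⟨f, hf⟩ := hT.far
      have h1 := mem_far.1 hf
      have h2 : C.card < U.card := by
        refine Finset.card_lt_card ⟨hT.sub, fun hUC => h1.2.1 (hUC h1.1)⟩
      have h3 := h.card_one U hU
      omega
    · by_contra hcon
      have h3 : 2 < C.card := by omega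
      have hO : ∀ s ∈ oN A U C, Cn A (nb A C s) ∧ (nb A C s).Nonempty ∧
          (nb A C s).card ≤ 2 := by
        intro s hs
        have hs1 := mem_oN.1 hs
        obtain ⟨x0, hx0, hx0s⟩ := hs1.2.2
        have hfs : ad A (far A U C) s := by
          obtain ⟨e, he⟩ := hout {s} (Finset.singleton_subset_iff.2 hs)
            (by
              intro a ha b hb hne
              rw [Finset.mem_singleton] at ha hb
              exact absurd (ha.trans hb.symm) hne)
            ⟨x0, mem_cn.2 ⟨hx0, fun g hg => by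
              rw [Finset.mem_singleton] at hg
              rw [hg]
              exact h.symm _ _ hx0s⟩⟩
          have he1 := mem_cn.1 he
          exact ⟨e, hE he1.1, h.symm _ _ (he1.2 s (Finset.mem_singleton_self s))⟩
        obtain ⟨𝒞, h𝒞⟩ := exists_dec h.symm (C \ nb A C s)
        have hTs := (tight_step h hU hT hs hfs h𝒞).1
        refine ⟨hTs.cn, hTs.ne, ?_⟩
        have hup : ∀ y ∈ oN A (nb A U s) (nb A C s), y ∈ oN A U C ∧ A s y := by
          intro y hy
          have hy1 := mem_oN.1 hy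
          have hy2 := mem_nb.1 hy1.1
          obtain ⟨x, hx, hxy⟩ := hy1.2.2
          refine ⟨mem_oN.2 ⟨hy2.1, fun hyC => hy1.2.1 (mem_nb.2 ⟨hyC, hy2.2⟩), x,
            (mem_nb.1 hx).1, hxy⟩, hy2.2⟩
        refine ih (nb A U s) (nb A C s) (nb A E s) (h.link (m + 1) U s hU hs1.1) hTs ?_ ?_ ?_
        · intro y hy
          have hy1 := mem_nb.1 hy
          exact far_nb (hE hy1.1) hy1.2
        · intro G hG hGc hGn
          have hGs : ∀ g ∈ G, A s g := fun g hg => (hup g (hG hg)).2
          obtain ⟨x, hx⟩ := hGn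
          have hx1 := mem_cn.1 hx
          have hx2 := mem_nb.1 hx1.1
          obtain ⟨y, hy⟩ := hout (insert s G)
            (by
              intro g hg
              rw [Finset.mem_insert] at hg
              rcases hg with rfl | hg
              · exact hs
              · exact (hup g (hG hg)).1)
            (by
              intro a ha b hb hne
              rw [Finset.mem_insert] at ha hb
              rcases ha with rfl | ha <;> rcases hb with rfl | hb
              · exact absurd rfl hne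
              · exact hGs b hb
              · exact h.symm _ _ (hGs a ha)
              · exact hGc a ha b hb hne)
            ⟨x, mem_cn.2 ⟨hx2.1, fun g hg => by
              rw [Finset.mem_insert] at hg
              rcases hg with rfl | hg
              · exact hx2.2
              · exact hx1.2 g hg⟩⟩
          have hy1 := mem_cn.1 hy
          exact ⟨y, mem_cn.2 ⟨mem_nb.2 ⟨hy1.1, hy1.2 s (Finset.mem_insert_self s G)⟩,
            fun g hg => hy1.2 g (Finset.mem_insert_of_mem hg)⟩⟩
        · intro t ht a ha b hb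
          exact hind t (hup t ht).1 a (mem_nb.1 ha).1 b (mem_nb.1 hb).1
      obtain ⟨⟨a, b, c, hC, hab, hbc, hac⟩, h2⟩ := Base_b h.symm h.irr hT.cn h3 hO hind
        (fun w hw => Base_a h hU hT h3 hw)
      have haC : a ∈ C := by rw [hC]; simp
      have hbC : b ∈ C := by rw [hC]; simp
      have hcC : c ∈ C := by rw [hC]; simp
      have hm := Base_face h hU (hT.sub haC) (hT.sub hbC) (hT.sub hcC) hab hbc hac
        (fun y hy hay hby hcy => by
          have hyC : y ∉ C := by
            intro hyC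
            rw [hC, Finset.mem_insert, Finset.mem_insert, Finset.mem_singleton] at hyC
            rcases hyC with rfl | rfl | rfl
            · exact h.irr _ hay
            · exact h.irr _ hby
            · exact h.irr _ hcy
          have hyO : y ∈ oN A U C := mem_oN.2 ⟨hy, hyC, a, haC, hay⟩
          have h4 := h2 y hyO
          have h5 : nb A C y = C := by
            apply Finset.Subset.antisymm (fun x hx => (mem_nb.1 hx).1)
            intro x hx
            refine mem_nb.2 ⟨hx, ?_⟩
            rw [hC, Finset.mem_insert, Finset.mem_insert, Finset.mem_singleton] at hx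
            rcases hx with rfl | rfl | rfl
            · exact h.symm _ _ hay
            · exact h.symm _ _ hby
            · exact h.symm _ _ hcy
          rw [h5] at h4
          omega)
      subst hm
      exact Base_d h hU hT hC hab hbc hac h2

end Pool.Agent.MP19e880.FV
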