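import Pool.Agent.Lib.MP_19e880_co_FV.Face

/-!
Octahedral separators.
-/

set_option autoImplicit false
set_option linter.unusedSectionVars false

namespace Pool.Agent.MP19e880.FV

open Pool.Agent.MP19e880.Low Pool.Agent.MP19e880.G2

variable {V : Type} [DecidableEq V] {A : V → V → Prop} {F : ℕ → Finset V → Prop}

theorem Spl.symm (h : Fam A F) {e : ℕ} {L P K R : Finset V} (hs : Spl A e L P K R) :
    Spl A e L R K P := by
  refine ⟨fun y => ?_, fun y hy hk => hs.KR y hk hy, fun y hy hp => hs.PR y hp hy,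
    fun y hy hp => hs.PK y hp hy, hs.neR, hs.neP, fun p hp q hq hpq => hs.no q hq p hp
      (h.symm _ _ hpq), hs.card⟩
  rw [hs.mem y]
  tauto

/-- A separator of minimal size. -/
theorem spl_card (h : Fam A F) {e : ℕ} {L P K R : Finset V} (hL : F (e + 1) L)
    (hmem : ∀ y, y ∈ L ↔ y ∈ P ∨ y ∈ K ∨ y ∈ R) (h1 : ∀ y ∈ P, y ∉ K) (h2 : ∀ y ∈ P, y ∉ R)
    (h3 : ∀ y ∈ K, y ∉ R) (hP : P.Nonempty) (hR : R.Nonempty) (hno : ∀ p ∈ P, ∀ q ∈ R, ¬ A p q) :
    2 * e ≤ K.card := by
  have h4 := h.sep (e + 1) L P R hL (fun y hy => (hmem y).2 (Or.inl hy))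
    (fun y hy => (hmem y).2 (Or.inr (Or.inr hy))) hP hR
    (Finset.disjoint_left.2 fun y hy hy' => h2 y hy hy') hno
  have h5 : (L \ P) \ R = K := by
    ext y
    rw [Finset.mem_sdiff, Finset.mem_sdiff, hmem y]
    constructor
    · rintro ⟨⟨h6, h7⟩, h8⟩
      tauto
    · intro hy
      exact ⟨⟨Or.inr (Or.inl hy), fun hp => h1 y hp hy⟩, h3 y hy⟩
  rw [h5] at h4
  omega

private theorem adjP (h : Fam A F) {e : ℕ} {L P K R : Finset V} (hL : F (e + 1) L)
    (hs : Spl A e L P K R) {x : V} (hx : x ∈ K) : ad A P x := by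
  by_contra hno
  have h1 : 2 * e ≤ (K.erase x).card := by
    refine spl_card h (P := P) (R := insert x R) hL ?_ ?_ ?_ ?_ hs.neP ⟨x, by simp⟩ ?_
    · intro y
      rw [hs.mem y, Finset.mem_erase, Finset.mem_insert]
      constructor
      · rintro (h1 | h1 | h1)
        · exact Or.inl h1
        · by_cases hyx : y = x
          · exact Or.inr (Or.inr (Or.inl hyx))
          · exact Or.inr (Or.inl ⟨hyx, h1⟩)
        · exact Or.inr (Or.inr (Or.inr h1))
      · rintro (h1 | h1 | h1 | h1)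
        · exact Or.inl h1
        · exact Or.inr (Or.inl h1.2)
        · rw [h1]
          exact Or.inr (Or.inl hx)
        · exact Or.inr (Or.inr h1)
    · intro y hy hk
      exact hs.PK y hy (Finset.mem_of_mem_erase hk)
    · intro y hy hk
      rcases Finset.mem_insert.1 hk with rfl | hk
      · exact hs.PK y hy hx
      · exact hs.PR y hy hk
    · intro y hy hk
      rcases Finset.mem_insert.1 hk with rfl | hk
      · exact Finset.notMem_erase _ _ hy
      · exact hs.KR y (Finset.mem_of_mem_erase hy) hk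
    · intro p hp q hq hpq
      rcases Finset.mem_insert.1 hq with rfl | hq
      · exact hno ⟨p, hp, hpq⟩
      · exact hs.no p hp q hq hpq
  have h2 := Finset.card_erase_of_mem hx
  have h3 := Finset.card_pos.2 ⟨x, hx⟩
  have h4 := hs.card
  omega

private theorem naK (h : Fam A F) {e : ℕ} {L P K R : Finset V} (hL : F (e + 2) L)
    (hs : Spl A (e + 1) L P K R) {x : V} (hx : x ∈ K) : ∃ y ∈ K, y ≠ x ∧ ¬ A x y := by
  -- one side contained in the link of `x`
  have key : ∀ P' R' : Finset V, Spl A (e + 1) L P' K R' → (∀ p ∈ P', A x p) →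
      ∃ y ∈ K, y ≠ x ∧ ¬ A x y := by
    intro P' R' hs' hall
    obtain ⟨p, hp⟩ := hs'.neP
    have hpL : p ∈ L := (hs'.mem p).2 (Or.inl hp)
    have hxL : x ∈ L := (hs'.mem x).2 (Or.inr (Or.inl hx))
    obtain ⟨q, hq⟩ := h.na_nonempty e (nb A L p) x (h.link (e + 1) L p hL hpL)
      (mem_nb.2 ⟨hxL, h.symm _ _ (hall p hp)⟩)
    rw [mem_na, mem_nb] at hq
    obtain ⟨⟨hqL, hpq⟩, hqx, hxq⟩ := hq
    rcases (hs'.mem q).1 hqL with h1 | h1 | h1
    · exact absurd (hall q h1) hxq
    · exact ⟨q, h1, hqx, hxq⟩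
    · exact absurd hpq (hs'.no p hp q h1)
  by_cases hP : ∀ p ∈ P, A x p
  · exact key P R hs hP
  by_cases hR : ∀ p ∈ R, A x p
  · exact key R P (hs.symm h) hR
  push Not at hP hR
  obtain ⟨p, hp, hxp⟩ := hP
  obtain ⟨r, hr, hxr⟩ := hR
  have hxL : x ∈ L := (hs.mem x).2 (Or.inr (Or.inl hx))
  have hpx : p ≠ x := by
    rintro rfl
    exact hs.PK p hp hx
  have hrx : r ≠ x := by
    rintro rfl
    exact hs.KR r hx hr
  obtain ⟨a, ha, b, hb, hbX, hab⟩ := h.mconn (e + 1) L x hL hxL (na A P x)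
    (fun y hy => by
      rw [mem_na] at hy ⊢
      exact ⟨(hs.mem y).2 (Or.inl hy.1), hy.2⟩)
    ⟨p, mem_na.2 ⟨hp, hpx, hxp⟩⟩
    (fun heq => by
      have h1 : r ∈ na A L x := mem_na.2 ⟨(hs.mem r).2 (Or.inr (Or.inr hr)), hrx, hxr⟩
      rw [← heq, mem_na] at h1
      exact hs.PR r h1.1 hr)
  rw [mem_na] at ha hb
  rcases (hs.mem b).1 hb.1 with h1 | h1 | h1
  · exact absurd (mem_na.2 ⟨h1, hb.2⟩) hbX
  · exact ⟨b, h1, hb.2.1, hb.2.2⟩
  · exact absurd hab (hs.no a ha.1 b h1)

/-- The link of a member of the separator. -/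
theorem Spl.link (h : Fam A F) {e : ℕ} {L P K R : Finset V} (hL : F (e + 1) L)
    (hs : Spl A e L P K R) {x : V} (hx : x ∈ K) :
    1 ≤ e ∧ Spl A (e - 1) (nb A L x) (nb A P x) (nb A K x) (nb A R x) := by
  rcases e with _ | e
  · have h1 := hs.card
    have h2 := Finset.card_pos.2 ⟨x, hx⟩
    omega
  refine ⟨by omega, ?_⟩
  rw [Nat.add_sub_cancel]
  have hxL : x ∈ L := (hs.mem x).2 (Or.inr (Or.inl hx))
  have hmem : ∀ y, y ∈ nb A L x ↔ y ∈ nb A P x ∨ y ∈ nb A K x ∨ y ∈ nb A R x := by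
    intro y
    rw [mem_nb, mem_nb, mem_nb, mem_nb, hs.mem y]
    tauto
  have hPK : ∀ y ∈ nb A P x, y ∉ nb A K x := fun y hy hk => by
    rw [mem_nb] at hy hk
    exact hs.PK y hy.1 hk.1
  have hPR : ∀ y ∈ nb A P x, y ∉ nb A R x := fun y hy hk => by
    rw [mem_nb] at hy hk
    exact hs.PR y hy.1 hk.1
  have hKR : ∀ y ∈ nb A K x, y ∉ nb A R x := fun y hy hk => by
    rw [mem_nb] at hy hk
    exact hs.KR y hy.1 hk.1
  have hneP : (nb A P x).Nonempty := by
    obtain ⟨p, hp, hpx⟩ := adjP h hL hs hx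
    exact ⟨p, mem_nb.2 ⟨hp, h.symm _ _ hpx⟩⟩
  have hneR : (nb A R x).Nonempty := by
    obtain ⟨p, hp, hpx⟩ := adjP h hL (hs.symm h) hx
    exact ⟨p, mem_nb.2 ⟨hp, h.symm _ _ hpx⟩⟩
  have hno : ∀ p ∈ nb A P x, ∀ q ∈ nb A R x, ¬ A p q := fun p hp q hq => by
    rw [mem_nb] at hp hq
    exact hs.no p hp.1 q hq.1
  refine ⟨hmem, hPK, hPR, hKR, hneP, hneR, hno, le_antisymm ?_ ?_⟩
  · obtain ⟨y, hy, hyx, hxy⟩ := naK h hL hs hx
    have hsub : nb A K x ⊆ (K.erase x).erase y := by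
      intro z hz
      rw [mem_nb] at hz
      rw [Finset.mem_erase, Finset.mem_erase]
      refine ⟨?_, ?_, hz.1⟩
      · rintro rfl
        exact hxy hz.2
      · rintro rfl
        exact h.irr _ hz.2
    have h1 := Finset.card_le_card hsub
    have h2 : y ∈ K.erase x := Finset.mem_erase.2 ⟨hyx, hy⟩
    rw [Finset.card_erase_of_mem h2, Finset.card_erase_of_mem hx, hs.card] at h1
    omega
  · exact spl_card h (h.link (e + 1) L x hL hxL) hmem hPK hPR hKR hneP hneR hno

/-- The link of a clique in the separator. -/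
theorem Spl.face (h : Fam A F) {e : ℕ} {L P K R : Finset V} (hL : F (e + 1) L)
    (hs : Spl A e L P K R) {G : Finset V} (hG : G ⊆ K) (hc : Cq A G) :
    G.card ≤ e ∧ Spl A (e - G.card) (cn A L G) (cn A P G) (cn A K G) (cn A R G) := by
  classical
  induction G using Finset.induction_on with
  | empty =>
    rw [cn_empty, cn_empty, cn_empty, cn_empty, Finset.card_empty]
    exact ⟨Nat.zero_le _, hs⟩
  | insert x G hx ih =>
    have hGK : G ⊆ K := (Finset.subset_insert _ _).trans hG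
    have hcG : Cq A G := hc.mono (Finset.subset_insert _ _)
    obtain ⟨h1, h2⟩ := ih hGK hcG
    have hxG : x ∈ cn A K G := by
      rw [mem_cn]
      refine ⟨hG (Finset.mem_insert_self _ _), fun g hg => ?_⟩
      refine hc g (Finset.mem_insert_of_mem hg) x (Finset.mem_insert_self _ _) ?_
      rintro rfl
      exact hx hg
    have hGL : G ⊆ L := fun y hy => (hs.mem y).2 (Or.inr (Or.inl (hGK hy)))
    obtain ⟨_, h4⟩ := FV.face h hL hGL hcG
    rw [show e + 1 - G.card = (e - G.card) + 1 by omega] at h4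
    obtain ⟨h5, h6⟩ := Spl.link h h4 h2 hxG
    rw [Finset.card_insert_of_notMem hx, cn_insert, cn_insert, cn_insert, cn_insert]
    refine ⟨by omega, ?_⟩
    rw [show e - (G.card + 1) = e - G.card - 1 by omega]
    exact h6

private theorem splP1 {e : ℕ} {L P K R P1 : Finset V}
    (hs : Spl A e L P K R) (hP1 : P1 ⊆ P) (hne : P1.Nonempty)
    (hno : ∀ a ∈ P1, ∀ b ∈ P, b ∉ P1 → ¬ A a b) : Spl A e L P1 K ((P \ P1) ∪ R) := by
  refine ⟨fun y => ?_, fun y hy => hs.PK y (hP1 hy), fun y hy hk => ?_, fun y hy hk => ?_, hne,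
    hs.neR.mono Finset.subset_union_right, fun p hp q hq => ?_, hs.card⟩
  · rw [hs.mem y, Finset.mem_union, Finset.mem_sdiff]
    constructor
    · rintro (h1 | h1 | h1)
      · by_cases h2 : y ∈ P1
        · exact Or.inl h2
        · exact Or.inr (Or.inr (Or.inl ⟨h1, h2⟩))
      · exact Or.inr (Or.inl h1)
      · exact Or.inr (Or.inr (Or.inr h1))
    · rintro (h1 | h1 | h1 | h1)
      · exact Or.inl (hP1 h1)
      · exact Or.inr (Or.inl h1)
      · exact Or.inl h1.1
      · exact Or.inr (Or.inr h1)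
  · rw [Finset.mem_union, Finset.mem_sdiff] at hk
    rcases hk with hk | hk
    · exact hk.2 hy
    · exact hs.PR y (hP1 hy) hk
  · rw [Finset.mem_union, Finset.mem_sdiff] at hk
    rcases hk with hk | hk
    · exact hs.PK y hk.1 hy
    · exact hs.KR y hy hk
  · rw [Finset.mem_union, Finset.mem_sdiff] at hq
    rcases hq with hq | hq
    · exact hno p hp q hq.1 hq.2
    · exact hs.no p (hP1 hp) q hq

/-- The two sides are connected. -/
theorem Spl.conn (h : Fam A F) {e : ℕ} {L P K R : Finset V} (hL : F (e + 1) L)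
    (hs : Spl A e L P K R) : Cn A P := by
  induction e generalizing L P K R with
  | zero =>
    intro X hXP hX hne
    exfalso
    have hK : K = ∅ := by
      have h1 := hs.card
      rwa [mul_zero, Finset.card_eq_zero] at h1
    have hL2 := h.card_one L hL
    have hPL : P ∪ R = L := by
      ext y
      rw [Finset.mem_union, hs.mem y, hK]
      simp
    have hdis : Disjoint P R := Finset.disjoint_left.2 fun y hy hy' => hs.PR y hy hy'
    rw [← hPL, Finset.card_union_of_disjoint hdis] at hL2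
    have h3 := Finset.card_pos.2 hs.neR
    have h4 := Finset.card_pos.2 hX
    have h5 : X.card < P.card := Finset.card_lt_card (hXP.ssubset_of_ne hne)
    omega
  | succ e ih =>
    intro P1 hP1 hne1 hne
    by_contra hcon
    push Not at hcon
    have hne2 : (P \ P1).Nonempty := by
      rw [Finset.nonempty_iff_ne_empty, Ne, Finset.sdiff_eq_empty_iff_subset]
      exact fun h1 => hne (Finset.Subset.antisymm hP1 h1)
    have hs1 : Spl A (e + 1) L P1 K ((P \ P1) ∪ R) := splP1 hs hP1 hne1 hcon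
    have hs2 : Spl A (e + 1) L (P \ P1) K ((P \ (P \ P1)) ∪ R) := by
      refine splP1 hs Finset.sdiff_subset hne2 ?_
      intro a ha b hb hb' hab
      rw [Finset.mem_sdiff] at ha
      have hb1 : b ∈ P1 := by
        by_contra h1
        exact hb' (Finset.mem_sdiff.2 ⟨hb, h1⟩)
      exact hcon b hb1 a ha.1 ha.2 (h.symm _ _ hab)
    have hKne : K.Nonempty := by
      rw [← Finset.card_pos, hs.card]
      omega
    obtain ⟨x, hx⟩ := hKne
    have hxL : x ∈ L := (hs.mem x).2 (Or.inr (Or.inl hx))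
    obtain ⟨_, hl⟩ := Spl.link h hL hs hx
    rw [Nat.add_sub_cancel] at hl
    have hcn := ih (h.link (e + 1) L x hL hxL) hl
    obtain ⟨a1, ha1, ha1x⟩ := adjP h hL hs1 hx
    obtain ⟨a2, ha2, ha2x⟩ := adjP h hL hs2 hx
    rw [Finset.mem_sdiff] at ha2
    obtain ⟨a, ha, b, hb, hbX, hab⟩ := hcn (nb A P1 x)
      (fun y hy => by
        rw [mem_nb] at hy ⊢
        exact ⟨hP1 hy.1, hy.2⟩)
      ⟨a1, mem_nb.2 ⟨ha1, h.symm _ _ ha1x⟩⟩
      (fun heq => by
        have h1 : a2 ∈ nb A P x := mem_nb.2 ⟨ha2.1, h.symm _ _ ha2x⟩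
        rw [← heq, mem_nb] at h1
        exact ha2.2 h1.1)
    rw [mem_nb] at ha hb
    refine hcon a ha.1 b hb.1 (fun hb1 => hbX (mem_nb.2 ⟨hb1, hb.2⟩)) hab

/-- All members of the separator are adjacent to both sides. -/
theorem Spl.adj (h : Fam A F) {e : ℕ} {L P K R : Finset V} (hL : F (e + 1) L)
    (hs : Spl A e L P K R) {x : V} (hx : x ∈ K) : ad A P x ∧ ad A R x :=
  ⟨adjP h hL hs hx, adjP h hL (hs.symm h) hx⟩

end Pool.Agent.MP19e880.FV
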