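import Pool.Agent.Lib.MP_19e880_co_FV.Ctxt
import Pool.Agent.Lib.MP_19e880_co_FV.Os

/-!
A member of X which is not interior and has no adjacent interior component adjacent to D.
-/

set_option autoImplicit false
set_option linter.unusedSectionVars false

namespace Pool.Agent.MP19e880.FV

open Pool.Agent.MP19e880.Low Pool.Agent.MP19e880.G2

variable {V : Type} [DecidableEq V] {A : V → V → Prop} {F : ℕ → Finset V → Prop}

variable {m : ℕ} {U C D : Finset V} {r : V} {𝒞 𝒵 : Finset (Finset V)}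

theorem c2 (c : Ctx A F m U C D r 𝒞 𝒵) {x : V} (hx : x ∈ nb A C r)
    (hxO : ∃ o ∈ na A U r \ C, A x o) (hxD : ad A D x)
    (hn : ∀ I ∈ 𝒵, ad A I x → ∀ w ∈ I, ¬ ad A D w) :
    Spl A m (nb A U x) (nb A D x) (nb A (oN A U D) x) (nb A (far A U D) x) ∧
    ∀ y ∈ nb A U r, y ∉ blk A 𝒵 x → ad A (blk A 𝒵 x) y → ad A D y → A x y := by
  classical
  have hxU : x ∈ U := c.q.tt.sub (mem_nb.mp hx).1
  have hcard := dsize c.fam c.hU c.q.tt c.hr c.rfar c.hC c.hZ hx hxO c.hD hxD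
  have hsub : nb A (oN A U D) x ⊆ dset A (nb A U r) (na A U r \ C) 𝒵 x D := by
    intro y hy
    obtain ⟨hyo, hxy⟩ := mem_nb.mp hy
    obtain ⟨hyU, hyD, hadD⟩ := mem_oNl.mp hyo
    rw [mem_dset]
    refine ⟨?_, ?_, ⟨x, Finset.mem_insert_self _ _, hxy⟩, hadD⟩
    · by_cases hry : A r y
      · exact Or.inl (mem_nb.mpr ⟨hyU, hry⟩)
      · exact Or.inr (c.oN_O hyo hry)
    · intro hyb
      rcases Finset.mem_insert.mp hyb with h1 | h1
      · rw [h1] at hxy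
        exact c.fam.irr _ hxy
      · obtain ⟨I, hI, hIx, _, hyI⟩ := mem_bI.mp h1
        exact hn I hI hIx y hyI hadD
  have hmem : ∀ y, y ∈ nb A U x ↔
      y ∈ nb A D x ∨ y ∈ nb A (oN A U D) x ∨ y ∈ nb A (far A U D) x := by
    intro y
    rw [mem_nb, mem_nb, mem_nb, mem_nb, mem_oNl, mem_far]
    constructor
    · rintro ⟨h1, h2⟩
      by_cases h3 : y ∈ D
      · exact Or.inl ⟨h3, h2⟩
      · by_cases h4 : ad A D y
        · exact Or.inr (Or.inl ⟨⟨h1, h3, h4⟩, h2⟩)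
        · exact Or.inr (Or.inr ⟨⟨h1, h3, h4⟩, h2⟩)
    · rintro (h1 | h1 | h1)
      · exact ⟨(c.memD h1.1).1, h1.2⟩
      · exact ⟨h1.1.1, h1.2⟩
      · exact ⟨h1.1.1, h1.2⟩
  have hPK : ∀ y ∈ nb A D x, y ∉ nb A (oN A U D) x := by
    intro y hy hk
    exact (mem_oNl.mp (mem_nb.mp hk).1).2.1 (mem_nb.mp hy).1
  have hPR : ∀ y ∈ nb A D x, y ∉ nb A (far A U D) x := by
    intro y hy hk
    exact (mem_far.mp (mem_nb.mp hk).1).2.1 (mem_nb.mp hy).1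
  have hKR : ∀ y ∈ nb A (oN A U D) x, y ∉ nb A (far A U D) x := by
    intro y hy hk
    exact (mem_far.mp (mem_nb.mp hk).1).2.2 (mem_oNl.mp (mem_nb.mp hy).1).2.2
  have hneP : (nb A D x).Nonempty := by
    obtain ⟨v, hv, hvx⟩ := hxD
    exact ⟨v, mem_nb.mpr ⟨hv, c.fam.symm _ _ hvx⟩⟩
  have hneR : (nb A (far A U D) x).Nonempty :=
    ⟨r, mem_nb.mpr ⟨c.r_far, c.fam.symm _ _ (mem_nb.mp hx).2⟩⟩
  have hno : ∀ p ∈ nb A D x, ∀ q ∈ nb A (far A U D) x, ¬ A p q := by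
    intro p hp q hq hpq
    exact (mem_far.mp (mem_nb.mp hq).1).2.2 ⟨p, (mem_nb.mp hp).1, hpq⟩
  have hL : F (m + 1) (nb A U x) := c.fam.link (m + 1) U x c.hU hxU
  have hK := spl_card c.fam hL hmem hPK hPR hKR hneP hneR hno
  have heq : nb A (oN A U D) x = dset A (nb A U r) (na A U r \ C) 𝒵 x D :=
    Finset.eq_of_subset_of_card_le hsub (by omega)
  refine ⟨⟨hmem, hPK, hPR, hKR, hneP, hneR, hno, ?_⟩, ?_⟩
  · rw [heq]
    exact hcard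
  · intro y hy hyb hby hyD
    have h1 : y ∈ nb A (oN A U D) x := by
      rw [heq]
      exact mem_dset.mpr ⟨Or.inl hy, hyb, hby, hyD⟩
    exact (mem_nb.mp h1).2

theorem c2_pairs (c : Ctx A F m U C D r 𝒞 𝒵) {x : V} (hx : x ∈ nb A C r)
    (hxO : ∃ o ∈ na A U r \ C, A x o) (hxD : ad A D x)
    (hn : ∀ I ∈ 𝒵, ad A I x → ∀ w ∈ I, ¬ ad A D w) {y : V} (hy : y ∈ oN A U D) (hxy : A x y) :
    ∃ v ∈ D, A v x ∧ A v y := by
  have hxU : x ∈ U := c.q.tt.sub (mem_nb.mp hx).1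
  have hL : F (m + 1) (nb A U x) := c.fam.link (m + 1) U x c.hU hxU
  obtain ⟨v, hv, hvy⟩ := (Spl.adj c.fam hL (c2 c hx hxO hxD hn).1
    (mem_nb.mpr ⟨hy, hxy⟩)).1
  rw [mem_nb] at hv
  exact ⟨v, hv.1, c.fam.symm _ _ hv.2, hvy⟩

theorem c2_out (c : Ctx A F m U C D r 𝒞 𝒵) {x : V} (hx : x ∈ nb A C r)
    (hxO : ∃ o ∈ na A U r \ C, A x o) (hxD : ad A D x)
    (hn : ∀ I ∈ 𝒵, ad A I x → ∀ w ∈ I, ¬ ad A D w) {G : Finset V} (hG : G ⊆ oN A U D)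
    (hc : Cq A G) (hxG : x ∈ G) : (cn A (far A U D) G).Nonempty := by
  have hxU : x ∈ U := c.q.tt.sub (mem_nb.mp hx).1
  have hL : F (m + 1) (nb A U x) := c.fam.link (m + 1) U x c.hU hxU
  have hGK : G.erase x ⊆ nb A (oN A U D) x := by
    intro g hg
    rw [Finset.mem_erase] at hg
    exact mem_nb.mpr ⟨hG hg.2, hc x hxG g hg.2 (Ne.symm hg.1)⟩
  obtain ⟨v, hv⟩ := (Spl.face c.fam hL (c2 c hx hxO hxD hn).1 hGK
    (hc.mono (Finset.erase_subset _ _))).2.neR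
  rw [mem_cn, mem_nb] at hv
  refine ⟨v, mem_cn.mpr ⟨hv.1.1, fun g hg => ?_⟩⟩
  by_cases hgx : g = x
  · rw [hgx]
    exact hv.1.2
  · exact hv.2 g (Finset.mem_erase.mpr ⟨hgx, hg⟩)

end Pool.Agent.MP19e880.FV
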