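import Pool.Agent.Lib.MP_19e880_co_FV.Ctxt
import Pool.Agent.Lib.MP_19e880_co_FV.Os

/-!
A member of X which is not interior, with an adjacent interior component adjacent to D: the structure.
-/

set_option autoImplicit false
set_option linter.unusedSectionVars false

namespace Pool.Agent.MP19e880.FV

open Pool.Agent.MP19e880.Low Pool.Agent.MP19e880.G2

variable {V : Type} [DecidableEq V] {A : V → V → Prop} {F : ℕ → Finset V → Prop}

variable {m : ℕ} {U C D : Finset V} {r : V} {𝒞 𝒵 : Finset (Finset V)}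

private theorem c3_Xi (c : Ctx A F m U C D r 𝒞 𝒵) {I : Finset V} (hI : I ∈ 𝒵) :
    I ⊆ Loc.Xi A (na A U r \ C) (nb A C r) :=
  fun y hy => (c.hZ.mem y).mpr ⟨I, hI, hy⟩

/-- All members of the component are interior vertices adjacent to `D`. -/
theorem c3_int (c : Ctx A F m U C D r 𝒞 𝒵) {I : Finset V} (hI : I ∈ 𝒵)
    (hID : ∃ w ∈ I, ad A D w) {w : V} (hw : w ∈ I) : ad A D w := by
  obtain ⟨v, hv, hvD⟩ := hID
  exact c.loc.int_comp (c3_Xi c hI) (c.hZ.cn I hI) hv hw c.hD hvD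

private theorem c3_nmem (c : Ctx A F m U C D r 𝒞 𝒵) {x : V}
    (hxO : ∃ o ∈ na A U r \ C, A x o) {I : Finset V} (hI : I ∈ 𝒵) : x ∉ I := by
  intro hxI
  obtain ⟨o, ho, hxo⟩ := hxO
  exact (Loc.mem_Xi.mp (c3_Xi c hI hxI)).2 o ho hxo

private theorem c3_S (c : Ctx A F m U C D r 𝒞 𝒵) {x : V} (hx : x ∈ nb A C r) : x ∈ nb A U r := by
  rw [mem_nb] at hx ⊢
  exact ⟨c.q.tt.sub hx.1, hx.2⟩

private theorem c3_IX (c : Ctx A F m U C D r 𝒞 𝒵) {I : Finset V} (hI : I ∈ 𝒵) {y : V}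
    (hy : y ∈ I) : y ∈ nb A C r :=
  (Loc.mem_Xi.mp (c3_Xi c hI hy)).1

private theorem c3_blk {x : V} {I : Finset V} (hI : I ∈ 𝒵) (hIx : ad A I x) {y : V}
    (hy : y ∈ I) : y ∈ blk A 𝒵 x := by
  refine Finset.mem_insert_of_mem (mem_bI.mpr ⟨I, hI, hIx, fun h => ?_, hy⟩)
  exact absurd (h hy) (Finset.notMem_empty _)

private theorem c3_dset (c : Ctx A F m U C D r 𝒞 𝒵) {x : V} {I : Finset V} (hI : I ∈ 𝒵)
    (hIx : ad A I x) (hID : ∃ w ∈ I, ad A D w) :
    (oN A (nb A U r) I).erase x ⊆ dset A (nb A U r) (na A U r \ C) 𝒵 x D := by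
  intro y hy
  rw [Finset.mem_erase, mem_oNl] at hy
  obtain ⟨hyx, hyS, hyI, w, hw, hwy⟩ := hy
  rw [mem_dset]
  refine ⟨Or.inl hyS, ?_, ⟨w, c3_blk hI hIx hw, hwy⟩, ?_⟩
  · intro hyb
    rcases Finset.mem_insert.mp hyb with h1 | h1
    · exact hyx h1
    · obtain ⟨I', hI', _, _, hyI'⟩ := mem_bI.mp h1
      have hne : I ≠ I' := by
        rintro rfl
        exact hyI hyI'
      exact (c.hZ.sep I hI I' hI' hne w hw y hyI').2 hwy
  · exact c.loc.int_adj (c3_Xi c hI hw) hyS hwy c.hD (c3_int c hI hID hw)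

private theorem c3_far (c : Ctx A F m U C D r 𝒞 𝒵) :
    ∃ q ∈ nb A U r, q ∉ C ∧ ∀ I ∈ 𝒵, q ∈ far A (nb A U r) I := by
  obtain ⟨q, hq, hqr⟩ := c.rfar
  rw [mem_far] at hq
  have hqS : q ∈ nb A U r := mem_nb.mpr ⟨hq.1, c.fam.symm _ _ hqr⟩
  refine ⟨q, hqS, hq.2.1, fun I hI => ?_⟩
  rw [mem_far]
  refine ⟨hqS, fun h => ?_, ?_⟩
  · exact hq.2.1 (mem_nb.mp (c3_IX c hI h)).1
  · rintro ⟨w, hw, hwq⟩
    exact hq.2.2 ⟨w, (mem_nb.mp (c3_IX c hI hw)).1, hwq⟩

/-- A neighbour of `x` in `O` with a common neighbour in `D`. -/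
private theorem c3_exit (c : Ctx A F m U C D r 𝒞 𝒵) {x : V} (hx : x ∈ nb A C r)
    (hxO : ∃ o ∈ na A U r \ C, A x o) (hxD : ad A D x) :
    ∃ z ∈ na A U r \ C, A x z ∧ ∃ p ∈ D, A x p ∧ A p z := by
  have h := c.loc
  obtain ⟨w, hw, hxw⟩ := hxO
  have hwD : w ∉ D := fun h' => h.dCO w ((h.dC.mem w).mpr ⟨D, c.hD, h'⟩) hw
  obtain ⟨a, haD, hax⟩ := hxD
  have haC : a ∈ C \ nb A C r := (h.dC.mem a).mpr ⟨D, c.hD, haD⟩
  obtain ⟨p, hp, q, hq, hqD, hpq⟩ :=
    h.wcn x hx (nb A ((C \ nb A C r) ∪ (na A U r \ C)) x ∩ D) Finset.inter_subset_left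
      ⟨a, Finset.mem_inter.mpr ⟨mem_nb.mpr ⟨Finset.mem_union_left _ haC, h.symm _ _ hax⟩, haD⟩⟩ (by
        intro he
        have : w ∈ nb A ((C \ nb A C r) ∪ (na A U r \ C)) x ∩ D := by
          rw [he]
          exact mem_nb.mpr ⟨Finset.mem_union_right _ hw, hxw⟩
        exact hwD (Finset.mem_inter.mp this).2)
  rw [Finset.mem_inter, mem_nb] at hp
  rw [Finset.mem_inter] at hqD
  rw [mem_nb] at hq
  have hqD' : q ∉ D := fun h' => hqD ⟨mem_nb.mpr hq, h'⟩
  rcases Finset.mem_union.mp hq.1 with hqC | hqO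
  · obtain ⟨D', hD', hqD2⟩ := (h.dC.mem q).mp hqC
    have hne : D ≠ D' := by
      rintro rfl
      exact hqD' hqD2
    exact absurd hpq (h.dC.sep D c.hD D' hD' hne p hp.2 q hqD2).2
  · exact ⟨q, hqO, hq.2, p, hp.2, hp.1.2, hpq⟩

theorem c3 (c : Ctx A F m U C D r 𝒞 𝒵) {x : V} (hx : x ∈ nb A C r)
    (hxO : ∃ o ∈ na A U r \ C, A x o) (hxD : ad A D x) {I : Finset V} (hI : I ∈ 𝒵)
    (hIx : ad A I x) (hID : ∃ w ∈ I, ad A D w) :
    Spl A m (nb A U r) I (oN A (nb A U r) I) (far A (nb A U r) I) ∧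
    (∃ z ∈ na A U r \ C, A x z ∧ (∃ p ∈ D, A x p ∧ A p z) ∧
      ∀ z' ∈ na A U r \ C, A x z' → ad A D z' → z' = z) ∧
    (∀ y ∈ nb A U r, y ∉ blk A 𝒵 x → ad A (blk A 𝒵 x) y → ad A D y →
      y ∈ oN A (nb A U r) I) ∧
    (∀ y ∈ oN A U D, A x y → A r y → y ∈ I ∨ y ∈ oN A (nb A U r) I) := by
  classical
  have h := c.loc
  have hcard := dsize c.fam c.hU c.q.tt c.hr c.rfar c.hC c.hZ hx hxO c.hD hxD
  have hIne : I.Nonempty := c.hZ.ne I hI
  have hxS := c3_S c hx
  have hxK : x ∈ oN A (nb A U r) I := mem_oNl.mpr ⟨hxS, c3_nmem c hxO hI, hIx⟩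
  have hK2 : 2 * m ≤ (oN A (nb A U r) I).card := h.Sp I (fun y hy => c3_IX c hI hy) hIne
  have hblkS : ∀ y ∈ blk A 𝒵 x, y ∈ nb A U r := by
    intro y hy
    rcases Finset.mem_insert.mp hy with h1 | h1
    · rw [h1]
      exact hxS
    · obtain ⟨I', hI', _, _, hyI'⟩ := mem_bI.mp h1
      exact c3_S c (c3_IX c hI' hyI')
  obtain ⟨z, hzO, hxz, p, hpD, hxp, hpz⟩ := c3_exit c hx hxO hxD
  have hO : ∀ y ∈ na A U r \ C, A x y → ad A D y →
      y ∈ dset A (nb A U r) (na A U r \ C) 𝒵 x D := by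
    intro y hy hxy hyD
    rw [mem_dset]
    exact ⟨Or.inr hy, fun h' => h.dSO y hy (hblkS y h'),
      ⟨x, Finset.mem_insert_self _ _, hxy⟩, hyD⟩
  have hzd := hO z hzO hxz ⟨p, hpD, hpz⟩
  have hKS : ∀ y ∈ (oN A (nb A U r) I).erase x, y ∈ nb A U r := by
    intro y hy
    exact (mem_oNl.mp (Finset.mem_of_mem_erase hy)).1
  have hzK : z ∉ (oN A (nb A U r) I).erase x := fun h' => h.dSO z hzO (hKS z h')
  have hsub : insert z ((oN A (nb A U r) I).erase x) ⊆
      dset A (nb A U r) (na A U r \ C) 𝒵 x D :=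
    Finset.insert_subset hzd (c3_dset c hI hIx hID)
  have hc1 : (insert z ((oN A (nb A U r) I).erase x)).card = (oN A (nb A U r) I).card := by
    rw [Finset.card_insert_of_notMem hzK, Finset.card_erase_of_mem hxK]
    have : 0 < (oN A (nb A U r) I).card := Finset.card_pos.mpr ⟨x, hxK⟩
    omega
  have hc2 := Finset.card_le_card hsub
  have hKc : (oN A (nb A U r) I).card = 2 * m := by omega
  have heq : insert z ((oN A (nb A U r) I).erase x) =
      dset A (nb A U r) (na A U r \ C) 𝒵 x D :=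
    Finset.eq_of_subset_of_card_le hsub (by omega)
  have hdS : ∀ y ∈ dset A (nb A U r) (na A U r \ C) 𝒵 x D, y ∈ nb A U r →
      y ∈ (oN A (nb A U r) I).erase x := by
    intro y hy hyS
    rw [← heq] at hy
    rcases Finset.mem_insert.mp hy with h1 | h1
    · rw [h1] at hyS
      exact absurd hyS (h.dSO z hzO)
    · exact h1
  obtain ⟨q, hqS, hqC, hqf⟩ := c3_far c
  have hspl : Spl A m (nb A U r) I (oN A (nb A U r) I) (far A (nb A U r) I) := by
    refine ⟨?_, ?_, ?_, ?_, hIne, ⟨q, hqf I hI⟩, ?_, hKc⟩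
    · intro y
      rw [mem_oNl, mem_far]
      constructor
      · intro hy
        by_cases h1 : y ∈ I
        · exact Or.inl h1
        · by_cases h2 : ad A I y
          · exact Or.inr (Or.inl ⟨hy, h1, h2⟩)
          · exact Or.inr (Or.inr ⟨hy, h1, h2⟩)
      · rintro (h1 | h1 | h1)
        · exact c3_S c (c3_IX c hI h1)
        · exact h1.1
        · exact h1.1
    · intro y hy hyK
      exact (mem_oNl.mp hyK).2.1 hy
    · intro y hy hyR
      exact (mem_far.mp hyR).2.1 hy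
    · intro y hyK hyR
      exact (mem_far.mp hyR).2.2 (mem_oNl.mp hyK).2.2
    · intro p' hp' q' hq' hpq
      exact (mem_far.mp hq').2.2 ⟨p', hp', hpq⟩
  refine ⟨hspl, ⟨z, hzO, hxz, ⟨p, hpD, hxp, hpz⟩, ?_⟩, ?_, ?_⟩
  · intro z' hz' hxz' hz'D
    have h1 := hO z' hz' hxz' hz'D
    rw [← heq] at h1
    rcases Finset.mem_insert.mp h1 with h2 | h2
    · exact h2
    · exact absurd (hKS z' h2) (h.dSO z' hz')
  · intro y hyS hyb hby hyD
    exact Finset.mem_of_mem_erase (hdS y (mem_dset.mpr ⟨Or.inl hyS, hyb, hby, hyD⟩) hyS)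
  · intro y hy hxy hry
    obtain ⟨hyU, hyD', hyD⟩ := mem_oNl.mp hy
    have hyS : y ∈ nb A U r := mem_nb.mpr ⟨hyU, hry⟩
    have hyx : y ≠ x := by
      rintro rfl
      exact h.irr y hxy
    by_cases hyb : y ∈ blk A 𝒵 x
    · rcases Finset.mem_insert.mp hyb with h1 | h1
      · exact absurd h1 hyx
      · obtain ⟨I', hI', hI'x, _, hyI'⟩ := mem_bI.mp h1
        by_cases hII : I' = I
        · left
          rw [← hII]
          exact hyI'
        · exfalso
          have hne : I ≠ I' := fun h' => hII h'.symm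
          have hID' : ∃ w ∈ I', ad A D w := ⟨y, hyI', hyD⟩
          have hx' : x ∈ oN A (nb A U r) I' := mem_oNl.mpr ⟨hxS, c3_nmem c hxO hI', hI'x⟩
          have hK2' : 2 * m ≤ (oN A (nb A U r) I').card :=
            h.Sp I' (fun y hy => c3_IX c hI' hy) (c.hZ.ne I' hI')
          have hs' : (oN A (nb A U r) I').erase x ⊆ (oN A (nb A U r) I).erase x := by
            intro y' hy'
            exact hdS y' (c3_dset c hI' hI'x hID' hy')
              (mem_oNl.mp (Finset.mem_of_mem_erase hy')).1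
          have he' : (oN A (nb A U r) I').erase x = (oN A (nb A U r) I).erase x := by
            refine Finset.eq_of_subset_of_card_le hs' ?_
            rw [Finset.card_erase_of_mem hxK, Finset.card_erase_of_mem hx']
            omega
          have hKK : oN A (nb A U r) I' = oN A (nb A U r) I := by
            rw [← Finset.insert_erase hx', he', Finset.insert_erase hxK]
          have hrU : r ∈ U := (mem_oNl.mp c.hr).1
          have hL : F (m + 1) (nb A U r) := c.fam.link (m + 1) U r c.hU hrU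
          have hconn : Cn A (far A (nb A U r) I) := Spl.conn c.fam hL (Spl.symm c.fam hspl)
          have hI'R : I' ⊆ far A (nb A U r) I := by
            intro y' hy'
            rw [mem_far]
            refine ⟨c3_S c (c3_IX c hI' hy'), fun h' => ?_, ?_⟩
            · exact (c.hZ.sep I hI I' hI' hne y' h' y' hy').1 rfl
            · rintro ⟨w, hw, hwy⟩
              exact (c.hZ.sep I hI I' hI' hne w hw y' hy').2 hwy
          obtain ⟨a, ha, b, hb, hbI, hab⟩ := hconn I' hI'R (c.hZ.ne I' hI') (by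
            intro h'
            have : q ∈ I' := by
              rw [h']
              exact hqf I hI
            exact hqC (mem_nb.mp (c3_IX c hI' this)).1)
          have hbK : b ∈ oN A (nb A U r) I' :=
            mem_oNl.mpr ⟨(mem_far.mp hb).1, hbI, ⟨a, ha, hab⟩⟩
          rw [hKK] at hbK
          exact hspl.KR b hbK hb
    · right
      exact Finset.mem_of_mem_erase (hdS y (mem_dset.mpr ⟨Or.inl hyS, hyb,
        ⟨x, Finset.mem_insert_self _ _, hxy⟩, hyD⟩) hyS)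

end Pool.Agent.MP19e880.FV
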