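import Pool.Agent.Lib.MP_19e880_co_FV.Face

/-!
Adding a vertex to a connected set.
-/

set_option autoImplicit false
set_option linter.unusedSectionVars false

namespace Pool.Agent.MP19e880.FV

open Pool.Agent.MP19e880.Low Pool.Agent.MP19e880.G2

variable {V : Type} [DecidableEq V] {A : V → V → Prop} {F : ℕ → Finset V → Prop}

/-- Adding to `C` a neighbour `z` of `C`: the value of `H`. -/
theorem H_insert (hs : ∀ x y, A x y → A y x) (hi : ∀ x, ¬ A x x) (m : ℕ) {U C : Finset V}
    (hC : C ⊆ U) {z : V} (hz : z ∈ oN A U C) :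
    H A m U (insert z C) = H A m U C + 2 * ((nb A (U \ C) z).card : ℤ) - (4 * (m : ℤ) - 8)
      - 2 * ((((nb A (U \ C) z) \ (oN A U C)).card : ℕ) : ℤ) := by
  classical
  have hz' := hz
  rw [mem_oNl] at hz'
  obtain ⟨hzU, hzC, hzad⟩ := hz'
  -- the members of `C`
  have h1 : ∀ x ∈ C, ((nb A (U \ insert z C) x).card : ℤ) =
      (nb A (U \ C) x).card - (if A z x then 1 else 0) := by
    intro x _
    by_cases hx : A z x
    · rw [if_pos hx]
      have e1 : nb A (U \ C) x = insert z (nb A (U \ insert z C) x) := by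
        ext y
        simp only [Finset.mem_insert, mem_nb, Finset.mem_sdiff, not_or]
        constructor
        · rintro ⟨⟨hy1, hy2⟩, hy3⟩
          by_cases hyz : y = z
          · exact Or.inl hyz
          · exact Or.inr ⟨⟨hy1, hyz, hy2⟩, hy3⟩
        · rintro (rfl | ⟨⟨hy1, _, hy2⟩, hy3⟩)
          · exact ⟨⟨hzU, hzC⟩, hs _ _ hx⟩
          · exact ⟨⟨hy1, hy2⟩, hy3⟩
      have e2 : z ∉ nb A (U \ insert z C) x := by
        rw [mem_nb, Finset.mem_sdiff]
        rintro ⟨⟨_, h'⟩, _⟩
        exact h' (Finset.mem_insert_self _ _)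
      rw [e1, Finset.card_insert_of_notMem e2]
      push_cast
      ring
    · rw [if_neg hx, sub_zero]
      congr 2
      ext y
      simp only [Finset.mem_insert, mem_nb, Finset.mem_sdiff, not_or]
      constructor
      · rintro ⟨⟨hy1, _, hy2⟩, hy3⟩
        exact ⟨⟨hy1, hy2⟩, hy3⟩
      · rintro ⟨⟨hy1, hy2⟩, hy3⟩
        refine ⟨⟨hy1, ?_, hy2⟩, hy3⟩
        rintro rfl
        exact hx (hs _ _ hy3)
  have h2 : ∑ x ∈ C, (if A z x then (1:ℤ) else 0) = (nb A C z).card := by
    unfold nb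
    rw [Finset.card_filter]
    push_cast
    rfl
  have h3 : nb A (U \ insert z C) z = nb A (U \ C) z := by
    ext y
    simp only [Finset.mem_insert, mem_nb, Finset.mem_sdiff, not_or]
    constructor
    · rintro ⟨⟨hy1, _, hy2⟩, hy3⟩
      exact ⟨⟨hy1, hy2⟩, hy3⟩
    · rintro ⟨⟨hy1, hy2⟩, hy3⟩
      refine ⟨⟨hy1, ?_, hy2⟩, hy3⟩
      rintro rfl
      exact hi _ hy3
  have h4 : (nb A U z).card = (nb A C z).card + (nb A (U \ C) z).card := by
    rw [← Finset.card_union_of_disjoint]
    · congr 1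
      ext y
      simp only [Finset.mem_union, mem_nb, Finset.mem_sdiff]
      constructor
      · rintro ⟨hy1, hy2⟩
        by_cases hyC : y ∈ C
        · exact Or.inl ⟨hyC, hy2⟩
        · exact Or.inr ⟨⟨hy1, hyC⟩, hy2⟩
      · rintro (⟨hy1, hy2⟩ | ⟨⟨hy1, _⟩, hy2⟩)
        · exact ⟨hC hy1, hy2⟩
        · exact ⟨hy1, hy2⟩
    · rw [Finset.disjoint_left]
      intro y hy hy2
      rw [mem_nb] at hy hy2
      exact (Finset.mem_sdiff.mp hy2.1).2 hy.1
  have h5 : oN A U (insert z C) = (oN A U C).erase z ∪ (nb A (U \ C) z \ oN A U C) := by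
    ext y
    simp only [Finset.mem_union, Finset.mem_erase, Finset.mem_sdiff, mem_oNl, mem_nb,
      Finset.mem_insert, not_or]
    constructor
    · rintro ⟨hy1, ⟨hy2, hy3⟩, w, hw, hwy⟩
      by_cases hyC : ad A C y
      · exact Or.inl ⟨hy2, hy1, hy3, hyC⟩
      · right
        rw [Finset.mem_insert] at hw
        rcases hw with rfl | hw
        · exact ⟨⟨⟨hy1, hy3⟩, hwy⟩, fun h' => hyC h'.2.2⟩
        · exact absurd ⟨w, hw, hwy⟩ hyC
    · rintro (⟨hy1, hy2, hy3, w, hw, hwy⟩ | ⟨⟨⟨hy1, hy2⟩, hy3⟩, _⟩)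
      · exact ⟨hy2, ⟨hy1, hy3⟩, w, Finset.mem_insert_of_mem hw, hwy⟩
      · refine ⟨hy1, ⟨?_, hy2⟩, z, Finset.mem_insert_self _ _, hy3⟩
        rintro rfl
        exact hi _ hy3
  have h6 : ((oN A U (insert z C)).card : ℤ) =
      (oN A U C).card - 1 + (nb A (U \ C) z \ oN A U C).card := by
    rw [h5, Finset.card_union_of_disjoint, Finset.card_erase_of_mem hz]
    · have h7 := Finset.card_pos.mpr ⟨z, hz⟩
      push_cast [Nat.cast_sub (show 1 ≤ (oN A U C).card from h7)]
      ring
    · rw [Finset.disjoint_left]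
      intro y hy hy2
      exact (Finset.mem_sdiff.mp hy2).2 (Finset.mem_of_mem_erase hy)
  unfold H
  rw [Finset.sum_insert hzC, Finset.sum_add_distrib, Finset.sum_congr rfl h1,
    Finset.sum_sub_distrib, h2, h3, h4, h6, Finset.card_insert_of_notMem hzC,
    Finset.sum_add_distrib]
  push_cast
  ring

theorem Cn_insert {C : Finset V} (hs : ∀ x y, A x y → A y x) (hC : Cn A C) {z : V}
    (hz : ad A C z) : Cn A (insert z C) := by
  classical
  by_cases hzC : z ∈ C
  · rw [Finset.insert_eq_of_mem hzC]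
    exact hC
  intro X hX hXn hXne
  obtain ⟨w, hw, hwz⟩ := hz
  by_cases hzX : z ∈ X
  · have hsub : X.erase z ⊆ C := by
      intro y hy
      rw [Finset.mem_erase] at hy
      exact (Finset.mem_insert.mp (hX hy.2)).resolve_left hy.1
    rcases Finset.eq_empty_or_nonempty (X.erase z) with he | he
    · refine ⟨z, hzX, w, Finset.mem_insert_of_mem hw, fun hwX => ?_, hs _ _ hwz⟩
      have h1 : w ∈ X.erase z := by
        rw [Finset.mem_erase]
        refine ⟨?_, hwX⟩
        rintro rfl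
        exact hzC hw
      rw [he] at h1
      exact absurd h1 (Finset.notMem_empty _)
    · obtain ⟨a, ha, b, hb, hbX, hab⟩ := hC (X.erase z) hsub he (by
        intro h'
        apply hXne
        rw [← h', Finset.insert_erase hzX])
      refine ⟨a, Finset.mem_of_mem_erase ha, b, Finset.mem_insert_of_mem hb, fun h' => ?_, hab⟩
      apply hbX
      rw [Finset.mem_erase]
      refine ⟨?_, h'⟩
      rintro rfl
      exact hzC hb
  · have hsub : X ⊆ C := by
      intro y hy
      refine (Finset.mem_insert.mp (hX hy)).resolve_left ?_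
      rintro rfl
      exact hzX hy
    by_cases hXC : X = C
    · exact ⟨w, hXC ▸ hw, z, Finset.mem_insert_self _ _, hzX, hwz⟩
    · obtain ⟨a, ha, b, hb, hbX, hab⟩ := hC X hsub hXn hXC
      exact ⟨a, ha, b, Finset.mem_insert_of_mem hb, hbX, hab⟩

end Pool.Agent.MP19e880.FV
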