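import Pool.Agent.Lib.MP_19e880_co_FV.TStep

/-!
Links of tight sets.
-/

set_option autoImplicit false
set_option linter.unusedSectionVars false

namespace Pool.Agent.MP19e880.FV

open Pool.Agent.MP19e880.Low Pool.Agent.MP19e880.G2

variable {V : Type} [DecidableEq V] {A : V → V → Prop} {F : ℕ → Finset V → Prop}

theorem tstar (h : Fam A F) {m : ℕ} {U C G : Finset V} (hU : F m U) (hT : Tt A m U C)
    (hG : G ⊆ oN A U C) (hc : Cq A G) (hv : (cn A C G).Nonempty)
    (hf : (cn A (far A U C) G).Nonempty) :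
    G.card + 1 ≤ m ∧ Tt A (m - G.card) (cn A U G) (cn A C G) := by
  classical
  induction G using Finset.induction_on with
  | empty =>
    rw [cn_empty, cn_empty, Finset.card_empty, Nat.sub_zero]
    refine ⟨?_, hT⟩
    rcases Nat.eq_zero_or_pos m with h0 | h0
    · exfalso
      rw [h0, h.zero] at hU
      obtain ⟨c, hcC⟩ := hT.ne
      have := hT.sub hcC
      rw [hU] at this
      exact absurd this (Finset.notMem_empty _)
    · omega
  | insert x G hx ih =>
    have hGs : G ⊆ insert x G := Finset.subset_insert _ _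
    obtain ⟨h1, h2⟩ := ih (hGs.trans hG) (hc.mono hGs) (hv.mono (cn_anti hGs))
      (hf.mono (cn_anti hGs))
    have hGU : insert x G ⊆ U := fun g hg => (mem_oN.mp (hG hg)).1
    obtain ⟨y, hy⟩ := hv
    obtain ⟨v, hv'⟩ := hf
    obtain ⟨h3, h4⟩ := face h hU hGU hc
    have hxo := mem_oN.mp (hG (Finset.mem_insert_self x G))
    rw [mem_cn] at hy hv'
    have hcard : (insert x G).card = G.card + 1 := Finset.card_insert_of_notMem hx
    obtain ⟨j, hj⟩ : ∃ j, m - G.card = j + 2 := by
      have h5 : m - (insert x G).card ≠ 0 := by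
        intro h0
        rw [h0, h.zero] at h4
        have : y ∈ cn A U (insert x G) := mem_cn.mpr ⟨hT.sub hy.1, hy.2⟩
        rw [h4] at this
        exact absurd this (Finset.notMem_empty _)
      exact ⟨m - G.card - 2, by omega⟩
    have hxG : ∀ g ∈ G, A g x := by
      intro g hg
      refine hc g (Finset.mem_insert_of_mem hg) x (Finset.mem_insert_self _ _) ?_
      rintro rfl
      exact hx hg
    have hFG : F (j + 2) (cn A U G) := by
      rw [← hj]
      exact (face h hU (hGs.trans hGU) (hc.mono hGs)).2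
    rw [hj] at h2
    have hr : x ∈ oN A (cn A U G) (cn A C G) := by
      rw [mem_oN]
      refine ⟨mem_cn.mpr ⟨hxo.1, hxG⟩, fun h' => hxo.2.1 (mem_cn.mp h').1, y, ?_, ?_⟩
      · exact mem_cn.mpr ⟨hy.1, fun g hg => hy.2 g (hGs hg)⟩
      · exact h.symm _ _ (hy.2 x (Finset.mem_insert_self _ _))
    have hrf : ad A (far A (cn A U G) (cn A C G)) x := by
      have hvf := mem_far.mp hv'.1
      refine ⟨v, mem_far.mpr ⟨mem_cn.mpr ⟨hvf.1, fun g hg => hv'.2 g (hGs hg)⟩, ?_, ?_⟩,
        h.symm _ _ (hv'.2 x (Finset.mem_insert_self _ _))⟩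
      · exact fun h' => hvf.2.1 (mem_cn.mp h').1
      · rintro ⟨z, hz, hzv⟩
        exact hvf.2.2 ⟨z, (mem_cn.mp hz).1, hzv⟩
    obtain ⟨𝒞, h𝒞⟩ := exists_dec h.symm (cn A C G \ nb A (cn A C G) x)
    have hfin := (tight_step h hFG h2 hr hrf h𝒞).1
    rw [cn_insert, cn_insert, hcard]
    refine ⟨by omega, ?_⟩
    rw [show m - (G.card + 1) = j + 1 by omega]
    exact hfin

end Pool.Agent.MP19e880.FV
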