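import Pool.Agent.Lib.MP_19e880_co_FV.C3
import Pool.Agent.Lib.MP_19e880_co_FV.Tstar
import Pool.Agent.Lib.MP_19e880_co_FV.HIns

/-!
The structure of C3: common neighbours of cliques in far.
-/

set_option autoImplicit false
set_option linter.unusedSectionVars false

namespace Pool.Agent.MP19e880.FV

open Pool.Agent.MP19e880.Low Pool.Agent.MP19e880.G2

variable {V : Type} [DecidableEq V] {A : V → V → Prop} {F : ℕ → Finset V → Prop}

variable {m : ℕ} {U C D : Finset V} {r : V} {𝒞 𝒵 : Finset (Finset V)}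

/-- A clique of neighbours of `D`, containing `x`, all adjacent to `r` except `z`. -/
theorem c3_split (c : Ctx A F m U C D r 𝒞 𝒵) {x : V} (hx : x ∈ nb A C r)
    (hxO : ∃ o ∈ na A U r \ C, A x o) (hxD : ad A D x) {I : Finset V} (hI : I ∈ 𝒵)
    (hIx : ad A I x) (hID : ∃ w ∈ I, ad A D w) {G : Finset V} (hG : G ⊆ oN A U D)
    (hc : Cq A G) (hxG : x ∈ G) (hnr : ¬ ∀ g ∈ G, A r g) :
    ∃ z ∈ G, z ∈ na A U r \ C ∧ A x z ∧ ad A D z ∧ (∀ z' ∈ na A U r \ C, A x z' → ad A D z' → z' = z) ∧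
      x ∈ G.erase z ∧ G.erase z ⊆ oN A (nb A U r) I := by
  obtain ⟨_, ⟨z0, _, _, _, huniq⟩, _, hfour⟩ := c3 c hx hxO hxD hI hIx hID
  have hrx : A r x := (mem_nb.mp hx).2
  have hxC : x ∈ C := (mem_nb.mp hx).1
  have hxI : x ∉ I := by
    intro hxI
    obtain ⟨o, ho, hxo⟩ := hxO
    exact (c.memI hI hxI).2 o ho hxo
  -- members of `G` not adjacent to `r`
  have key : ∀ g ∈ G, ¬ A r g → g ∈ na A U r \ C ∧ A x g ∧ ad A D g ∧ g = z0 := by
    intro g hg hrg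
    have hgO := c.oN_O (hG hg) hrg
    have hgx : x ≠ g := by
      rintro rfl
      exact hrg hrx
    have hxg := hc x hxG g hg hgx
    have hgD := (mem_oN.mp (hG hg)).2.2
    exact ⟨hgO, hxg, hgD, huniq g hgO hxg hgD⟩
  obtain ⟨z, hzG, hrz⟩ : ∃ z ∈ G, ¬ A r z := by
    by_contra hcon
    push Not at hcon
    exact hnr hcon
  obtain ⟨hzO, hxz, hzD, hz0⟩ := key z hzG hrz
  refine ⟨z, hzG, hzO, hxz, hzD, ?_, ?_, ?_⟩
  · intro z' hz' h1 h2
    rw [hz0]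
    exact huniq z' hz' h1 h2
  · rw [Finset.mem_erase]
    refine ⟨?_, hxG⟩
    rintro rfl
    exact hrz hrx
  · intro g hg
    rw [Finset.mem_erase] at hg
    have hrg : A r g := by
      by_contra hrg
      exact hg.1 ((key g hg.2 hrg).2.2.2.trans hz0.symm)
    by_cases hgx : g = x
    · rw [hgx, mem_oN, mem_nb]
      exact ⟨⟨c.q.tt.sub hxC, hrx⟩, hxI, hIx⟩
    · have hxg := hc x hxG g hg.2 (Ne.symm hgx)
      rcases hfour g (hG hg.2) hxg hrg with h1 | h1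
      · exact absurd (hc g hg.2 z hzG hg.1) ((c.memI hI h1).2 z hzO)
      · exact h1

theorem c3_out (c : Ctx A F m U C D r 𝒞 𝒵) {x : V} (hx : x ∈ nb A C r)
    (hxO : ∃ o ∈ na A U r \ C, A x o) (hxD : ad A D x) {I : Finset V} (hI : I ∈ 𝒵)
    (hIx : ad A I x) (hID : ∃ w ∈ I, ad A D w) {G : Finset V} (hG : G ⊆ oN A U D)
    (hc : Cq A G) (hxG : x ∈ G) (hv : (cn A D G).Nonempty) : (cn A (far A U D) G).Nonempty := by
  classical
  have hs := c.fam.symm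
  have hrfar := c.r_far
  obtain ⟨hrU, hrD, hrDad⟩ := mem_far.mp hrfar
  by_cases hall : ∀ g ∈ G, A r g
  · exact ⟨r, mem_cn.mpr ⟨hrfar, fun g hg => hs _ _ (hall g hg)⟩⟩
  by_contra hemp
  rw [Finset.not_nonempty_iff_eq_empty] at hemp
  obtain ⟨hSpl, _, _, hfour⟩ := c3 c hx hxO hxD hI hIx hID
  obtain ⟨z, hzG, hzO, hxz, hzD, huniq, hxG', hGK⟩ :=
    c3_split c hx hxO hxD hI hIx hID hG hc hxG hall
  obtain ⟨G', hG'⟩ : ∃ G', G' = G.erase z := ⟨_, rfl⟩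
  rw [← hG'] at hxG' hGK
  have hG'G : G' ⊆ G := by
    rw [hG']
    exact Finset.erase_subset _ _
  have hcG' : Cq A G' := hc.mono hG'G
  have hzna := (Finset.mem_sdiff.mp hzO).1
  obtain ⟨hzU, hzr, hrz⟩ := mem_na.mp hzna
  have hzoN := hG hzG
  obtain ⟨_, hzD', _⟩ := mem_oN.mp hzoN
  have hG'r : ∀ g ∈ G', A r g := fun g hg => (mem_nb.mp (mem_oN.mp (hGK hg)).1).2
  have hG'U : G' ⊆ U := fun g hg => (mem_nb.mp (mem_oN.mp (hGK hg)).1).1
  have hG'z : ∀ g ∈ G', A g z := by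
    intro g hg
    rw [hG', Finset.mem_erase] at hg
    exact hc g hg.2 z hzG hg.1
  have hGsplit : ∀ g ∈ G, g = z ∨ g ∈ G' := by
    intro g hg
    by_cases h1 : g = z
    · exact Or.inl h1
    · right
      rw [hG', Finset.mem_erase]
      exact ⟨h1, hg⟩
  -- the link of `G'`
  obtain ⟨L, hL⟩ : ∃ L, L = cn A U G' := ⟨_, rfl⟩
  obtain ⟨Y, hY⟩ : ∃ Y, Y = cn A D G' := ⟨_, rfl⟩
  have hrL : r ∈ L := by
    rw [hL, mem_cn]
    exact ⟨hrU, fun g hg => hs _ _ (hG'r g hg)⟩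
  obtain ⟨hcard1, hTt⟩ := tstar c.fam c.hU c.ttD (hG'G.trans hG) hcG'
    (hv.mono (cn_anti hG'G)) ⟨r, mem_cn.mpr ⟨hrfar, fun g hg => hs _ _ (hG'r g hg)⟩⟩
  obtain ⟨hcard2, hFL⟩ := face c.fam c.hU hG'U hcG'
  have hFS : F (m + 1) (nb A U r) := c.fam.link (m + 1) U r c.hU hrU
  obtain ⟨hcard3, hSpl'⟩ := hSpl.face c.fam hFS hGK hcG'
  rw [← hL, ← hY] at hTt
  rw [← hL] at hFL
  obtain ⟨e, he⟩ : ∃ e, m - G'.card = e := ⟨_, rfl⟩
  have he2 : m + 2 - G'.card = e + 2 := by omega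
  rw [he2] at hTt hFL
  rw [he] at hSpl'
  -- membership in `L` and `Y`
  have hmemL : ∀ y, y ∈ L ↔ y ∈ U ∧ ∀ g ∈ G', A g y := by
    intro y
    rw [hL, mem_cn]
  have hmemY : ∀ y, y ∈ Y ↔ y ∈ D ∧ ∀ g ∈ G', A g y := by
    intro y
    rw [hY, mem_cn]
  have hYD : ∀ y ∈ Y, y ∈ D := fun y hy => ((hmemY y).mp hy).1
  have hYL : Y ⊆ L := by
    intro y hy
    obtain ⟨h1, h2⟩ := (hmemY y).mp hy
    exact (hmemL y).mpr ⟨(c.memD h1).1, h2⟩
  have hnotD : ∀ y ∈ L, y ∉ Y → y ∉ D := by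
    intro y hy hyY hyD
    exact hyY ((hmemY y).mpr ⟨hyD, ((hmemL y).mp hy).2⟩)
  have hzL : z ∈ L := (hmemL z).mpr ⟨hzU, hG'z⟩
  have hzY : z ∉ Y := fun h1 => hzD' (hYD z h1)
  have hzadY : ad A Y z := by
    obtain ⟨y, hy⟩ := hv
    rw [mem_cn] at hy
    exact ⟨y, (hmemY y).mpr ⟨hy.1, fun g hg => hy.2 g (hG'G hg)⟩, hs _ _ (hy.2 z hzG)⟩
  -- the neighbours of `z`
  obtain ⟨N, hN⟩ : ∃ N, N = nb A (L \ Y) z := ⟨_, rfl⟩
  have hmemN : ∀ y, y ∈ N ↔ (y ∈ L ∧ y ∉ Y) ∧ A z y := by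
    intro y
    rw [hN, mem_nb, Finset.mem_sdiff]
  have hNK : N ⊆ cn A (oN A (nb A U r) I) G' := by
    intro y hy
    obtain ⟨⟨hyL, hyY⟩, hzy⟩ := (hmemN y).mp hy
    obtain ⟨hyU, hyG⟩ := (hmemL y).mp hyL
    have hyD := hnotD y hyL hyY
    have hyad : ad A D y := by
      by_contra hnad
      have h1 : y ∈ cn A (far A U D) G := by
        rw [mem_cn, mem_far]
        refine ⟨⟨hyU, hyD, hnad⟩, fun g hg => ?_⟩
        rcases hGsplit g hg with h2 | h2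
        · rw [h2]
          exact hzy
        · exact hyG g h2
      rw [hemp] at h1
      exact Finset.notMem_empty _ h1
    have hyo : y ∈ oN A U D := mem_oN.mpr ⟨hyU, hyD, hyad⟩
    have hxy : A x y := hyG x hxG'
    rw [mem_cn]
    refine ⟨?_, hyG⟩
    by_cases hry : A r y
    · rcases hfour y hyo hxy hry with h1 | h1
      · exact absurd (hs _ _ hzy) ((c.memI hI h1).2 z hzO)
      · exact h1
    · have h1 := huniq y (c.oN_O hyo hry) hxy hyad
      rw [h1] at hzy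
      exact absurd hzy (c.fam.irr z)
  -- the contraction inequality
  have hins := H_insert hs c.fam.irr (e + 2) hYL (mem_oN.mpr ⟨hzL, hzY, hzadY⟩)
  rw [← hN] at hins
  have hctr := contraction c.fam (lemmaL c.fam) (e + 1) L (insert z Y) hFL
    (Finset.insert_subset hzL hYL) ⟨z, Finset.mem_insert_self _ _⟩ (Cn_insert hs hTt.cn hzadY)
    ⟨r, hrL, by
      rw [Finset.mem_insert]
      rintro (h1 | h1)
      · exact hzr h1.symm
      · exact hrD (hYD r h1), by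
      intro y hy
      rw [Finset.mem_insert] at hy
      rcases hy with rfl | hy
      · exact fun h1 => hrz (hs _ _ h1)
      · exact fun h1 => hrDad ⟨y, hYD y hy, h1⟩⟩
  have heq := hTt.eq
  have hNcard : (cn A (oN A (nb A U r) I) G').card ≤ N.card := by
    rw [hSpl'.card]
    rw [show e + 1 + 1 = e + 2 from rfl] at hctr
    rw [hins, heq] at hctr
    push_cast at hctr
    omega
  have hNeq : N = cn A (oN A (nb A U r) I) G' := Finset.eq_of_subset_of_card_le hNK hNcard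
  -- the vertices of `L` not adjacent to `r`
  have hconn : Cn A (na A L r) := by
    rw [hL] at hrL ⊢
    exact face_conn c.fam c.hU hG'U hcG' hrL
  have hsubna : insert z Y ⊆ na A L r := by
    intro y hy
    rw [Finset.mem_insert] at hy
    rw [mem_na]
    rcases hy with rfl | hy
    · exact ⟨hzL, hzr, hrz⟩
    · obtain ⟨h1, _, h3, h4⟩ := c.memD (hYD y hy)
      exact ⟨hYL hy, h4, h3⟩
  have hna_eq : insert z Y = na A L r := by
    by_contra hne
    obtain ⟨a, ha, b, hb, hbn, hab⟩ := hconn (insert z Y) hsubna ⟨z, Finset.mem_insert_self _ _⟩ hne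
    rw [Finset.mem_insert, not_or] at hbn
    obtain ⟨hbL, hbr, hrb⟩ := mem_na.mp hb
    have hbU := ((hmemL b).mp hbL).1
    rw [Finset.mem_insert] at ha
    rcases ha with rfl | ha
    · have h1 : b ∈ N := (hmemN b).mpr ⟨⟨hbL, hbn.2⟩, hab⟩
      rw [hNeq, mem_cn, mem_oN, mem_nb] at h1
      exact hrb h1.1.1.2
    · have h1 : ad A D b := ⟨a, hYD a ha, hab⟩
      have h2 : b ∈ oN A U D := mem_oN.mpr ⟨hbU, hnotD b hbL hbn.2, h1⟩
      exact hbn.1 (huniq b (c.oN_O h2 hrb) (((hmemL b).mp hbL).2 x hxG') h1)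
  -- a vertex of the other side
  obtain ⟨t, ht⟩ := hSpl'.neR
  obtain ⟨htfar, htG⟩ := mem_cn.mp ht
  obtain ⟨htS, htI, htad⟩ := mem_far.mp htfar
  obtain ⟨htU, hrt⟩ := mem_nb.mp htS
  have htL : t ∈ L := (hmemL t).mpr ⟨htU, htG⟩
  have htD : t ∉ D := fun h1 => (c.memD h1).2.2.1 hrt
  have hnoK : t ∉ oN A (nb A U r) I := fun h1 => htad (mem_oN.mp h1).2.2
  have hcI : Cq A (insert t G') := hcG'.insert hs htG
  have hrc : r ∈ cn A U (insert t G') := by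
    rw [mem_cn]
    refine ⟨hrU, fun g hg => ?_⟩
    rw [Finset.mem_insert] at hg
    rcases hg with rfl | hg
    · exact hs _ _ hrt
    · exact hs _ _ (hG'r g hg)
  obtain ⟨w, hw, hwr, hrw⟩ := face_na c.fam c.hU (Finset.insert_subset htU hG'U) hcI hrc
  obtain ⟨hwU, hwG⟩ := mem_cn.mp hw
  have htw : A t w := hwG t (Finset.mem_insert_self _ _)
  have hwL : w ∈ L := (hmemL w).mpr ⟨hwU, fun g hg => hwG g (Finset.mem_insert_of_mem hg)⟩
  have hwna : w ∈ na A L r := mem_na.mpr ⟨hwL, hwr, hrw⟩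
  rw [← hna_eq, Finset.mem_insert] at hwna
  rcases hwna with rfl | hwY
  · have h1 : t ∈ N := (hmemN t).mpr ⟨⟨htL, fun h2 => htD (hYD t h2)⟩, hs _ _ htw⟩
    rw [hNeq, mem_cn] at h1
    exact hnoK h1.1
  · have h1 : t ∈ oN A U D := mem_oN.mpr ⟨htU, htD, w, hYD w hwY, hs _ _ htw⟩
    rcases hfour t h1 (htG x hxG') hrt with h2 | h2
    · exact htI h2
    · exact hnoK h2

end Pool.Agent.MP19e880.FV
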