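import Pool.Agent.Lib.MP_19e880_co_FV.C3

/-!
The structure of C3: common neighbours of pairs.
-/

set_option autoImplicit false
set_option linter.unusedSectionVars false

namespace Pool.Agent.MP19e880.FV

open Pool.Agent.MP19e880.Low Pool.Agent.MP19e880.G2

variable {V : Type} [DecidableEq V] {A : V → V → Prop} {F : ℕ → Finset V → Prop}

variable {m : ℕ} {U C D : Finset V} {r : V} {𝒞 𝒵 : Finset (Finset V)}

/-- A clique in the boundary of the interior component has a common neighbour in `D`. -/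
theorem c3_clique (c : Ctx A F m U C D r 𝒞 𝒵) {x : V} (hx : x ∈ nb A C r)
    (hxO : ∃ o ∈ na A U r \ C, A x o) (hxD : ad A D x) {I : Finset V} (hI : I ∈ 𝒵)
    (hIx : ad A I x) (hID : ∃ w ∈ I, ad A D w) {G : Finset V}
    (hG : G ⊆ oN A (nb A U r) I) (hc : Cq A G) : (cn A D G).Nonempty := by
  classical
  have hrU : r ∈ U := (mem_oNl.1 c.hr).1
  have hCU : C ⊆ U := c.q.tt.sub
  have hS : F (m + 1) (nb A U r) := c.fam.link (m + 1) U r c.hU hrU
  obtain ⟨hs, -, -, -⟩ := c3 c hx hxO hxD hI hIx hID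
  obtain ⟨-, hs'⟩ := Spl.face c.fam hS hs hG hc
  obtain ⟨w, hw⟩ := hs'.neP
  rw [mem_cn] at hw
  obtain ⟨hwX, hwO⟩ := c.memI hI hw.1
  have hwD : ad A D w := c3_int c hI hID hw.1
  have hG' : insert w G ⊆ nb A U r := by
    intro y hy
    rw [Finset.mem_insert] at hy
    rcases hy with rfl | hy
    · rw [mem_nb] at hwX ⊢
      exact ⟨hCU hwX.1, hwX.2⟩
    · exact (mem_oNl.1 (hG hy)).1
  have h1 := c1_face c hwX hwO hwD hG' (Cq.insert c.fam.symm hc hw.2)
    (Finset.mem_insert_self w G)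
  exact h1.mono (cn_anti (Finset.subset_insert w G))

theorem c3_pairs (c : Ctx A F m U C D r 𝒞 𝒵) {x : V} (hx : x ∈ nb A C r)
    (hxO : ∃ o ∈ na A U r \ C, A x o) (hxD : ad A D x) {I : Finset V} (hI : I ∈ 𝒵)
    (hIx : ad A I x) (hID : ∃ w ∈ I, ad A D w) {y : V} (hy : y ∈ oN A U D) (hxy : A x y) :
    ∃ v ∈ D, A v x ∧ A v y := by
  classical
  have hCU : C ⊆ U := c.q.tt.sub
  have hxS : x ∈ nb A U r := by
    rw [mem_nb] at hx ⊢
    exact ⟨hCU hx.1, hx.2⟩
  have hcq : Cq A {x, y} := by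
    intro a ha b hb hab
    rw [Finset.mem_insert, Finset.mem_singleton] at ha hb
    rcases ha with rfl | rfl <;> rcases hb with rfl | rfl
    · exact absurd rfl hab
    · exact hxy
    · exact c.fam.symm _ _ hxy
    · exact absurd rfl hab
  have hfin : (cn A D {x, y}).Nonempty → ∃ v ∈ D, A v x ∧ A v y := by
    rintro ⟨v, hv⟩
    rw [mem_cn] at hv
    exact ⟨v, hv.1, c.fam.symm _ _ (hv.2 x (by simp)), c.fam.symm _ _ (hv.2 y (by simp))⟩
  obtain ⟨-, ⟨z, hzO, hxz, ⟨p, hpD, hxp, hpz⟩, hz⟩, -, h4⟩ := c3 c hx hxO hxD hI hIx hID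
  by_cases hry : A r y
  · have hyU : y ∈ U := (mem_oNl.1 hy).1
    have hyS : y ∈ nb A U r := mem_nb.2 ⟨hyU, hry⟩
    rcases h4 y hy hxy hry with hyI | hyK
    · obtain ⟨hyX, hyO⟩ := c.memI hI hyI
      have hyD : ad A D y := c3_int c hI hID hyI
      refine hfin (c1_face c hyX hyO hyD ?_ hcq (by simp))
      intro a ha
      rw [Finset.mem_insert, Finset.mem_singleton] at ha
      rcases ha with rfl | rfl
      · exact hxS
      · exact hyS
    · have hxI : x ∉ I := by
        intro hxI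
        obtain ⟨o, ho, hxo⟩ := hxO
        exact (c.memI hI hxI).2 o ho hxo
      refine hfin (c3_clique c hx hxO hxD hI hIx hID ?_ hcq)
      intro a ha
      rw [Finset.mem_insert, Finset.mem_singleton] at ha
      rcases ha with rfl | rfl
      · exact mem_oNl.2 ⟨hxS, hxI, hIx⟩
      · exact hyK
  · have hyO : y ∈ na A U r \ C := c.oN_O hy hry
    have hyD : ad A D y := (mem_oNl.1 hy).2.2
    have hyz : y = z := hz y hyO hxy hyD
    rw [hyz]
    exact ⟨p, hpD, c.fam.symm _ _ hxp, hpz⟩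

end Pool.Agent.MP19e880.FV
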