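import Pool.Agent.Lib.MP_19e880_co_FV.C2
import Pool.Agent.Lib.MP_19e880_co_FV.C3p

/-!
Common neighbours of pairs outside C.
-/

set_option autoImplicit false
set_option linter.unusedSectionVars false

namespace Pool.Agent.MP19e880.FV

open Pool.Agent.MP19e880.Low Pool.Agent.MP19e880.G2

variable {V : Type} [DecidableEq V] {A : V → V → Prop} {F : ℕ → Finset V → Prop}

variable {m : ℕ} {U C D : Finset V} {r : V} {𝒞 𝒵 : Finset (Finset V)}

private theorem cq_pair (hs : ∀ x y, A x y → A y x) {y z : V} (hyz : A y z) :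
    Cq A ({y, z} : Finset V) := by
  intro a ha b hb hab
  rw [Finset.mem_insert, Finset.mem_singleton] at ha hb
  rcases ha with rfl | rfl <;> rcases hb with rfl | rfl
  · exact absurd rfl hab
  · exact hyz
  · exact hs _ _ hyz
  · exact absurd rfl hab

private theorem of_cn (hs : ∀ x y, A x y → A y x) {G : Finset V} {y z : V}
    (hy : y ∈ G) (hz : z ∈ G) (h : (cn A D G).Nonempty) : ∃ v ∈ D, A v y ∧ A v z := by
  obtain ⟨v, hv⟩ := h
  rw [mem_cn] at hv
  exact ⟨v, hv.1, hs _ _ (hv.2 y hy), hs _ _ (hv.2 z hz)⟩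

/-- The block of `x` sees all neighbours of `D` in the link of `r`. -/
theorem c6_blk (c : Ctx A F m U C D r 𝒞 𝒵) {x : V} (hx : x ∈ nb A C r)
    (hxO : ∃ o ∈ na A U r \ C, A x o) (hxD : ad A D x) {y : V} (hy : y ∈ oN A U D)
    (hyC : y ∉ C) (hyr : A r y) : y ∉ blk A 𝒵 x ∧ ad A (blk A 𝒵 x) y := by
  have hs := c.fam.symm
  have hxi : x ∉ Loc.Xi A (na A U r \ C) (nb A C r) := by
    intro h'
    obtain ⟨o, ho, hxo⟩ := hxO
    exact (Loc.mem_Xi.mp h').2 o ho hxo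
  obtain ⟨hb1, hb2, hb3, _⟩ := start_block c.loc c.hZ hx hxi
  have hyb : y ∉ blk A 𝒵 x := fun h' => hyC (mem_nb.mp (hb1 h')).1
  refine ⟨hyb, ?_⟩
  have hy' := mem_oNl.mp hy
  have hxb : x ∈ blk A 𝒵 x := Finset.mem_insert_self _ _
  refine pinch c.fam c.hU c.q.tt c.hr c.rfar hb1 ⟨x, hxb⟩ hb3 ?_ (c.hC.sub c.hD)
    (c.hC.cn D c.hD) ⟨x, hxb, hxD⟩ (mem_nb.mpr ⟨hy'.1, hyr⟩) hyC ?_ hy'.2.2
  · intro I hI hIO hIc hm
    have hIX : I ⊆ Loc.Xi A (na A U r \ C) (nb A C r) := fun w hw =>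
      Loc.mem_Xi.mpr ⟨hI hw, hIO w hw⟩
    obtain ⟨x1, hx1, hx1I⟩ := hm
    have hx1' := hx1
    rw [Finset.mem_insert, mem_bI] at hx1'
    rcases hx1' with rfl | ⟨I', hI', hI'x, _, hx1I'⟩
    · rcases hx1I with h' | ⟨w, hw, hwx⟩
      · exact absurd (hIX h') hxi
      · obtain ⟨I', hI', hwI'⟩ := (c.hZ.mem w).mp (hIX hw)
        have h1 : I ⊆ I' := comp_in hs c.hZ hI' hIX hIc ⟨w, hwI', Or.inl hw⟩
        exact h1.trans (hb2 I' hI' x1 hx1 (Or.inr ⟨w, hwI', hwx⟩))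
    · have h1 : I ⊆ I' := comp_in hs c.hZ hI' hIX hIc ⟨x1, hx1I', hx1I⟩
      exact h1.trans (hb2 I' hI' x1 hx1 (Or.inl hx1I'))
  · obtain ⟨c0, hc0, hc0y, hc0r⟩ := c.q.pairs y (c.oN_out hy hyC) r c.hr (hs _ _ hyr)
    exact ⟨c0, mem_nb.mpr ⟨hc0, hs _ _ hc0r⟩, hc0y⟩

/-- If all members of `X` adjacent to `D` are interior, then `C = X ∪ D` and all members of `X` are
interior and adjacent to `D`. -/
theorem c6_all (c : Ctx A F m U C D r 𝒞 𝒵)
    (hall : ∀ x ∈ nb A C r, ad A D x → ∀ o ∈ na A U r \ C, ¬ A x o) :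
    (∀ x ∈ nb A C r, ad A D x ∧ ∀ o ∈ na A U r \ C, ¬ A x o) ∧ ∀ y ∈ C, y ∈ nb A C r ∨ y ∈ D := by
  classical
  have hs := c.fam.symm
  have hDs : ∀ D' ∈ 𝒞, D' ⊆ C \ nb A C r := fun D' hD' => c.hC.sub hD'
  obtain ⟨x0, hx0⟩ : ∃ x0, x0 ∈ nb A C r := by
    obtain ⟨_, _, x0, hx0, hx0r⟩ := mem_oNl.mp c.hr
    exact ⟨x0, mem_nb.mpr ⟨hx0, hs _ _ hx0r⟩⟩
  -- an edge from a component to `nb A C r`
  have hedge : ∀ D' ∈ 𝒞, ∃ b ∈ nb A C r, ad A D' b := by
    intro D' hD'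
    obtain ⟨a, ha, b, hb, hbD, hab⟩ := c.q.tt.cn D' ((hDs D' hD').trans Finset.sdiff_subset)
      (c.hC.ne D' hD') (by
        intro he
        have h1 : x0 ∈ D' := by
          rw [he]
          exact (mem_nb.mp hx0).1
        exact (Finset.mem_sdiff.mp (hDs D' hD' h1)).2 hx0)
    by_cases hbX : b ∈ nb A C r
    · exact ⟨b, hbX, a, ha, hab⟩
    · obtain ⟨D2, hD2, hbD2⟩ := (c.hC.mem b).mp (Finset.mem_sdiff.mpr ⟨hb, hbX⟩)
      have hne : D' ≠ D2 := by
        rintro rfl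
        exact hbD hbD2
      exact absurd hab (c.hC.sep D' hD' D2 hD2 hne a ha b hbD2).2
  have hXc : Cn A (nb A C r) := c.loc.dX.cn _ (Finset.mem_singleton_self _)
  have hXD : ∀ x ∈ nb A C r, ad A D x := by
    by_contra hcon
    push Not at hcon
    obtain ⟨x1, hx1, hx1D⟩ := hcon
    obtain ⟨b0, hb0, hb0D⟩ := hedge D c.hD
    obtain ⟨a, ha, b, hb, hbn, hab⟩ := hXc ((nb A C r).filter (fun x => ad A D x))
      (Finset.filter_subset _ _) ⟨b0, Finset.mem_filter.mpr ⟨hb0, hb0D⟩⟩ (by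
        intro he
        have h1 : x1 ∈ (nb A C r).filter (fun x => ad A D x) := by
          rw [he]
          exact hx1
        exact hx1D (Finset.mem_filter.mp h1).2)
    rw [Finset.mem_filter] at ha hbn
    have haXi : a ∈ Loc.Xi A (na A U r \ C) (nb A C r) :=
      Loc.mem_Xi.mpr ⟨ha.1, hall a ha.1 ha.2⟩
    exact hbn ⟨hb, c.loc.int_adj haXi (c.loc.XS hb) hab c.hD ha.2⟩
  refine ⟨fun x hx => ⟨hXD x hx, hall x hx (hXD x hx)⟩, ?_⟩
  intro y hy
  by_cases hyX : y ∈ nb A C r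
  · exact Or.inl hyX
  · right
    obtain ⟨D', hD', hyD'⟩ := (c.hC.mem y).mp (Finset.mem_sdiff.mpr ⟨hy, hyX⟩)
    obtain ⟨b, hb, hbD'⟩ := hedge D' hD'
    have hbXi : b ∈ Loc.Xi A (na A U r \ C) (nb A C r) :=
      Loc.mem_Xi.mpr ⟨hb, hall b hb (hXD b hb)⟩
    have h1 : D' = D := c.loc.int_unique hbXi hD' c.hD hbD' (hXD b hb)
    rw [← h1]
    exact hyD'

theorem c6a (c : Ctx A F m U C D r 𝒞 𝒵) {y z : V} (hy : y ∈ oN A U D) (hz : z ∈ oN A U D)
    (hyC : y ∉ C) (hzC : z ∉ C) (hyz : A y z) (hyr : A r y) (hzr : A r z) :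
    ∃ v ∈ D, A v y ∧ A v z := by
  classical
  have hs := c.fam.symm
  have hy' := mem_oNl.mp hy
  have hz' := mem_oNl.mp hz
  have hySr : y ∈ nb A U r := mem_nb.mpr ⟨hy'.1, hyr⟩
  have hzSr : z ∈ nb A U r := mem_nb.mpr ⟨hz'.1, hzr⟩
  by_cases hcase : ∃ x ∈ nb A C r, ad A D x ∧ ∃ o ∈ na A U r \ C, A x o
  · obtain ⟨x, hx, hxD, hxO⟩ := hcase
    obtain ⟨hy1, hy2⟩ := c6_blk c hx hxO hxD hy hyC hyr
    obtain ⟨hz1, hz2⟩ := c6_blk c hx hxO hxD hz hzC hzr
    by_cases hn : ∀ I ∈ 𝒵, ad A I x → ∀ w ∈ I, ¬ ad A D w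
    · obtain ⟨hsp, hA⟩ := c2 c hx hxO hxD hn
      have hxy := hA y hySr hy1 hy2 hy'.2.2
      have hxz := hA z hzSr hz1 hz2 hz'.2.2
      have hL : F (m + 1) (nb A U x) :=
        c.fam.link (m + 1) U x c.hU (c.q.tt.sub (mem_nb.mp hx).1)
      have hG : ({y, z} : Finset V) ⊆ nb A (oN A U D) x := by
        intro w hw
        rw [Finset.mem_insert, Finset.mem_singleton] at hw
        rcases hw with rfl | rfl
        · exact mem_nb.mpr ⟨hy, hxy⟩
        · exact mem_nb.mpr ⟨hz, hxz⟩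
      obtain ⟨_, hf⟩ := Spl.face c.fam hL hsp hG (cq_pair hs hyz)
      have hne : (cn A D ({y, z} : Finset V)).Nonempty :=
        hf.neP.mono (cn_mono (fun w hw => (mem_nb.mp hw).1))
      exact of_cn hs (Finset.mem_insert_self _ _)
        (Finset.mem_insert_of_mem (Finset.mem_singleton_self _)) hne
    · push Not at hn
      obtain ⟨I, hI, hIx, hID⟩ := hn
      obtain ⟨_, _, h3, _⟩ := c3 c hx hxO hxD hI hIx hID
      have hG : ({y, z} : Finset V) ⊆ oN A (nb A U r) I := by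
        intro w hw
        rw [Finset.mem_insert, Finset.mem_singleton] at hw
        rcases hw with rfl | rfl
        · exact h3 _ hySr hy1 hy2 hy'.2.2
        · exact h3 _ hzSr hz1 hz2 hz'.2.2
      exact of_cn hs (Finset.mem_insert_self _ _)
        (Finset.mem_insert_of_mem (Finset.mem_singleton_self _))
        (c3_clique c hx hxO hxD hI hIx hID hG (cq_pair hs hyz))
  · push Not at hcase
    obtain ⟨h1, h2⟩ := c6_all c hcase
    obtain ⟨c0, hc0, hc0y, hc0z⟩ := c.q.pairs y (c.oN_out hy hyC) z (c.oN_out hz hzC) hyz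
    rcases h2 c0 hc0 with hc0X | hc0D
    · have hG : insert c0 ({y, z} : Finset V) ⊆ nb A U r := by
        intro w hw
        rw [Finset.mem_insert, Finset.mem_insert, Finset.mem_singleton] at hw
        rcases hw with rfl | rfl | rfl
        · exact c.loc.XS hc0X
        · exact hySr
        · exact hzSr
      have hc : Cq A (insert c0 ({y, z} : Finset V)) := by
        refine (cq_pair hs hyz).insert hs ?_
        intro g hg
        rw [Finset.mem_insert, Finset.mem_singleton] at hg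
        rcases hg with rfl | rfl
        · exact hs _ _ hc0y
        · exact hs _ _ hc0z
      have hne := c1_face c hc0X (h1 c0 hc0X).2 (h1 c0 hc0X).1 hG hc (Finset.mem_insert_self _ _)
      exact of_cn hs (Finset.mem_insert_of_mem (Finset.mem_insert_self _ _))
        (Finset.mem_insert_of_mem (Finset.mem_insert_of_mem (Finset.mem_singleton_self _))) hne
    · exact ⟨c0, hc0D, hc0y, hc0z⟩

end Pool.Agent.MP19e880.FV
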