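import Pool.Agent.Lib.MP_19e880_co_FV.Ctxt

/-!
Common neighbours of pairs outside C, one of them not adjacent to r.
-/

set_option autoImplicit false
set_option linter.unusedSectionVars false

namespace Pool.Agent.MP19e880.FV

open Pool.Agent.MP19e880.Low Pool.Agent.MP19e880.G2

variable {V : Type} [DecidableEq V] {A : V → V → Prop} {F : ℕ → Finset V → Prop}

variable {m : ℕ} {U C D : Finset V} {r : V} {𝒞 𝒵 : Finset (Finset V)}

theorem c6b (c : Ctx A F m U C D r 𝒞 𝒵) {y z : V} (hy : y ∈ oN A U D) (hz : z ∈ oN A U D)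
    (hyC : y ∉ C) (hzC : z ∉ C) (hyz : A y z) (hzr : ¬ A r z) :
    ∃ v ∈ D, A v y ∧ A v z := by
  classical
  have hs := c.fam.symm
  have hzC' : z ∈ oN A U C := c.oN_out hz hzC
  have hyC' : y ∈ oN A U C := c.oN_out hy hyC
  have hrC := mem_oN.mp c.hr
  have hzU := mem_oN.mp hz
  have hyU := mem_oN.mp hy
  -- `z` has a neighbour far from `C`
  have hzf : ad A (far A U C) z := by
    obtain ⟨x, hxC, hxz⟩ := (mem_oN.mp hzC').2.2
    obtain ⟨v, hv⟩ := c.q.out {z} (Finset.singleton_subset_iff.mpr hzC') (by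
      intro a ha b hb hab
      rw [Finset.mem_singleton] at ha hb
      exact absurd (ha.trans hb.symm) hab) ⟨x, mem_cn.mpr ⟨hxC, by
        intro g hg
        rw [Finset.mem_singleton] at hg
        rw [hg]
        exact hs _ _ hxz⟩⟩
    rw [mem_cn] at hv
    exact ⟨v, hv.1, hs _ _ (hv.2 z (Finset.mem_singleton_self z))⟩
  have hzfD : ad A (far A U D) z := by
    obtain ⟨v, hv, hvz⟩ := hzf
    exact ⟨v, c.far_sub hv, hvz⟩
  obtain ⟨𝒟, h𝒟⟩ := exists_dec hs (D \ nb A D z)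
  have hYc : Cn A (nb A D z) := (tight_step c.fam c.hU c.ttD hz hzfD h𝒟).1.cn
  have hYn : (nb A D z).Nonempty := by
    obtain ⟨d, hd, hdz⟩ := hzU.2.2
    exact ⟨d, mem_nb.mpr ⟨hd, hs _ _ hdz⟩⟩
  have hY : nb A D z ⊆ nb A C z := by
    intro w hw
    rw [mem_nb] at hw ⊢
    exact ⟨(c.memD hw.1).2.1, hw.2⟩
  have hrz : r ≠ z := by
    rintro rfl
    obtain ⟨d, hd, hdz⟩ := hzU.2.2
    exact (c.memD hd).2.2.1 (hs _ _ hdz)
  have hrO : r ∈ na A U z \ C := by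
    rw [Finset.mem_sdiff, mem_na]
    exact ⟨⟨hrC.1, hrz, fun h' => hzr (hs _ _ h')⟩, hrC.2.1⟩
  have hinv : ∀ I : Finset V, I ⊆ nb A C z → (∀ w ∈ I, ∀ o ∈ na A U z \ C, ¬ A w o) → Cn A I →
      (∃ x ∈ nb A D z, x ∈ I ∨ ad A I x) → I ⊆ nb A D z := by
    intro I hI hIo hIc hx
    obtain ⟨x, hxD, hxI⟩ := hx
    have hID : I ⊆ D := by
      refine comp_in hs c.hC c.hD ?_ hIc ⟨x, (mem_nb.mp hxD).1, hxI⟩
      intro w hw
      rw [Finset.mem_sdiff, mem_nb]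
      exact ⟨(mem_nb.mp (hI hw)).1, fun h' => hIo w hw r hrO (hs _ _ h'.2)⟩
    intro w hw
    exact mem_nb.mpr ⟨hID hw, (mem_nb.mp (hI hw)).2⟩
  have hyX : ad A (nb A C z) y := by
    obtain ⟨c1, hc1, h1, h2⟩ := c.q.pairs y hyC' z hzC' hyz
    exact ⟨c1, mem_nb.mpr ⟨hc1, hs _ _ h2⟩, h1⟩
  obtain ⟨c0, hc0, hc0y⟩ := hyU.2.2
  by_cases hzc0 : A z c0
  · exact ⟨c0, hc0, hc0y, hs _ _ hzc0⟩
  · obtain ⟨D', hD', hc0D'⟩ := (h𝒟.mem c0).mp (by
      rw [Finset.mem_sdiff, mem_nb]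
      exact ⟨hc0, fun h' => hzc0 h'.2⟩)
    have hD'sub : ∀ w ∈ D', w ∈ D ∧ ¬ A z w := by
      intro w hw
      have h1 := (h𝒟.mem w).mpr ⟨D', hD', hw⟩
      rw [Finset.mem_sdiff, mem_nb] at h1
      exact ⟨h1.1, fun h' => h1.2 ⟨h1.1, h'⟩⟩
    have hDY : ∃ x ∈ nb A D z, ad A D' x := by
      obtain ⟨a, ha, b, hb, hbD', hab⟩ := c.ttD.cn D' (fun w hw => (hD'sub w hw).1)
        ⟨c0, hc0D'⟩ (by
          intro he
          obtain ⟨w, hw⟩ := hYn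
          rw [mem_nb] at hw
          have h2 : w ∈ D' := by
            rw [he]
            exact hw.1
          exact (hD'sub w h2).2 hw.2)
      refine ⟨b, ?_, a, ha, hab⟩
      by_contra hbn
      obtain ⟨B, hB, hbB⟩ := (h𝒟.mem b).mp (by
        rw [Finset.mem_sdiff]
        exact ⟨hb, hbn⟩)
      have hne : D' ≠ B := by
        rintro rfl
        exact hbD' hbB
      exact (h𝒟.sep D' hD' B hB hne a ha b hbB).2 hab
    obtain ⟨v, hv, hvy⟩ := pinch c.fam c.hU c.q.tt hzC' hzf hY hYn hYc hinv (D := D') (by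
      intro w hw
      rw [Finset.mem_sdiff, mem_nb]
      exact ⟨(c.memD (hD'sub w hw).1).2.1, fun h' => (hD'sub w hw).2 h'.2⟩) (h𝒟.cn D' hD') hDY
      (mem_nb.mpr ⟨hyU.1, hs _ _ hyz⟩) hyC hyX ⟨c0, hc0D', hc0y⟩
    rw [mem_nb] at hv
    exact ⟨v, hv.1, hvy, hs _ _ hv.2⟩

end Pool.Agent.MP19e880.FV
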