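import Pool.Agent.Lib.MP_19e880_co_FV.Sus

/-!
The contraction of an edge outside the closed star of a full vertex.
-/

set_option autoImplicit false
set_option linter.unusedSectionVars false

namespace Pool.Agent.MP19e880.FV

open Pool.Agent.MP19e880 Pool.Agent.MP19e880.Low Pool.Agent.MP19e880.G2 Polynomial

variable {V : Type} [Fintype V] [LinearOrder V] {k : Type} [Field k]
  {S : Finset (Finset V)} {d : ℕ}

/-- Twice `γ₂`, of the link of `σ` (of rank `e`). -/
noncomputable def gg (S : Finset (Finset V)) (e : ℕ) (σ : Finset V) : ℤ :=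
  Fam.g2 (Adj S) (lv S σ) (e : ℤ)

private theorem ctr_pair {p q : V} {b : V} (hp : p ≠ b) (hq : q ≠ b) : b ∉ ({p, q} : Finset V) := by
  rw [Finset.mem_insert, Finset.mem_singleton, not_or]
  exact ⟨hp.symm, hq.symm⟩

/-- The adjacency of the contraction, away from the edge. -/
theorem con_adj (h : HS k S d) {a b p q : V} (hab : Adj S a b) (hpa : p ≠ a) (hpb : p ≠ b)
    (hqa : q ≠ a) (hqb : q ≠ b) : Adj (W1.con S a b) p q ↔ Adj S p q := by
  unfold Adj
  rw [W1.CtrcAux.mem_con h.down hab.1]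
  constructor
  · rintro ⟨h1, _, h2 | ⟨h2, _⟩⟩
    · exact ⟨h1, h2⟩
    · exact absurd h2 (ctr_pair hpa hqa)
  · rintro ⟨h1, h2⟩
    exact ⟨h1, ctr_pair hpb hqb, Or.inl h2⟩

private theorem ctr_adj_a (h : HS k S d) {a b x : V} (hab : Adj S a b) (hxa : x ≠ a)
    (hxb : x ≠ b) (ha : ¬ Adj S x a) (hb : ¬ Adj S x b) : ({a, x} : Finset V) ∉ W1.con S a b := by
  rw [W1.CtrcAux.mem_con h.down hab.1]
  rintro ⟨_, h1 | ⟨_, h1⟩⟩
  · apply ha
    refine ⟨hxa, ?_⟩
    rw [Finset.pair_comm]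
    exact h1
  · apply hb
    refine ⟨hxb, ?_⟩
    rw [Finset.erase_insert (by rw [Finset.mem_singleton]; exact hxa.symm)] at h1
    rw [Finset.pair_comm]
    exact h1

private theorem ctr_mem_lv {T : Finset (Finset V)} {σ : Finset V} {x : V} :
    x ∈ lv T σ ↔ x ∉ σ ∧ insert x σ ∈ T := by
  unfold lv
  rw [Finset.mem_filter]
  simp

private theorem ctr_lv (h : HS k S d) {a b x : V} (hab : Adj S a b) (hxa : x ≠ a) (hxb : x ≠ b)
    (ha : ¬ Adj S x a) (hb : ¬ Adj S x b) : lv (W1.con S a b) {x} = lv S {x} := by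
  ext y
  rw [ctr_mem_lv, ctr_mem_lv, Finset.mem_singleton]
  by_cases hya : y = a
  · subst hya
    constructor
    · rintro ⟨_, h1⟩
      exact absurd h1 (ctr_adj_a h hab hxa hxb ha hb)
    · rintro ⟨_, h1⟩
      exact absurd ⟨hxa, by rw [Finset.pair_comm]; exact h1⟩ ha
  by_cases hyb : y = b
  · subst hyb
    constructor
    · rintro ⟨_, h1⟩
      rw [W1.CtrcAux.mem_con h.down hab.1] at h1
      exact absurd (Finset.mem_insert_self _ _) h1.1
    · rintro ⟨_, h1⟩
      exact absurd ⟨hxb, by rw [Finset.pair_comm]; exact h1⟩ hb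
  have h1 := con_adj h hab hya hyb hxa hxb
  unfold Adj at h1
  exact h1

private theorem ctr_ne (h : HS k S d) {a b x p : V} (hab : Adj S a b) (hxa : x ≠ a) (hxb : x ≠ b)
    (ha : ¬ Adj S x a) (hb : ¬ Adj S x b) (hp : p ∈ lv S {x}) : p ≠ a ∧ p ≠ b := by
  rw [ctr_mem_lv, Finset.mem_singleton] at hp
  constructor
  · rintro rfl
    exact ha ⟨hxa, by rw [Finset.pair_comm]; exact hp.2⟩
  · rintro rfl
    exact hb ⟨hxb, by rw [Finset.pair_comm]; exact hp.2⟩

/-- The link of a vertex not adjacent to the ends of the edge is not changed. -/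
theorem con_link (h : HS k S d) {a b x : V} (hab : Adj S a b) (hq : W1.NoSq S a b)
    (hx : x ∈ lv S ∅) (hxa : x ≠ a) (hxb : x ≠ b) (ha : ¬ Adj S x a) (hb : ¬ Adj S x b) :
    x ∈ lv (W1.con S a b) ∅ ∧ lv (W1.con S a b) {x} = lv S {x} ∧
    gg (W1.con S a b) (d - 1) {x} = gg S (d - 1) {x} ∧
    Low.na (Adj (W1.con S a b)) (lv (W1.con S a b) ∅) x =
      (Low.na (Adj S) (lv S ∅) x).erase b := by
  have hlv := W1.lv_con h.down a b hab.1 hab.2
  have hlx := ctr_lv h hab hxa hxb ha hb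
  refine ⟨?_, hlx, ?_, ?_⟩
  · rw [hlv, Finset.mem_erase]
    exact ⟨hxb, hx⟩
  · unfold gg Fam.g2
    rw [hlx]
    have h1 : dg (Adj (W1.con S a b)) (lv S {x}) = dg (Adj S) (lv S {x}) := by
      unfold dg
      refine Finset.sum_congr rfl fun p hp => ?_
      have hp' := ctr_ne h hab hxa hxb ha hb hp
      congr 1
      ext q
      rw [Low.mem_nb, Low.mem_nb]
      constructor
      · rintro ⟨h2, h3⟩
        have hq' := ctr_ne h hab hxa hxb ha hb h2
        exact ⟨h2, (con_adj h hab hp'.1 hp'.2 hq'.1 hq'.2).1 h3⟩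
      · rintro ⟨h2, h3⟩
        have hq' := ctr_ne h hab hxa hxb ha hb h2
        exact ⟨h2, (con_adj h hab hp'.1 hp'.2 hq'.1 hq'.2).2 h3⟩
    rw [h1]
  · rw [hlv]
    ext y
    rw [Low.mem_na, Finset.mem_erase, Finset.mem_erase, Low.mem_na]
    by_cases hya : y = a
    · subst hya
      have h1 : ¬ Adj (W1.con S y b) x y := by
        rintro ⟨_, h1⟩
        rw [Finset.pair_comm] at h1
        exact ctr_adj_a h hab hxa hxb ha hb h1
      tauto
    · by_cases hyb : y = b
      · tauto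
      · have h1 := con_adj h hab hxa hxb hya hyb
        tauto

/-- coefficients -/
private theorem ctr_co {T : Finset (Finset V)} (hE : Eul T d) (σ : Finset V) (m : ℕ)
    (hm : σ.card + m = d) (i : ℕ) (hi : i ≤ m) :
    ((Pool.Agent.MP19e880.H T d σ).comp (X + 1)).coeff (m - i) = fn T σ i := by
  rw [hE.H_sum σ m hm, Polynomial.sum_comp, Polynomial.finsetSum_coeff,
    Finset.sum_eq_single_of_mem i (Finset.mem_range.2 (by omega))]
  · rw [mul_comp, C_comp, pow_comp, sub_comp, X_comp, one_comp, add_sub_cancel_right,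
      coeff_C_mul, coeff_X_pow, if_pos rfl, mul_one]
  · intro j hj hne
    rw [Finset.mem_range] at hj
    rw [mul_comp, C_comp, pow_comp, sub_comp, X_comp, one_comp, add_sub_cancel_right,
      coeff_C_mul, coeff_X_pow, if_neg, mul_zero]
    omega

/-- `γ₂` of the contraction. -/
theorem con_gg (h : HS k S d) (hd : 2 ≤ d) {a b : V} (hab : Adj S a b) (hq : W1.NoSq S a b) :
    gg S d ∅ = gg (W1.con S a b) d ∅ +
      2 * (((lv S {a, b}).card : ℤ) - 2 * ((d : ℤ) - 2)) := by
  have h' := W1.hs_con h a b hab.1 hab.2 hq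
  have hE := TT.eul_of_hs h
  have hE' := TT.eul_of_hs h'
  obtain ⟨m, rfl⟩ : ∃ m, d = m + 2 := ⟨d - 2, by omega⟩
  have hb : b ∈ lv S ∅ := by
    rw [ctr_mem_lv]
    exact ⟨Finset.notMem_empty b, (W1.CtrcAux.sing_mem h.down hab.2).2⟩
  have hlv := W1.lv_con h.down a b hab.1 hab.2
  have hn : (lv (W1.con S a b) ∅).card + 1 = (lv S ∅).card := by
    rw [hlv]
    exact Finset.card_erase_add_one hb
  -- the number of edges
  have key : fn S ∅ 2 = fn (W1.con S a b) ∅ 2 + (1 + (lv S {a, b}).card) := by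
    have h1 := congrArg (fun P : ℤ[X] => (P.comp (X + 1)).coeff m) (TT.H_con h hab.1 hab.2 hq)
    simp only [add_comp, mul_comp, X_comp, coeff_add] at h1
    have c1 := ctr_co hE ∅ (m + 2) (by simp) 2 (by omega)
    have c2 := ctr_co hE' ∅ (m + 2) (by simp) 2 (by omega)
    have e1 : m + 2 - 2 = m := by omega
    rw [e1] at c1 c2
    have hcard : ({a, b} : Finset V).card + m = m + 2 := by
      rw [Finset.card_pair hab.1]
      omega
    have c3 := ctr_co hE {a, b} m hcard 0 (by omega)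
    rw [fn_zero S _ hab.2, Nat.sub_zero] at c3
    have h2 : ((X + 1 : ℤ[X]) * (Pool.Agent.MP19e880.H S (m + 2) {a, b}).comp (X + 1)).coeff m =
        1 + (lv S {a, b}).card := by
      rw [add_mul, one_mul, coeff_add, c3]
      rcases Nat.eq_zero_or_pos m with h0 | h0
      · subst h0
        rw [coeff_X_mul_zero]
        have h3 : lv S {a, b} = ∅ := by
          rw [Finset.eq_empty_iff_forall_notMem]
          intro w hw
          rw [ctr_mem_lv] at hw
          have h4 := hE.le _ hw.2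
          rw [Finset.card_insert_of_notMem hw.1, Finset.card_pair hab.1] at h4
          omega
        rw [h3]
        simp
      · obtain ⟨j, rfl⟩ : ∃ j, m = j + 1 := ⟨m - 1, by omega⟩
        rw [coeff_X_mul]
        have c4 := ctr_co hE {a, b} (j + 1) hcard 1 (by omega)
        rw [fn_one S h.down, show j + 1 - 1 = j by omega] at c4
        rw [c4]
        push_cast
        ring
    rw [h2] at h1
    have h3 : (fn S ∅ 2 : ℤ) = fn (W1.con S a b) ∅ 2 + (1 + (lv S {a, b}).card) := by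
      rw [← c1, ← c2]
      exact h1
    exact_mod_cast h3
  have d1 := dg_face h hE ∅
  have d2 := dg_face h' hE' ∅
  have hn' : ((lv S ∅).card : ℤ) = (lv (W1.con S a b) ∅).card + 1 := by exact_mod_cast hn.symm
  have key' : (fn S ∅ 2 : ℤ) = fn (W1.con S a b) ∅ 2 + (1 + (lv S {a, b}).card) := by
    exact_mod_cast key
  unfold gg Fam.g2
  rw [d1, d2, hn']
  push_cast
  rw [key']
  ring

/-- Contracting a good edge outside the closed star of a full vertex. -/
theorem full_con (h : HS k S d) (hd : 2 ≤ d) {x a b : V} (hx : x ∈ lv S ∅)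
    (hf : gg S (d - 1) {x} = gg S d ∅) (ha : a ∈ Low.na (Adj S) (lv S ∅) x)
    (hb : b ∈ Low.na (Adj S) (lv S ∅) x) (hab : Adj S a b) (hq : W1.NoSq S a b) :
    HS k (W1.con S a b) d ∧ x ∈ lv (W1.con S a b) ∅ ∧
    Low.na (Adj (W1.con S a b)) (lv (W1.con S a b) ∅) x =
      (Low.na (Adj S) (lv S ∅) x).erase b ∧
    (lv S {a, b}).card = 2 * (d - 2) ∧
    gg (W1.con S a b) (d - 1) {x} = gg (W1.con S a b) d ∅ ∧
    H S d {x} = H (W1.con S a b) d {x} ∧
    H S d ∅ = H (W1.con S a b) d ∅ + X * (1 + X) ^ (d - 2) := by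
  rw [Low.mem_na] at ha hb
  obtain ⟨-, hax, hna⟩ := ha
  obtain ⟨-, hbx, hnb⟩ := hb
  have h' := W1.hs_con h a b hab.1 hab.2 hq
  have hE := TT.eul_of_hs h
  have hE' := TT.eul_of_hs h'
  obtain ⟨hx', hlx, hg, hna'⟩ := con_link h hab hq hx hax.symm hbx.symm hna hnb
  have hgg := con_gg h hd hab hq
  have hcard : ({a, b} : Finset V).card + (d - 2) = d := by
    rw [Finset.card_pair hab.1]
    omega
  have h1 := lv_two_mul h (d - 2) {a, b} hab.2 hcard
  have h2 : gg (W1.con S a b) (d - 1) {x} ≤ gg (W1.con S a b) d ∅ := by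
    obtain ⟨m, rfl⟩ : ∃ m, d = m + 2 := ⟨d - 2, by omega⟩
    have hU : Lk (W1.con S a b) (m + 2) (m + 2) (lv (W1.con S a b) ∅) :=
      ⟨∅, h'.down _ (by
        rw [ctr_mem_lv] at hx'
        exact hx'.2) _ (Finset.empty_subset _), rfl, by simp⟩
    have key := g2_link (fam h' hE') (lemmaL (fam h' hE')) m _ x hU hx'
    rw [nb_lv h' hE' ∅ x hx', insert_empty_eq] at key
    unfold gg
    exact key
  have h3 : (2 * (d - 2) : ℕ) = (2 * ((d : ℤ) - 2)) := by
    push_cast [Nat.cast_sub hd]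
    ring
  have h4 : (2 * ((d : ℤ) - 2)) ≤ ((lv S {a, b}).card : ℤ) := by
    rw [← h3]
    exact_mod_cast h1
  have h5 : ((lv S {a, b}).card : ℤ) = 2 * ((d : ℤ) - 2) := by linarith
  have h6 : (lv S {a, b}).card = 2 * (d - 2) := by
    rw [← h3] at h5
    exact_mod_cast h5
  refine ⟨h', hx', hna', h6, by linarith, ?_, ?_⟩
  · refine TT.H_con_one h hab.1 hab.2 hq hax.symm hbx.symm ?_ ?_
    · rw [ctr_mem_lv] at hx
      exact hx.2
    · intro h7
      apply hna
      refine ⟨hax.symm, h.down _ h7 _ ?_⟩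
      intro y hy
      rw [Finset.mem_insert, Finset.mem_singleton] at hy
      rw [Finset.mem_insert, Finset.mem_insert]
      tauto
  · rw [TT.H_con h hab.1 hab.2 hq, oct_H h (d - 2) {a, b} hab.2 hcard h6.le]

end Pool.Agent.MP19e880.FV
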