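import Pool.Agent.Lib.MP_19e880_co_FV.Pinch

/-!
The situation of the induction step: simple consequences.
-/

set_option autoImplicit false
set_option linter.unusedSectionVars false

namespace Pool.Agent.MP19e880.FV

open Pool.Agent.MP19e880.Low Pool.Agent.MP19e880.G2

variable {V : Type} [DecidableEq V] {A : V → V → Prop} {F : ℕ → Finset V → Prop}

variable {m : ℕ} {U C D : Finset V} {r : V} {𝒞 𝒵 : Finset (Finset V)}

theorem Ctx.rfar (c : Ctx A F m U C D r 𝒞 𝒵) : ad A (far A U C) r := by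
  obtain ⟨-, -, x, hx, hxr⟩ := mem_oNl.mp c.hr
  obtain ⟨v, hv⟩ := c.q.out {r} (Finset.singleton_subset_iff.mpr c.hr) (by
    intro a ha b hb hab
    rw [Finset.mem_singleton] at ha hb
    exact absurd (ha.trans hb.symm) hab) ⟨x, mem_cn.mpr ⟨hx, fun g hg => by
      rw [Finset.mem_singleton] at hg
      rw [hg]
      exact c.fam.symm _ _ hxr⟩⟩
  rw [mem_cn] at hv
  exact ⟨v, hv.1, c.fam.symm _ _ (hv.2 r (Finset.mem_singleton_self r))⟩

theorem Ctx.loc (c : Ctx A F m U C D r 𝒞 𝒵) :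
    Loc A m (nb A U r) (na A U r \ C) (nb A C r) (C \ nb A C r) 𝒞 {nb A C r} :=
  loc_one c.fam c.hU c.q.tt c.hr c.rfar c.hC

theorem Ctx.ttD (c : Ctx A F m U C D r 𝒞 𝒵) : Tt A (m + 2) U D :=
  (tight_step c.fam c.hU c.q.tt c.hr c.rfar c.hC).2.1 D c.hD

/-- Members of `D`. -/
theorem Ctx.memD (c : Ctx A F m U C D r 𝒞 𝒵) {y : V} (hy : y ∈ D) :
    y ∈ U ∧ y ∈ C ∧ ¬ A r y ∧ y ≠ r := by
  have h1 := (c.hC.mem y).mpr ⟨D, c.hD, hy⟩
  rw [Finset.mem_sdiff, mem_nb] at h1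
  refine ⟨c.q.tt.sub h1.1, h1.1, fun h2 => h1.2 ⟨h1.1, h2⟩, ?_⟩
  intro h2
  rw [h2] at h1
  exact (mem_oNl.mp c.hr).2.1 h1.1

theorem Ctx.r_far (c : Ctx A F m U C D r 𝒞 𝒵) : r ∈ far A U D := by
  rw [mem_far]
  refine ⟨(mem_oNl.mp c.hr).1, fun h => (c.memD h).2.2.2 rfl, ?_⟩
  rintro ⟨x, hx, hxr⟩
  exact (c.memD hx).2.2.1 (c.fam.symm _ _ hxr)

theorem Ctx.far_sub (c : Ctx A F m U C D r 𝒞 𝒵) : far A U C ⊆ far A U D := by
  intro v hv
  rw [mem_far] at hv ⊢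
  refine ⟨hv.1, fun h => hv.2.1 (c.memD h).2.1, ?_⟩
  rintro ⟨x, hx, hxv⟩
  exact hv.2.2 ⟨x, (c.memD hx).2.1, hxv⟩

/-- A neighbour of `D` in `C` is a neighbour of `r`. -/
theorem Ctx.oN_C (c : Ctx A F m U C D r 𝒞 𝒵) {y : V} (hy : y ∈ oN A U D) (hyC : y ∈ C) :
    y ∈ nb A C r := by
  by_contra hc
  obtain ⟨-, hyD, x, hx, hxy⟩ := mem_oNl.mp hy
  obtain ⟨B, hB, hyB⟩ := (c.hC.mem y).mp (Finset.mem_sdiff.mpr ⟨hyC, hc⟩)
  have hne : D ≠ B := by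
    intro h
    rw [← h] at hyB
    exact hyD hyB
  exact (c.hC.sep D c.hD B hB hne x hx y hyB).2 hxy

/-- A neighbour of `D` outside `C` is a neighbour of `C`. -/
theorem Ctx.oN_out (c : Ctx A F m U C D r 𝒞 𝒵) {y : V} (hy : y ∈ oN A U D) (hyC : y ∉ C) :
    y ∈ oN A U C := by
  obtain ⟨hyU, -, x, hx, hxy⟩ := mem_oNl.mp hy
  exact mem_oNl.mpr ⟨hyU, hyC, x, (c.memD hx).2.1, hxy⟩

/-- A neighbour of `D` not adjacent to `r` is in `O`. -/
theorem Ctx.oN_O (c : Ctx A F m U C D r 𝒞 𝒵) {y : V} (hy : y ∈ oN A U D) (hyr : ¬ A r y) :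
    y ∈ na A U r \ C := by
  obtain ⟨hyU, -, x, hx, hxy⟩ := mem_oNl.mp hy
  rw [Finset.mem_sdiff, mem_na]
  refine ⟨⟨hyU, ?_, hyr⟩, fun hyC => hyr (mem_nb.mp (c.oN_C hy hyC)).2⟩
  intro h
  rw [h] at hxy
  exact (c.memD hx).2.2.1 (c.fam.symm _ _ hxy)

/-- The components of the interior are connected subsets of the interior. -/
theorem Ctx.memI (c : Ctx A F m U C D r 𝒞 𝒵) {I : Finset V} (hI : I ∈ 𝒵) {w : V} (hw : w ∈ I) :
    w ∈ nb A C r ∧ ∀ o ∈ na A U r \ C, ¬ A w o :=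
  Loc.mem_Xi.mp ((c.hZ.mem w).mpr ⟨I, hI, hw⟩)

/-- An interior vertex adjacent to `D`: its neighbours are in `D` or in the closed neighbourhood
of `r`. -/
theorem c1 (c : Ctx A F m U C D r 𝒞 𝒵) {w : V} (hw : w ∈ nb A C r)
    (hwO : ∀ o ∈ na A U r \ C, ¬ A w o) (hwD : ad A D w) {y : V} (hy : y ∈ U) (hwy : A w y) :
    y ∈ D ∨ y = r ∨ A r y := by
  by_contra hcon
  rw [not_or, not_or] at hcon
  obtain ⟨hyD, hyr, hary⟩ := hcon
  have hwC := (mem_nb.mp hw).1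
  have hwr := (mem_nb.mp hw).2
  have hmem : ∀ v : V, v ∈ U → A w v → v ∈ cn A U {w} := by
    intro v hv hwv
    refine mem_cn.mpr ⟨hv, fun g hg => ?_⟩
    rw [Finset.mem_singleton] at hg
    rw [hg]
    exact hwv
  have hIc := face_conn c.fam c.hU (G := {w})
    (Finset.singleton_subset_iff.mpr (c.q.tt.sub hwC)) (by
      intro a ha b hb hab
      rw [Finset.mem_singleton] at ha hb
      exact absurd (ha.trans hb.symm) hab) (v := r)
    (hmem r (mem_oNl.mp c.hr).1 (c.fam.symm _ _ hwr))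
  have hsub : na A (cn A U {w}) r ⊆ D := by
    refine comp_in c.fam.symm c.hC c.hD ?_ hIc ?_
    · intro v hv
      rw [mem_na, mem_cn] at hv
      obtain ⟨⟨hvU, hvw⟩, hvr, harv⟩ := hv
      rw [Finset.mem_sdiff, mem_nb]
      refine ⟨?_, fun h => harv h.2⟩
      by_contra hvC
      exact hwO v (Finset.mem_sdiff.mpr ⟨mem_na.mpr ⟨hvU, hvr, harv⟩, hvC⟩)
        (hvw w (Finset.mem_singleton_self w))
    · obtain ⟨x, hx, hxw⟩ := hwD
      have h1 := c.memD hx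
      exact ⟨x, hx, Or.inl (mem_na.mpr ⟨hmem x h1.1 (c.fam.symm _ _ hxw), h1.2.2.2, h1.2.2.1⟩)⟩
  exact hyD (hsub (mem_na.mpr ⟨hmem y hy hwy, hyr, hary⟩))

/-- A clique of neighbours of `r` containing an interior vertex adjacent to `D` has a common
neighbour in `D`. -/
theorem c1_face (c : Ctx A F m U C D r 𝒞 𝒵) {w : V} (hw : w ∈ nb A C r)
    (hwO : ∀ o ∈ na A U r \ C, ¬ A w o) (hwD : ad A D w) {G : Finset V} (hG : G ⊆ nb A U r)
    (hc : Cq A G) (hwG : w ∈ G) : (cn A D G).Nonempty := by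
  have hr : r ∈ cn A U G := mem_cn.mpr ⟨(mem_oNl.mp c.hr).1, fun g hg =>
    c.fam.symm _ _ (mem_nb.mp (hG hg)).2⟩
  obtain ⟨v, hv, hvr, hrv⟩ := face_na c.fam c.hU
    (hG.trans fun g hg => (mem_nb.mp hg).1) hc hr
  rw [mem_cn] at hv
  rcases c1 c hw hwO hwD hv.1 (hv.2 w hwG) with h | h | h
  · exact ⟨v, mem_cn.mpr ⟨h, hv.2⟩⟩
  · exact absurd h hvr
  · exact absurd h hrv

end Pool.Agent.MP19e880.FV
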