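import Pool.Agent.Lib.MP_19e880_co_G2.Inst

/-!
Tight sets: the definitions.

`Fam A F`: `A` is the adjacency relation, `F m U` says that `U` is the vertex set of a link of rank
`m` (a flag homology sphere of dimension `m - 1`). `H A m U C` is twice the number of edges touching
`C`, minus `(4 m - 6) |C|`, minus twice the number of neighbours of `C`; for connected `C` with a
vertex of `U` outside the closed neighbourhood of `C` one has `H A m U C ≥ -(4 m - 6)`
(`contraction`). The set `C` is tight if equality holds.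
-/

set_option autoImplicit false
set_option linter.unusedSectionVars false

namespace Pool.Agent.MP19e880.FV

open Pool.Agent.MP19e880.Low Pool.Agent.MP19e880.G2

variable {V : Type} [DecidableEq V]

open Classical in
/-- The members of `C` adjacent to all members of `G`. -/
noncomputable def cn (A : V → V → Prop) (C G : Finset V) : Finset V :=
  C.filter (fun y => ∀ g ∈ G, A g y)

/-- `G` is a clique. -/
def Cq (A : V → V → Prop) (G : Finset V) : Prop := ∀ a ∈ G, ∀ b ∈ G, a ≠ b → A a b

open Classical in
/-- The vertices of `U` outside the closed neighbourhood of `C`. -/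
noncomputable def far (A : V → V → Prop) (U C : Finset V) : Finset V :=
  (U \ C).filter (fun y => ¬ ad A C y)

theorem mem_cn {A : V → V → Prop} {C G : Finset V} {y : V} :
    y ∈ cn A C G ↔ y ∈ C ∧ ∀ g ∈ G, A g y := by
  classical
  unfold cn
  rw [Finset.mem_filter]

theorem mem_far {A : V → V → Prop} {U C : Finset V} {y : V} :
    y ∈ far A U C ↔ y ∈ U ∧ y ∉ C ∧ ¬ ad A C y := by
  classical
  unfold far
  rw [Finset.mem_filter, Finset.mem_sdiff, and_assoc]

/-- `C` is a tight subset of `U` (of rank `m`). -/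
structure Tt (A : V → V → Prop) (m : ℕ) (U C : Finset V) : Prop where
  sub : C ⊆ U
  ne : C.Nonempty
  cn : Cn A C
  far : (far A U C).Nonempty
  eq : H A m U C = -(4 * (m : ℤ) - 6)

/-- The class of tight sets for the induction: two adjacent neighbours of `C` have a common
neighbour in `C`; a clique of neighbours of `C` with a common neighbour in `C` has a common
neighbour outside the closed neighbourhood of `C`. -/
structure QQ (A : V → V → Prop) (m : ℕ) (U C : Finset V) : Prop where
  tt : Tt A m U C
  pairs : ∀ y ∈ oN A U C, ∀ z ∈ oN A U C, A y z → ∃ c ∈ C, A c y ∧ A c z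
  out : ∀ G : Finset V, G ⊆ oN A U C → Cq A G → (FV.cn A C G).Nonempty →
    (FV.cn A (FV.far A U C) G).Nonempty

/-- `L` (of rank `e + 1`) is split by `K`, with `|K| = 2 e`, into `P` and `R`. -/
structure Spl (A : V → V → Prop) (e : ℕ) (L P K R : Finset V) : Prop where
  mem : ∀ y, y ∈ L ↔ y ∈ P ∨ y ∈ K ∨ y ∈ R
  PK : ∀ y ∈ P, y ∉ K
  PR : ∀ y ∈ P, y ∉ R
  KR : ∀ y ∈ K, y ∉ R
  neP : P.Nonempty
  neR : R.Nonempty
  no : ∀ p ∈ P, ∀ q ∈ R, ¬ A p q
  card : K.card = 2 * e

/-- The situation of the induction step: `C` is in the class, `r` is a neighbour of `C`, `𝒞` is the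
family of components of `C \ N(r)`, `𝒵` is the family of components of the set of all members of
`C ∩ N(r)` without neighbours in `O = U \ C \ N[r]`, and `D ∈ 𝒞`. -/
structure Ctx (A : V → V → Prop) (F : ℕ → Finset V → Prop) (m : ℕ) (U C D : Finset V) (r : V)
    (𝒞 𝒵 : Finset (Finset V)) : Prop where
  fam : Fam A F
  hU : F (m + 2) U
  q : QQ A (m + 2) U C
  hr : r ∈ oN A U C
  hC : Dec A (C \ nb A C r) 𝒞
  hZ : Dec A (Loc.Xi A (na A U r \ C) (nb A C r)) 𝒵
  hD : D ∈ 𝒞

/-- The block of `x`: `x` together with the members of `𝒵` adjacent to it. -/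
noncomputable abbrev blk (A : V → V → Prop) (𝒵 : Finset (Finset V)) (x : V) : Finset V :=
  insert x (bI A 𝒵 ∅ x)

open Classical in
/-- The vertices of `S ∪ O` outside the block of `x`, adjacent to the block and to `D`. -/
noncomputable def dset (A : V → V → Prop) (S O : Finset V) (𝒵 : Finset (Finset V)) (x : V)
    (D : Finset V) : Finset V :=
  (S ∪ O).filter (fun y => y ∉ blk A 𝒵 x ∧ ad A (blk A 𝒵 x) y ∧ ad A D y)

theorem mem_dset {A : V → V → Prop} {S O : Finset V} {𝒵 : Finset (Finset V)} {x y : V}
    {D : Finset V} : y ∈ dset A S O 𝒵 x D ↔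
      (y ∈ S ∨ y ∈ O) ∧ y ∉ blk A 𝒵 x ∧ ad A (blk A 𝒵 x) y ∧ ad A D y := by
  classical
  unfold dset
  rw [Finset.mem_filter, Finset.mem_union]

end Pool.Agent.MP19e880.FV
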