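import Pool.Agent.Lib.MP_19e880_co_FV.Defs

/-!
Common neighbours of cliques.
-/

set_option autoImplicit false
set_option linter.unusedSectionVars false

namespace Pool.Agent.MP19e880.FV

open Pool.Agent.MP19e880.Low Pool.Agent.MP19e880.G2

variable {V : Type} [DecidableEq V] {A : V → V → Prop} {F : ℕ → Finset V → Prop}

theorem cn_empty (C : Finset V) : cn A C ∅ = C := by
  ext y
  rw [mem_cn]
  simp

theorem cn_insert (C G : Finset V) (x : V) : cn A C (insert x G) = nb A (cn A C G) x := by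
  ext y
  rw [mem_cn, mem_nb, mem_cn]
  simp only [Finset.mem_insert, forall_eq_or_imp]
  tauto

theorem cn_mono {C C' G : Finset V} (h : C ⊆ C') : cn A C G ⊆ cn A C' G := by
  intro y hy
  rw [mem_cn] at hy ⊢
  exact ⟨h hy.1, hy.2⟩

theorem cn_anti {C G G' : Finset V} (h : G ⊆ G') : cn A C G' ⊆ cn A C G := by
  intro y hy
  rw [mem_cn] at hy ⊢
  exact ⟨hy.1, fun g hg => hy.2 g (h hg)⟩

theorem Cq.mono {G G' : Finset V} (h : Cq A G') (hs : G ⊆ G') : Cq A G :=
  fun a ha b hb => h a (hs ha) b (hs hb)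

theorem Cq.insert (hs : ∀ x y, A x y → A y x) {G : Finset V} (h : Cq A G) {x : V}
    (hx : ∀ g ∈ G, A g x) : Cq A (Insert.insert x G) := by
  intro a ha b hb hab
  rw [Finset.mem_insert] at ha hb
  rcases ha with rfl | ha
  · rcases hb with rfl | hb
    · exact absurd rfl hab
    · exact hs _ _ (hx b hb)
  · rcases hb with rfl | hb
    · exact hx a ha
    · exact h a ha b hb hab

/-- The common neighbours of a clique form a link. -/
theorem face (h : Fam A F) {m : ℕ} {U G : Finset V} (hU : F m U) (hG : G ⊆ U) (hc : Cq A G) :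
    G.card ≤ m ∧ F (m - G.card) (cn A U G) := by
  classical
  induction G using Finset.induction_on with
  | empty =>
    rw [cn_empty]
    exact ⟨Nat.zero_le _, hU⟩
  | insert x G hx ih =>
    obtain ⟨h1, h2⟩ := ih ((Finset.subset_insert _ _).trans hG) (hc.mono (Finset.subset_insert _ _))
    have hxG : x ∈ cn A U G := by
      rw [mem_cn]
      refine ⟨hG (Finset.mem_insert_self _ _), fun g hg => ?_⟩
      refine hc g (Finset.mem_insert_of_mem hg) x (Finset.mem_insert_self _ _) ?_
      rintro rfl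
      exact hx hg
    rw [Finset.card_insert_of_notMem hx, cn_insert]
    obtain ⟨j, hj⟩ : ∃ j, m - G.card = j := ⟨_, rfl⟩
    rw [hj] at h2
    rcases j with _ | j
    · rw [(h.zero _).mp h2] at hxG
      exact absurd hxG (Finset.notMem_empty _)
    · refine ⟨by omega, ?_⟩
      rw [show m - (G.card + 1) = j by omega]
      exact h.link j _ x h2 hxG

/-- A common neighbour of a clique is not adjacent to some other one. -/
theorem face_na (h : Fam A F) {m : ℕ} {U G : Finset V} (hU : F m U) (hG : G ⊆ U) (hc : Cq A G)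
    {v : V} (hv : v ∈ cn A U G) : ∃ w ∈ cn A U G, w ≠ v ∧ ¬ A v w := by
  obtain ⟨h1, h2⟩ := face h hU hG hc
  obtain ⟨j, hj⟩ : ∃ j, m - G.card = j := ⟨_, rfl⟩
  rw [hj] at h2
  rcases j with _ | j
  · rw [(h.zero _).mp h2] at hv
    exact absurd hv (Finset.notMem_empty _)
  · obtain ⟨w, hw⟩ := h.na_nonempty j _ v h2 hv
    rw [mem_na] at hw
    exact ⟨w, hw.1, hw.2.1, hw.2.2⟩

theorem face_conn (h : Fam A F) {m : ℕ} {U G : Finset V} (hU : F m U) (hG : G ⊆ U) (hc : Cq A G)
    {v : V} (hv : v ∈ cn A U G) : Cn A (na A (cn A U G) v) := by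
  obtain ⟨h1, h2⟩ := face h hU hG hc
  obtain ⟨j, hj⟩ : ∃ j, m - G.card = j := ⟨_, rfl⟩
  rw [hj] at h2
  rcases j with _ | j
  · rw [(h.zero _).mp h2] at hv
    exact absurd hv (Finset.notMem_empty _)
  · exact h.mconn j _ v h2 hv

end Pool.Agent.MP19e880.FV
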