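import Pool.Agent.Lib.MP_19e880_co_FV.Inh
import Pool.Agent.Lib.MP_19e880_co_FV.Base

/-!
A good edge in a member of the class.
-/

set_option autoImplicit false
set_option linter.unusedSectionVars false

namespace Pool.Agent.MP19e880.FV

open Pool.Agent.MP19e880.Low Pool.Agent.MP19e880.G2

variable {V : Type} [DecidableEq V] {A : V → V → Prop} {F : ℕ → Finset V → Prop}

private theorem good_exists_edge {C : Finset V} (hc : Cn A C) (h2 : 2 ≤ C.card) :
    ∃ a ∈ C, ∃ b ∈ C, A a b := by
  obtain ⟨c, hcC⟩ : C.Nonempty := Finset.card_pos.mp (by omega)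
  obtain ⟨a, ha, b, hb, _, hab⟩ := hc {c} (Finset.singleton_subset_iff.mpr hcC)
    (Finset.singleton_nonempty c) (by
      intro he
      rw [← he, Finset.card_singleton] at h2
      omega)
  rw [Finset.mem_singleton] at ha
  subst ha
  exact ⟨a, hcC, b, hb, hab⟩

theorem good_edge (h : Fam A F) : ∀ (n m : ℕ) (U C : Finset V), C.card = n → F m U →
    QQ A m U C → 2 ≤ C.card → ∃ a ∈ C, ∃ b ∈ C, A a b ∧
      ∀ u ∈ U, ∀ v ∈ U, u ≠ b → v ≠ a → A a u → A b v → A u v → A b u ∨ A a v := by
  classical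
  intro n
  induction n using Nat.strong_induction_on with
  | _ n ih =>
    intro m U C hn hU hq h2
    obtain ⟨a0, ha0, b0, hb0, hab0⟩ := good_exists_edge hq.tt.cn h2
    obtain ⟨m, rfl⟩ : ∃ m', m = m' + 2 := by
      rcases m with _ | _ | m
      · have := hq.tt.sub ha0
        rw [(h.zero U).mp hU] at this
        exact absurd this (Finset.notMem_empty _)
      · have h3 := h.link 0 U a0 hU (hq.tt.sub ha0)
        rw [h.zero] at h3
        have h4 : b0 ∈ nb A U a0 := mem_nb.mpr ⟨hq.tt.sub hb0, hab0⟩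
        rw [h3] at h4
        exact absurd h4 (Finset.notMem_empty _)
      · exact ⟨m, rfl⟩
    by_cases hs : ∃ s ∈ oN A U C, ∃ a ∈ C, ∃ b ∈ C, A a b ∧ ¬ A s a ∧ ¬ A s b
    · obtain ⟨s, hs, a, ha, b, hb, hab, hsa, hsb⟩ := hs
      obtain ⟨𝒞, h𝒞⟩ := exists_dec h.symm (C \ nb A C s)
      obtain ⟨𝒵, h𝒵⟩ := exists_dec h.symm (Loc.Xi A (na A U s \ C) (nb A C s))
      have ha' : a ∈ C \ nb A C s :=
        Finset.mem_sdiff.mpr ⟨ha, fun h' => hsa (mem_nb.mp h').2⟩
      have hb' : b ∈ C \ nb A C s :=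
        Finset.mem_sdiff.mpr ⟨hb, fun h' => hsb (mem_nb.mp h').2⟩
      obtain ⟨D, hD, haD⟩ := (h𝒞.mem a).mp ha'
      obtain ⟨D', hD', hbD'⟩ := (h𝒞.mem b).mp hb'
      have hDD : D = D' := by
        by_contra hne
        exact (h𝒞.sep D hD D' hD' hne a haD b hbD').2 hab
      subst hDD
      have ctx : Ctx A F m U C D s 𝒞 𝒵 := ⟨h, hU, hq, hs, h𝒞, h𝒵, hD⟩
      have hDs : D ⊆ C \ nb A C s := h𝒞.sub hD
      have hne : (nb A C s).Nonempty := by
        obtain ⟨x, hx, hxs⟩ := (mem_oN.mp hs).2.2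
        exact ⟨x, mem_nb.mpr ⟨hx, h.symm _ _ hxs⟩⟩
      have hss : C \ nb A C s ⊂ C := Finset.sdiff_ssubset (fun y hy => (mem_nb.mp hy).1) hne
      have hcard : D.card < n := by
        rw [← hn]
        exact lt_of_le_of_lt (Finset.card_le_card hDs) (Finset.card_lt_card hss)
      have hD2 : 2 ≤ D.card := by
        have h3 : ({a, b} : Finset V) ⊆ D := by
          intro z hz
          rw [Finset.mem_insert, Finset.mem_singleton] at hz
          rcases hz with rfl | rfl
          · exact haD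
          · exact hbD'
        have h4 := Finset.card_le_card h3
        rwa [Finset.card_pair (h.neAdj hab)] at h4
      obtain ⟨p, hp, q, hq', hpq, hall⟩ := ih D.card hcard (m + 2) U D rfl hU (inherit ctx) hD2
      exact ⟨p, hss.subset (hDs hp), q, hss.subset (hDs hq'), hpq, hall⟩
    · push Not at hs
      have hle := base h (m + 2) U C (far A U C) hU hq.tt (Finset.Subset.refl _) hq.out
        (fun s hs' a ha b hb hsa hsb hab => hsb (hs s hs' a ha b hb hab hsa))
      have hC : C = {a0, b0} := by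
        symm
        refine Finset.eq_of_subset_of_card_le ?_ ?_
        · intro z hz
          rw [Finset.mem_insert, Finset.mem_singleton] at hz
          rcases hz with rfl | rfl
          · exact ha0
          · exact hb0
        · rw [Finset.card_pair (h.neAdj hab0)]
          exact hle
      refine ⟨a0, ha0, b0, hb0, hab0, ?_⟩
      intro u hu v hv hub hva hau hbv huv
      have hu' : u ∈ oN A U C := by
        refine mem_oN.mpr ⟨hu, ?_, a0, ha0, hau⟩
        rw [hC, Finset.mem_insert, Finset.mem_singleton, not_or]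
        exact ⟨fun h' => h.irr a0 (by rw [h'] at hau; exact hau), hub⟩
      have hv' : v ∈ oN A U C := by
        refine mem_oN.mpr ⟨hv, ?_, b0, hb0, hbv⟩
        rw [hC, Finset.mem_insert, Finset.mem_singleton, not_or]
        exact ⟨hva, fun h' => h.irr b0 (by rw [h'] at hbv; exact hbv)⟩
      obtain ⟨c, hc, hcu, hcv⟩ := hq.pairs u hu' v hv' huv
      rw [hC, Finset.mem_insert, Finset.mem_singleton] at hc
      rcases hc with rfl | rfl
      · exact Or.inr hcv
      · exact Or.inl hcu

private theorem good_oN (h : Fam A F) (m : ℕ) (U : Finset V) (v : V) (hU : F (m + 2) U)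
    (hv : v ∈ U) : oN A U (na A U v) = nb A U v := by
  ext y
  rw [mem_oN, mem_nb, mem_na]
  constructor
  · rintro ⟨h1, h2, x, hx, hxy⟩
    refine ⟨h1, ?_⟩
    by_contra h3
    apply h2
    refine ⟨h1, ?_, h3⟩
    rintro rfl
    exact (mem_na.mp hx).2.2 (h.symm _ _ hxy)
  · rintro ⟨h1, h2⟩
    refine ⟨h1, fun h3 => h3.2.2 h2, ?_⟩
    obtain ⟨z, hz⟩ := h.na_nonempty m (nb A U y) v (h.link (m + 1) U y hU h1)
      (mem_nb.mpr ⟨hv, h.symm _ _ h2⟩)
    rw [mem_na, mem_nb] at hz
    exact ⟨z, mem_na.mpr ⟨hz.1.1, hz.2⟩, h.symm _ _ hz.1.2⟩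

/-- The non-neighbours of a vertex: the value of `H`. -/
theorem H_na (h : Fam A F) (m : ℕ) (U : Finset V) (x : V) (hU : F (m + 2) U) (hx : x ∈ U) :
    H A (m + 2) U (na A U x) = dg A U - dg A (nb A U x) - 4 * ((nb A U x).card : ℤ)
      - (4 * (m : ℤ) + 2) * ((na A U x).card : ℤ) := by
  classical
  have h1 := good_oN h m U x hU hx
  have h2 : ∀ z ∈ na A U x, nb A (U \ na A U x) z = nb A (nb A U x) z := by
    intro z hz
    ext y
    rw [mem_nb, mem_nb, Finset.mem_sdiff, mem_na, mem_nb]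
    constructor
    · rintro ⟨⟨h1, h2⟩, h3⟩
      refine ⟨⟨h1, ?_⟩, h3⟩
      by_contra h4
      apply h2
      refine ⟨h1, ?_, h4⟩
      rintro rfl
      exact (mem_na.mp hz).2.2 (h.symm _ _ h3)
    · rintro ⟨⟨h1, h2⟩, h3⟩
      exact ⟨⟨h1, fun h4 => h4.2.2 h2⟩, h3⟩
  have hUe : U = na A U x ∪ (nb A U x ∪ {x}) := by
    ext y
    rw [Finset.mem_union, Finset.mem_union, mem_nb, mem_na, Finset.mem_singleton]
    constructor
    · intro hy
      by_cases h3 : A x y
      · exact Or.inr (Or.inl ⟨hy, h3⟩)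
      · by_cases h4 : y = x
        · exact Or.inr (Or.inr h4)
        · exact Or.inl ⟨hy, h4, h3⟩
    · rintro (h | h | h)
      · exact h.1
      · exact h.1
      · rw [h]
        exact hx
  have d1 : Disjoint (na A U x) (nb A U x ∪ {x}) := by
    rw [Finset.disjoint_left]
    intro y hy hy2
    rw [Finset.mem_union, mem_nb, Finset.mem_singleton] at hy2
    rw [mem_na] at hy
    rcases hy2 with h | h
    · exact hy.2.2 h.2
    · exact hy.2.1 h
  have d2 : Disjoint (nb A U x) {x} := by
    rw [Finset.disjoint_singleton_right, mem_nb]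
    exact fun h' => h.irr x h'.2
  have h3 : ∀ z ∈ nb A U x, ((nb A U z).card : ℤ) =
      (nb A (na A U x) z).card + ((nb A (nb A U x) z).card + 1) := by
    intro z hz
    conv_lhs => rw [hUe]
    rw [Idn.nb_union A _ _ z d1, Idn.nb_union A _ _ z d2]
    have : nb A {x} z = {x} := by
      ext y
      rw [mem_nb, Finset.mem_singleton]
      constructor
      · exact fun h' => h'.1
      · rintro rfl
        exact ⟨rfl, h.symm _ _ (mem_nb.mp hz).2⟩
    rw [this]
    simp
  have h4 : (dg A U : ℤ) = ∑ z ∈ na A U x, ((nb A U z).card : ℤ) +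
      (∑ z ∈ nb A U x, ((nb A (na A U x) z).card : ℤ) + dg A (nb A U x) + (nb A U x).card) +
      (nb A U x).card := by
    unfold dg
    push_cast
    conv_lhs => rw [hUe]
    rw [Finset.sum_union d1, Finset.sum_union d2, Finset.sum_singleton, ← hUe,
      Finset.sum_congr rfl h3, Finset.sum_add_distrib, Finset.sum_add_distrib, Finset.sum_const]
    simp only [nsmul_eq_mul, mul_one]
    ring
  unfold H
  rw [h1, Finset.sum_congr rfl fun z hz => by rw [h2 z hz]]
  rw [h4, Idn.sum_nb_comm A h.symm (nb A U x) (na A U x), Finset.sum_add_distrib]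
  push_cast
  ring

private theorem good_far (h : Fam A F) (U : Finset V) (x : V) (hx : x ∈ U) :
    x ∈ far A U (na A U x) := by
  refine mem_far.mpr ⟨hx, fun h' => (mem_na.mp h').2.1 rfl, ?_⟩
  rintro ⟨z, hz, hzx⟩
  exact (mem_na.mp hz).2.2 (h.symm _ _ hzx)

/-- The non-neighbours of a full vertex are in the class. -/
theorem full_class (h : Fam A F) (m : ℕ) (U : Finset V) (x : V) (hU : F (m + 2) U) (hx : x ∈ U)
    (hf : Fam.g2 A (nb A U x) ((m + 1 : ℕ) : ℤ) = Fam.g2 A U ((m + 2 : ℕ) : ℤ)) :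
    QQ A (m + 2) U (na A U x) := by
  classical
  have hoN := good_oN h m U x hU hx
  refine ⟨⟨fun y hy => (mem_na.mp hy).1, h.na_nonempty (m + 1) U x hU hx,
    h.mconn (m + 1) U x hU hx, ⟨x, good_far h U x hx⟩, ?_⟩, ?_, ?_⟩
  · have h1 := H_na h m U x hU hx
    have h2 := h.card_eq U x hx
    have h3 : (U.card : ℤ) = (nb A U x).card + (na A U x).card + 1 := by exact_mod_cast h2
    rw [h1]
    unfold Fam.g2 at hf
    rw [h3] at hf
    push_cast at hf ⊢
    linarith
  · intro y hy z hz hyz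
    rw [hoN, mem_nb] at hy hz
    have hsub : ({y, z} : Finset V) ⊆ U := by
      intro w hw
      rw [Finset.mem_insert, Finset.mem_singleton] at hw
      rcases hw with rfl | rfl
      · exact hy.1
      · exact hz.1
    have hcq : Cq A {y, z} := by
      intro a ha b hb hab
      rw [Finset.mem_insert, Finset.mem_singleton] at ha hb
      rcases ha with rfl | rfl <;> rcases hb with rfl | rfl
      · exact absurd rfl hab
      · exact hyz
      · exact h.symm _ _ hyz
      · exact absurd rfl hab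
    have hxc : x ∈ cn A U {y, z} := by
      refine mem_cn.mpr ⟨hx, ?_⟩
      intro g hg
      rw [Finset.mem_insert, Finset.mem_singleton] at hg
      rcases hg with rfl | rfl
      · exact h.symm _ _ hy.2
      · exact h.symm _ _ hz.2
    obtain ⟨w, hw, hwx, hxw⟩ := face_na h hU hsub hcq hxc
    rw [mem_cn] at hw
    exact ⟨w, mem_na.mpr ⟨hw.1, hwx, hxw⟩, h.symm _ _ (hw.2 y (by simp)),
      h.symm _ _ (hw.2 z (by simp))⟩
  · intro G hG _ _
    refine ⟨x, mem_cn.mpr ⟨good_far h U x hx, fun g hg => ?_⟩⟩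
    have := hG hg
    rw [hoN, mem_nb] at this
    exact h.symm _ _ this.2

/-- A good edge outside the closed neighbourhood of a full vertex. -/
theorem full_edge (h : Fam A F) (m : ℕ) (U : Finset V) (x : V) (hU : F (m + 2) U) (hx : x ∈ U)
    (hf : Fam.g2 A (nb A U x) ((m + 1 : ℕ) : ℤ) = Fam.g2 A U ((m + 2 : ℕ) : ℤ))
    (h2 : 2 ≤ (na A U x).card) : ∃ a ∈ na A U x, ∃ b ∈ na A U x, A a b ∧
      ∀ u ∈ U, ∀ v ∈ U, u ≠ b → v ≠ a → A a u → A b v → A u v → A b u ∨ A a v :=
  good_edge h (na A U x).card (m + 2) U (na A U x) rfl hU (full_class h m U x hU hx hf) h2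

end Pool.Agent.MP19e880.FV
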