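import Pool.Agent.Lib.MP_19e880_co_FV.C6
import Pool.Agent.Lib.MP_19e880_co_FV.C6b
import Pool.Agent.Lib.MP_19e880_co_FV.C3o

/-!
The class is inherited by components.
-/

set_option autoImplicit false
set_option linter.unusedSectionVars false

namespace Pool.Agent.MP19e880.FV

open Pool.Agent.MP19e880.Low Pool.Agent.MP19e880.G2

variable {V : Type} [DecidableEq V] {A : V → V → Prop} {F : ℕ → Finset V → Prop}

variable {m : ℕ} {U C D : Finset V} {r : V} {𝒞 𝒵 : Finset (Finset V)}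

/-- An interior vertex adjacent to `D`: the neighbours of `D` adjacent to it are adjacent to `r`. -/
private theorem inh_r (c : Ctx A F m U C D r 𝒞 𝒵) {w : V} (hw : w ∈ nb A C r)
    (hwO : ∀ o ∈ na A U r \ C, ¬ A w o) (hwD : ad A D w) {y : V} (hy : y ∈ oN A U D)
    (hwy : A w y) : A r y := by
  have hy' := mem_oN.mp hy
  rcases c1 c hw hwO hwD hy'.1 hwy with h | h | h
  · exact absurd h hy'.2.1
  · exfalso
    rw [h] at hy'
    exact (mem_far.mp c.r_far).2.2 hy'.2.2
  · exact h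

private theorem inh_P1 (c : Ctx A F m U C D r 𝒞 𝒵) {x : V} (hx : x ∈ nb A C r)
    (hxD : ad A D x) {y : V} (hy : y ∈ oN A U D) (hxy : A x y) : ∃ v ∈ D, A v x ∧ A v y := by
  by_cases hxO : ∃ o ∈ na A U r \ C, A x o
  · by_cases hI : ∃ I ∈ 𝒵, ad A I x ∧ ∃ w ∈ I, ad A D w
    · obtain ⟨I, hI, hIx, hID⟩ := hI
      exact c3_pairs c hx hxO hxD hI hIx hID hy hxy
    · refine c2_pairs c hx hxO hxD ?_ hy hxy
      intro I hI' hIx w hw hwD
      exact hI ⟨I, hI', hIx, w, hw, hwD⟩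
  · have hxO' : ∀ o ∈ na A U r \ C, ¬ A x o := fun o ho h => hxO ⟨o, ho, h⟩
    have hry := inh_r c hx hxO' hxD hy hxy
    have hx' := mem_nb.mp hx
    have hyU := (mem_oN.mp hy).1
    have hcl : Cq A {x, y} := by
      intro a ha b hb hab
      rw [Finset.mem_insert, Finset.mem_singleton] at ha hb
      rcases ha with rfl | rfl
      · rcases hb with rfl | rfl
        · exact absurd rfl hab
        · exact hxy
      · rcases hb with rfl | rfl
        · exact c.fam.symm _ _ hxy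
        · exact absurd rfl hab
    have hsub : ({x, y} : Finset V) ⊆ nb A U r := by
      intro a ha
      rw [Finset.mem_insert, Finset.mem_singleton] at ha
      rcases ha with rfl | rfl
      · exact mem_nb.mpr ⟨c.q.tt.sub hx'.1, hx'.2⟩
      · exact mem_nb.mpr ⟨hyU, hry⟩
    obtain ⟨v, hv⟩ := c1_face c hx hxO' hxD hsub hcl (Finset.mem_insert_self _ _)
    rw [mem_cn] at hv
    exact ⟨v, hv.1, c.fam.symm _ _ (hv.2 x (Finset.mem_insert_self _ _)),
      c.fam.symm _ _ (hv.2 y (Finset.mem_insert_of_mem (Finset.mem_singleton_self _)))⟩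

theorem inherit (c : Ctx A F m U C D r 𝒞 𝒵) : QQ A (m + 2) U D := by
  refine ⟨c.ttD, ?_, ?_⟩
  · intro y hy z hz hyz
    by_cases hyC : y ∈ C
    · exact inh_P1 c (c.oN_C hy hyC) (mem_oN.mp hy).2.2 hz hyz
    by_cases hzC : z ∈ C
    · obtain ⟨v, hv, h1, h2⟩ := inh_P1 c (c.oN_C hz hzC) (mem_oN.mp hz).2.2 hy
        (c.fam.symm _ _ hyz)
      exact ⟨v, hv, h2, h1⟩
    by_cases hzr : A r z
    · by_cases hyr : A r y
      · exact c6a c hy hz hyC hzC hyz hyr hzr
      · obtain ⟨v, hv, h1, h2⟩ := c6b c hz hy hzC hyC (c.fam.symm _ _ hyz) hyr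
        exact ⟨v, hv, h2, h1⟩
    · exact c6b c hy hz hyC hzC hyz hzr
  · intro G hG hc hv
    by_cases hex : ∃ x ∈ G, x ∈ C
    · obtain ⟨x, hxG, hxC⟩ := hex
      have hx := c.oN_C (hG hxG) hxC
      have hxD := (mem_oN.mp (hG hxG)).2.2
      by_cases hxO : ∃ o ∈ na A U r \ C, A x o
      · by_cases hI : ∃ I ∈ 𝒵, ad A I x ∧ ∃ w ∈ I, ad A D w
        · obtain ⟨I, hI, hIx, hID⟩ := hI
          exact c3_out c hx hxO hxD hI hIx hID hG hc hxG hv
        · refine c2_out c hx hxO hxD ?_ hG hc hxG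
          intro I hI' hIx w hw hwD
          exact hI ⟨I, hI', hIx, w, hw, hwD⟩
      · have hxO' : ∀ o ∈ na A U r \ C, ¬ A x o := fun o ho h => hxO ⟨o, ho, h⟩
        refine ⟨r, mem_cn.mpr ⟨c.r_far, fun g hg => ?_⟩⟩
        by_cases hgx : g = x
        · subst hgx
          exact c.fam.symm _ _ (mem_nb.mp hx).2
        · exact c.fam.symm _ _ (inh_r c hx hxO' hxD (hG hg) (hc x hxG g hg (Ne.symm hgx)))
    · have hG' : G ⊆ oN A U C := fun g hg => c.oN_out (hG hg) fun h => hex ⟨g, hg, h⟩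
      have hv' : (cn A C G).Nonempty := hv.mono (cn_mono fun y hy => (c.memD hy).2.1)
      exact (c.q.out G hG' hc hv').mono (cn_mono c.far_sub)

end Pool.Agent.MP19e880.FV
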