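import Pool.Agent.Lib.MP_19e880_co_FV.Face

/-!
The local structure at a neighbour of a connected set.
-/

set_option autoImplicit false
set_option linter.unusedSectionVars false

namespace Pool.Agent.MP19e880.FV

open Pool.Agent.MP19e880.Low Pool.Agent.MP19e880.G2

variable {V : Type} [DecidableEq V] {A : V → V → Prop} {F : ℕ → Finset V → Prop}

theorem loc_of (h : Fam A F) (m : ℕ) (U C : Finset V) (r a : V) (𝒞 𝒳 : Finset (Finset V))
    (hU : F (m + 2) U) (hC : C ⊆ U) (hCc : Cn A C) (hr : r ∈ U) (hrC : r ∉ C) (had : ad A C r)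
    (haU : a ∈ U) (haC : a ∉ C) (hna : ∀ x ∈ C, ¬ A x a) (hra : A r a)
    (hD𝒞 : Dec A (C \ nb A C r) 𝒞) (hD𝒳 : Dec A (nb A C r) 𝒳) :
    Loc A m (nb A U r) (na A U r \ C) (nb A C r) (C \ nb A C r) 𝒞 𝒳 := by
  classical
  have hna_eq : (C \ nb A C r) ∪ (na A U r \ C) = na A U r := by
    ext y
    rw [Finset.mem_union, Finset.mem_sdiff, Finset.mem_sdiff, mem_nb, mem_na]
    constructor
    · rintro (⟨h1, h2⟩ | h1)
      · refine ⟨hC h1, ?_, fun h' => h2 ⟨h1, h'⟩⟩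
        rintro rfl
        exact hrC h1
      · exact h1.1
    · intro h1
      by_cases hy : y ∈ C
      · exact Or.inl ⟨hy, fun h' => h1.2.2 h'.2⟩
      · exact Or.inr ⟨h1, hy⟩
  have hXX : ∀ x ∈ nb A C r, x ∈ C ∧ x ∈ U ∧ A r x ∧ A x r := by
    intro x hx
    rw [mem_nb] at hx
    exact ⟨hx.1, hC hx.1, hx.2, h.symm _ _ hx.2⟩
  refine ⟨h.symm, h.irr, ?_, ?_, ?_, ?_, hD𝒞, hD𝒳, ?_, ?_, ?_, ?_, ?_, ?_, ?_⟩
  · intro x hx
    rw [mem_nb] at hx ⊢
    exact ⟨hC hx.1, hx.2⟩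
  · intro y hy hy2
    rw [Finset.mem_sdiff, mem_na] at hy
    rw [mem_nb] at hy2
    exact hy.1.2.2 hy2.2
  · intro y hy hy2
    rw [Finset.mem_sdiff, mem_nb] at hy
    rw [mem_nb] at hy2
    exact hy.2 ⟨hy.1, hy2.2⟩
  · intro y hy hy2
    rw [Finset.mem_sdiff] at hy hy2
    exact hy2.2 hy.1
  · -- connectivity
    intro x hx
    obtain ⟨_, hxU, _, hxr⟩ := hXX x hx
    rw [hna_eq]
    have e : nb A (na A U r) x = na A (nb A U x) r := by
      ext y
      rw [mem_nb, mem_na, mem_na, mem_nb]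
      tauto
    rw [e]
    exact h.mconn m _ r (h.link (m + 1) U x hU hxU) (mem_nb.mpr ⟨hr, hxr⟩)
  · intro x hx
    obtain ⟨_, hxU, _, hxr⟩ := hXX x hx
    rw [hna_eq]
    obtain ⟨y, hy⟩ := h.na_nonempty m _ r (h.link (m + 1) U x hU hxU) (mem_nb.mpr ⟨hr, hxr⟩)
    rw [mem_na, mem_nb] at hy
    exact ⟨y, mem_na.mpr ⟨hy.1.1, hy.2⟩, hy.1.2⟩
  · intro x hx y hy hxy
    obtain ⟨_, hxU, _, hxr⟩ := hXX x hx
    rw [mem_nb] at hy
    rw [hna_eq]
    have h1 := h.link m _ y (h.link (m + 1) U x hU hxU) (mem_nb.mpr ⟨hy.1, hxy⟩)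
    have hrm : r ∈ nb A (nb A U x) y :=
      mem_nb.mpr ⟨mem_nb.mpr ⟨hr, hxr⟩, h.symm _ _ hy.2⟩
    rcases m with _ | m
    · rw [h.zero] at h1
      rw [h1] at hrm
      exact absurd hrm (Finset.notMem_empty _)
    · obtain ⟨w, hw⟩ := h.na_nonempty m _ r h1 hrm
      rw [mem_na, mem_nb, mem_nb] at hw
      exact ⟨w, mem_na.mpr ⟨hw.1.1.1, hw.2⟩, hw.1.1.2, hw.1.2⟩
  · -- separators in the link of `x`
    intro x hx D hD hDx
    obtain ⟨hxC, hxU, hrx, hxr⟩ := hXX x hx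
    have hDC : ∀ y ∈ D, y ∈ C ∧ ¬ A r y := by
      intro y hy
      have := (hD𝒞.mem y).mpr ⟨D, hD, hy⟩
      rw [Finset.mem_sdiff, mem_nb] at this
      exact ⟨this.1, fun h' => this.2 ⟨this.1, h'⟩⟩
    obtain ⟨d0, hd0, hd0x⟩ := hDx
    have hsep := h.sep (m + 1) (nb A U x) (nb A D x)
      ((nb A U x).filter (fun y => y ∉ D ∧ ¬ ad A D y)) (h.link (m + 1) U x hU hxU) (by
        intro y hy
        rw [mem_nb] at hy ⊢
        exact ⟨hC (hDC y hy.1).1, hy.2⟩) (Finset.filter_subset _ _)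
      ⟨d0, mem_nb.mpr ⟨hd0, h.symm _ _ hd0x⟩⟩
      ⟨r, by
        rw [Finset.mem_filter, mem_nb]
        refine ⟨⟨hr, hxr⟩, fun h' => hrC (hDC r h').1, ?_⟩
        rintro ⟨y, hy, hyr⟩
        exact (hDC y hy).2 (h.symm _ _ hyr)⟩ (by
        rw [Finset.disjoint_left]
        intro y hy hy2
        rw [mem_nb] at hy
        rw [Finset.mem_filter] at hy2
        exact hy2.2.1 hy.1) (by
        intro p hp q hq hpq
        rw [mem_nb] at hp
        rw [Finset.mem_filter] at hq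
        exact hq.2.2 ⟨p, hp.1, hpq⟩)
    have hsub : (nb A U x \ nb A D x) \ ((nb A U x).filter (fun y => y ∉ D ∧ ¬ ad A D y)) ⊆
        (nb A U r ∪ (na A U r \ C)).filter (fun y => A x y ∧ ad A D y) := by
      intro y hy
      rw [Finset.mem_sdiff, Finset.mem_sdiff, mem_nb, mem_nb, Finset.mem_filter, mem_nb] at hy
      obtain ⟨⟨⟨hyU, hxy⟩, hyD⟩, hyn⟩ := hy
      have hyD' : y ∉ D := fun h' => hyD ⟨h', hxy⟩
      have hDy : ad A D y := by
        by_contra h'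
        exact hyn ⟨⟨hyU, hxy⟩, hyD', h'⟩
      rw [Finset.mem_filter, Finset.mem_union, mem_nb, Finset.mem_sdiff, mem_na]
      refine ⟨?_, hxy, hDy⟩
      by_cases hry : A r y
      · exact Or.inl ⟨hyU, hry⟩
      · right
        obtain ⟨p, hp, hpy⟩ := hDy
        refine ⟨⟨hyU, ?_, hry⟩, ?_⟩
        · rintro rfl
          exact (hDC p hp).2 (h.symm _ _ hpy)
        · intro hyC
          obtain ⟨D', hD', hyD2⟩ := (hD𝒞.mem y).mp (by
            rw [Finset.mem_sdiff, mem_nb]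
            exact ⟨hyC, fun h' => hry h'.2⟩)
          have hne : D ≠ D' := by
            rintro rfl
            exact hyD' hyD2
          exact (hD𝒞.sep D hD D' hD' hne p hp y hyD2).2 hpy
    have := Finset.card_le_card hsub
    omega
  · -- separators in the link of `r`
    intro Y hY hYn
    have hsep := h.sep (m + 1) (nb A U r) Y
      ((nb A U r).filter (fun y => y ∉ Y ∧ ¬ ad A Y y)) (h.link (m + 1) U r hU hr) (by
        intro y hy
        obtain ⟨_, h2, h3, _⟩ := hXX y (hY hy)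
        exact mem_nb.mpr ⟨h2, h3⟩) (Finset.filter_subset _ _) hYn
      ⟨a, by
        rw [Finset.mem_filter, mem_nb]
        refine ⟨⟨haU, hra⟩, fun h' => haC (hXX a (hY h')).1, ?_⟩
        rintro ⟨y, hy, hya⟩
        exact hna y (hXX y (hY hy)).1 hya⟩ (by
        rw [Finset.disjoint_left]
        intro y hy hy2
        rw [Finset.mem_filter] at hy2
        exact hy2.2.1 hy) (by
        intro p hp q hq hpq
        rw [Finset.mem_filter] at hq
        exact hq.2.2 ⟨p, hp, hpq⟩)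
    have hsub : (nb A U r \ Y) \ ((nb A U r).filter (fun y => y ∉ Y ∧ ¬ ad A Y y)) ⊆
        oN A (nb A U r) Y := by
      intro y hy
      rw [Finset.mem_sdiff, Finset.mem_sdiff, Finset.mem_filter] at hy
      rw [mem_oN]
      refine ⟨hy.1.1, hy.1.2, ?_⟩
      by_contra h'
      exact hy.2 ⟨hy.1.1, hy.1.2, h'⟩
    have := Finset.card_le_card hsub
    omega
  · have e : nb A C r ∪ (C \ nb A C r) = C := by
      refine Finset.union_sdiff_of_subset ?_
      intro y hy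
      exact (mem_nb.mp hy).1
    rw [e]
    exact hCc
  · obtain ⟨x, hx, hxr⟩ := had
    exact ⟨x, mem_nb.mpr ⟨hx, h.symm _ _ hxr⟩⟩

end Pool.Agent.MP19e880.FV
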