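import Pool.Agent.Lib.MP_19e880_co_FV.Face

/-!
Sweeping: the value of a first block.
-/

set_option autoImplicit false
set_option linter.unusedSectionVars false

namespace Pool.Agent.MP19e880.FV

open Pool.Agent.MP19e880.Low Pool.Agent.MP19e880.G2

variable {V : Type} [DecidableEq V] {A : V → V → Prop} {F : ℕ → Finset V → Prop}

private theorem st_empty {m : ℕ} {S O X C : Finset V} {𝒞 𝒳 𝒵 : Finset (Finset V)}
    (h : Loc A m S O X C 𝒞 𝒳) : St A m S O X 𝒞 𝒳 𝒵 ∅ := by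
  refine ⟨Finset.empty_subset _, ?_, ?_⟩
  · intro I _ x hx
    exact absurd hx (Finset.notMem_empty _)
  · obtain ⟨e1, e2, e3⟩ := h.LL_empty
    rw [e1, e2, e3]
    push_cast
    have : (0 : ℤ) ≤ m := Int.natCast_nonneg m
    linarith

private theorem not_ad_empty (y : V) : ¬ ad A ∅ y := by
  rintro ⟨w, hw, _⟩
  exact absurd hw (Finset.notMem_empty _)

open Classical in
/-- The increment of the value from the empty state, with the sum of the sizes. -/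
private theorem block_sum {m : ℕ} {S O X C : Finset V} {𝒞 𝒳 : Finset (Finset V)}
    (h : Loc A m S O X C 𝒞 𝒳) {Y Y' : Finset V} (hY : Y ⊆ Y') (hY' : Y' ⊆ X) :
    ∑ D ∈ JJ A 𝒞 Y Y', (((S ∪ O).filter
      (fun y => y ∉ Y' ∧ ad A Y' y ∧ ad A D y)).card : ℤ) +
      ∑ y ∈ Y' \ Y, (vl A S 𝒞 𝒳 Y' y - vl A S 𝒞 𝒳 Y y) ≤
      LL A S O 𝒞 𝒳 Y' - LL A S O 𝒞 𝒳 Y := by
  have hYS : Y' ⊆ S ∪ O := hY'.trans (h.XS.trans Finset.subset_union_left)
  unfold LL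
  rw [← Finset.sum_sub_distrib, ← Finset.sum_sdiff hYS, ← Finset.sum_sdiff hY]
  have h1 : 0 ≤ ∑ y ∈ Y, (vl A S 𝒞 𝒳 Y' y - vl A S 𝒞 𝒳 Y y) := by
    refine Finset.sum_nonneg fun y hy => ?_
    unfold vl
    rw [if_pos (hY hy), if_pos hy]
    have := ic_mono (A := A) (𝒞 := 𝒞) hY y
    omega
  have h2 : ∀ y ∈ (S ∪ O) \ Y', (((if ad A Y' y then ((JJ A 𝒞 Y Y').filter
      (fun D => ad A D y)).card else 0 : ℕ) : ℤ) + ((0 : ℕ) : ℤ)) ≤
      vl A S 𝒞 𝒳 Y' y - vl A S 𝒞 𝒳 Y y := by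
    intro y hy
    rw [Finset.mem_sdiff] at hy
    unfold vl
    rw [if_neg hy.2, if_neg (fun h' => hy.2 (hY h')), ic_add hY]
    refine Loc.arith1 _ _ _ _ (av_mono hY y) _ (by omega) ?_ _ (by split_ifs <;> omega) ?_
    · intro he
      omega
    · intro he
      have hyE : ad A Y' y := by
        by_contra h'
        rw [if_neg h'] at he
        omega
      exact h.av_pos hY' hyE
  have h3 := Finset.sum_le_sum h2
  rw [Finset.sum_add_distrib] at h3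
  have h4 : ∑ y ∈ (S ∪ O) \ Y', ((0 : ℕ) : ℤ) = 0 := by
    simp
  have h5 : ∑ y ∈ (S ∪ O) \ Y', ((if ad A Y' y then ((JJ A 𝒞 Y Y').filter
      (fun D => ad A D y)).card else 0 : ℕ) : ℤ) = ∑ D ∈ JJ A 𝒞 Y Y', (((S ∪ O).filter
      (fun y => y ∉ Y' ∧ ad A Y' y ∧ ad A D y)).card : ℤ) := by
    rw [← Nat.cast_sum, ← Nat.cast_sum]
    congr 1
    have e1 : ∀ y ∈ (S ∪ O) \ Y', (if ad A Y' y then ((JJ A 𝒞 Y Y').filter
      (fun D => ad A D y)).card else 0 : ℕ) = ∑ D ∈ JJ A 𝒞 Y Y',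
        (if ad A Y' y ∧ ad A D y then 1 else 0) := by
      intro y _
      split_ifs with hy
      · rw [Finset.card_eq_sum_ones, Finset.sum_filter]
        refine Finset.sum_congr rfl fun D _ => ?_
        simp [hy]
      · symm
        refine Finset.sum_eq_zero fun D _ => ?_
        simp [hy]
    rw [Finset.sum_congr rfl e1, Finset.sum_comm]
    refine Finset.sum_congr rfl fun D _ => ?_
    rw [← Finset.sum_filter, ← Finset.card_eq_sum_ones]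
    congr 1
    ext y
    simp only [Finset.mem_filter, Finset.mem_sdiff]
    tauto
  rw [h4, h5] at h3
  linarith

/-- A block is connected. -/
private theorem blk_cn {S O X C : Finset V} {m : ℕ} {𝒞 𝒳 𝒵 : Finset (Finset V)}
    (h : Loc A m S O X C 𝒞 𝒳) (h𝒵 : Dec A (Loc.Xi A O X) 𝒵) (x : V) :
    Cn A (blk A 𝒵 x) := by
  have hsub : ∀ I ∈ 𝒵, ad A I x → ∀ w ∈ I, w ∈ blk A 𝒵 x := by
    intro I hI hIx w hw
    rw [Finset.mem_insert, mem_bI]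
    exact Or.inr ⟨I, hI, hIx, fun h' => absurd (h' hw) (Finset.notMem_empty _), hw⟩
  -- the main step: a component meeting `Z` and not contained in `Z`
  have key : ∀ Z : Finset V, ∀ I ∈ 𝒵, ad A I x → ∀ z ∈ I, z ∈ Z → ∀ w ∈ I, w ∉ Z →
      ∃ a ∈ Z, ∃ b ∈ blk A 𝒵 x, b ∉ Z ∧ A a b := by
    intro Z I hI hIx z hz hzZ w hw hwZ
    obtain ⟨a, ha, b, hb, hbn, hab⟩ := h𝒵.cn I hI (I ∩ Z) Finset.inter_subset_left
      ⟨z, Finset.mem_inter.mpr ⟨hz, hzZ⟩⟩ (by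
        intro he
        have h1 : w ∈ I ∩ Z := by
          rw [he]
          exact hw
        exact hwZ (Finset.mem_inter.mp h1).2)
    refine ⟨a, (Finset.mem_inter.mp ha).2, b, hsub I hI hIx b hb, ?_, hab⟩
    intro hbZ
    exact hbn (Finset.mem_inter.mpr ⟨hb, hbZ⟩)
  intro Z hZ hZn hZe
  by_cases hxZ : x ∈ Z
  · obtain ⟨b, hb, hbZ⟩ : ∃ b ∈ blk A 𝒵 x, b ∉ Z := by
      by_contra hcon
      push Not at hcon
      exact hZe (Finset.Subset.antisymm hZ hcon)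
    have hb' := hb
    rw [Finset.mem_insert, mem_bI] at hb'
    rcases hb' with rfl | ⟨I, hI, hIx, _, hbI⟩
    · exact absurd hxZ hbZ
    · obtain ⟨w, hw, hwx⟩ := hIx
      by_cases hwZ : w ∈ Z
      · exact key Z I hI ⟨w, hw, hwx⟩ w hw hwZ b hbI hbZ
      · exact ⟨x, hxZ, w, hsub I hI ⟨w, hw, hwx⟩ w hw, hwZ, h.symm _ _ hwx⟩
  · obtain ⟨z, hz⟩ := hZn
    have hz' := hZ hz
    rw [Finset.mem_insert, mem_bI] at hz'
    rcases hz' with rfl | ⟨I, hI, hIx, _, hzI⟩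
    · exact absurd hz hxZ
    · obtain ⟨w, hw, hwx⟩ := hIx
      by_cases hwZ : w ∈ Z
      · exact ⟨w, hwZ, x, Finset.mem_insert_self _ _, hxZ, hwx⟩
      · exact key Z I hI ⟨w, hw, hwx⟩ z hzI hz w hw hwZ

/-- The value of a block. -/
theorem start_block {m : ℕ} {S O X C : Finset V} {𝒞 𝒵 : Finset (Finset V)}
    (h : Loc A m S O X C 𝒞 {X}) (h𝒵 : Dec A (Loc.Xi A O X) 𝒵) {x : V} (hx : x ∈ X)
    (hxi : x ∉ Loc.Xi A O X) :
    blk A 𝒵 x ⊆ X ∧ (∀ I ∈ 𝒵, ∀ y ∈ blk A 𝒵 x, (y ∈ I ∨ ad A I y) → I ⊆ blk A 𝒵 x) ∧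
    Cn A (blk A 𝒵 x) ∧
    (∀ D ∈ 𝒞, (∃ y ∈ blk A 𝒵 x, ad A D y) → ad A D x) ∧
    (∀ D ∈ 𝒞, ad A D x → 2 * m ≤ (dset A S O 𝒵 x D).card) ∧
    ∑ D ∈ JJ A 𝒞 ∅ (blk A 𝒵 x), ((dset A S O 𝒵 x D).card : ℤ) +
      (JJ A 𝒞 ∅ (blk A 𝒵 x)).card - 1 ≤ LL A S O 𝒞 {X} (blk A 𝒵 x) := by
  classical
  have hSt : St A m S O X 𝒞 {X} 𝒵 ∅ := st_empty h
  have hu : (∅ : Finset V) ∪ insert x (bI A 𝒵 ∅ x) = blk A 𝒵 x := Finset.empty_union _
  have hbX : blk A 𝒵 x ⊆ X := by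
    rw [← hu]
    exact Loc.blk_X h𝒵 (Finset.empty_subset _) hx
  have hinv := h.inv_step h𝒵 hSt hxi
  rw [hu] at hinv
  have hadj : ∀ D ∈ 𝒞, (∃ y ∈ blk A 𝒵 x, ad A D y) → ad A D x := by
    intro D hD hDy
    refine h.JJ_adj h𝒵 hx (Y := ∅) ?_
    rw [hu, mem_JJ]
    refine ⟨hD, hDy, ?_⟩
    rintro ⟨w, hw, _⟩
    exact absurd hw (Finset.notMem_empty _)
  refine ⟨hbX, hinv, blk_cn h h𝒵 x, hadj, ?_, ?_⟩
  · intro D hD hDx
    refine (h.Q_size h𝒵 hSt hx hxi hD hDx (fun y hy => absurd hy (Finset.notMem_empty _))).trans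
      (Finset.card_le_card ?_)
    intro y hy
    rw [Finset.mem_filter, hu, Finset.mem_union] at hy
    rw [mem_dset]
    refine ⟨hy.1, hy.2.1, ?_, hy.2.2.2⟩
    rcases hy.2.2.1 with h' | h'
    · exact h'.2
    · exact ⟨x, Finset.mem_insert_self _ _, h'.2⟩
  · have hb := block_sum h (Finset.empty_subset (blk A 𝒵 x)) hbX
    have hs := h.sum_blk h𝒵 hSt (Finset.notMem_empty x) hxi
    rw [hu] at hs
    rw [hs, h.LL_empty.2.2] at hb
    have hic := h.ic_blk h𝒵 (Y := ∅) hx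
    rw [hu] at hic
    have hvl : ((JJ A 𝒞 ∅ (blk A 𝒵 x)).card : ℤ) - 1 ≤
        vl A S 𝒞 {X} (blk A 𝒵 x) x - vl A S 𝒞 {X} ∅ x := by
      have h0 : ic A 𝒞 ∅ x = 0 := by
        unfold ic
        rw [Finset.card_eq_zero, Finset.filter_eq_empty_iff]
        rintro D' _ ⟨⟨w, hw, _⟩, _⟩
        exact absurd hw (Finset.notMem_empty _)
      unfold vl
      rw [if_pos (Finset.mem_insert_self _ _), if_neg (Finset.notMem_empty _), hic, h0,
        h.av_zero (not_ad_empty x)]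
      omega
    have he : ∀ D : Finset V, dset A S O 𝒵 x D = (S ∪ O).filter
        (fun y => y ∉ blk A 𝒵 x ∧ ad A (blk A 𝒵 x) y ∧ ad A D y) := by
      intro D
      ext y
      rw [mem_dset, Finset.mem_filter, Finset.mem_union]
    simp only [he]
    linarith

/-- The value of an interior component. -/
theorem start_int {m : ℕ} {S O X C : Finset V} {𝒞 𝒵 : Finset (Finset V)}
    (h : Loc A m S O X C 𝒞 {X}) (h𝒵 : Dec A (Loc.Xi A O X) 𝒵) {I : Finset V} (hI : I ∈ 𝒵) :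
    nI A 𝒞 I = 1 ∧ 2 * (m : ℤ) ≤ LL A S O 𝒞 {X} I := by
  classical
  have hIs : I ⊆ Loc.Xi A O X := fun z hz => (h𝒵.mem z).mpr ⟨I, hI, hz⟩
  have hIX : I ⊆ X := fun z hz => (Loc.mem_Xi.mp (hIs hz)).1
  obtain ⟨b0, hb0⟩ := h𝒵.ne I hI
  obtain ⟨D, hD, hDb0⟩ := h.int_exists (hIs hb0)
  have hDall : ∀ y ∈ I, ad A D y := fun y hy => h.int_comp hIs (h𝒵.cn I hI) hb0 hy hD hDb0
  have hun : ∀ D' ∈ 𝒞, (∃ y ∈ I, ad A D' y) → D' = D := by
    rintro D' hD' ⟨y, hy, hD'y⟩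
    exact h.int_unique (hIs hy) hD' hD hD'y (hDall y hy)
  have hnI : nI A 𝒞 I = 1 := by
    unfold nI
    rw [Finset.card_eq_one]
    refine ⟨D, ?_⟩
    ext D'
    rw [Finset.mem_filter, Finset.mem_singleton]
    constructor
    · rintro ⟨hD', hD'y⟩
      exact hun D' hD' hD'y
    · rintro rfl
      exact ⟨hD, b0, hb0, hDb0⟩
  refine ⟨hnI, ?_⟩
  have hsize : 2 * m ≤ (oN A S I).card := h.Sp I hIX ⟨b0, hb0⟩
  have hJ : ∀ D' ∈ JJ A 𝒞 ∅ I, 2 * m ≤ ((S ∪ O).filter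
      (fun y => y ∉ I ∧ ad A I y ∧ ad A D' y)).card := by
    intro D' hD'
    rw [mem_JJ] at hD'
    have hDD : D' = D := hun D' hD'.1 hD'.2.1
    subst hDD
    refine hsize.trans (Finset.card_le_card ?_)
    intro w hw
    rw [mem_oNl] at hw
    obtain ⟨hwS, hwI, u, hu, huw⟩ := hw
    rw [Finset.mem_filter]
    exact ⟨Finset.mem_union_left _ hwS, hwI, ⟨u, hu, huw⟩,
      h.int_adj (hIs hu) hwS huw hD (hDall u hu)⟩
  have hblock := h.block (Finset.empty_subset I) hIX ∅ (by simp) (2 * m) hJ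
  have hsum : ∑ y ∈ I \ ∅, (vl A S 𝒞 {X} I y - vl A S 𝒞 {X} ∅ y) = 0 := by
    refine Finset.sum_eq_zero fun y hy => ?_
    rw [Finset.mem_sdiff] at hy
    exact h.vl_bI (hIs hy.1) hy.2 (not_ad_empty y) hy.1
  have hJc : (JJ A 𝒞 ∅ I).card = 1 := by
    have h1 := nI_add (A := A) (𝒞 := 𝒞) (Finset.empty_subset I)
    rw [hnI, h.LL_empty.1] at h1
    omega
  rw [hsum, Finset.card_empty, hJc, h.LL_empty.2.2] at hblock
  push_cast at hblock
  linarith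

end Pool.Agent.MP19e880.FV
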