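import Pool.Agent.Lib.MP_19e880_co_FV.SwA
import Pool.Agent.Lib.MP_19e880_co_FV.SwB

/-!
Sweeping: admissible sets, and the case of equality.
-/

set_option autoImplicit false
set_option linter.unusedSectionVars false

namespace Pool.Agent.MP19e880.FV

open Pool.Agent.MP19e880.Low Pool.Agent.MP19e880.G2

variable {V : Type} [DecidableEq V] {A : V → V → Prop} {F : ℕ → Finset V → Prop}

/-- The admissible sets. -/
structure Adm (A : V → V → Prop) (X : Finset V) (𝒵 : Finset (Finset V)) (Y : Finset V) : Prop where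
  sub : Y ⊆ X
  ne : Y.Nonempty
  cn : Cn A Y
  inv : ∀ I ∈ 𝒵, ∀ x ∈ Y, (x ∈ I ∨ ad A I x) → I ⊆ Y

theorem adm_X {m : ℕ} {S O X C : Finset V} {𝒞 𝒵 : Finset (Finset V)}
    (h : Loc A m S O X C 𝒞 {X}) (h𝒵 : Dec A (Loc.Xi A O X) 𝒵) : Adm A X 𝒵 X := by
  refine ⟨Finset.Subset.refl _, h.ne, h.dX.cn X (Finset.mem_singleton_self X), ?_⟩
  intro I hI _ _ _ z hz
  exact (Loc.mem_Xi.mp ((h𝒵.mem z).mpr ⟨I, hI, hz⟩)).1

/-- Growing from `Y` to `Z`. -/
theorem grow {m : ℕ} {S O X C : Finset V} {𝒞 𝒵 : Finset (Finset V)}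
    (h : Loc A m S O X C 𝒞 {X}) (h𝒵 : Dec A (Loc.Xi A O X) 𝒵) {Y Z : Finset V}
    (hZ : Adm A X 𝒵 Z) (hYZ : Y ⊆ Z) (hYn : Y.Nonempty)
    (hinv : ∀ I ∈ 𝒵, ∀ x ∈ Y, (x ∈ I ∨ ad A I x) → I ⊆ Y) :
    (2 * (m : ℤ) + 1) * ((nI A 𝒞 Z : ℤ) - nI A 𝒞 Y) ≤ LL A S O 𝒞 {X} Z - LL A S O 𝒞 {X} Y := by
  obtain ⟨n, hn⟩ : ∃ n, (Z \ Y).card = n := ⟨_, rfl⟩
  induction n using Nat.strong_induction_on generalizing Y with
  | _ n ih =>
    by_cases hne : Y = Z
    · rw [hne]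
      simp
    · obtain ⟨a, ha, x, hx, hxY, hax⟩ := hZ.cn Y hYZ hYn hne
      obtain ⟨h1, h2⟩ := incr h h𝒵 (hYZ.trans hZ.sub) hinv ha (hZ.sub hx) hxY hax
      have h3 := h2 ∅ (by simp)
      have hsub : Y ∪ insert x (bI A 𝒵 Y x) ⊆ Z := by
        intro y hy
        rw [Finset.mem_union, Finset.mem_insert, mem_bI] at hy
        rcases hy with hy | rfl | ⟨I, hI, hIx, _, hyI⟩
        · exact hYZ hy
        · exact hx
        · exact hZ.inv I hI x hx (Or.inr hIx) hyI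
      have h4 := ih _ (by
        rw [← hn]
        refine Finset.card_lt_card ?_
        rw [Finset.ssubset_iff_of_subset (Finset.sdiff_subset_sdiff (Finset.Subset.refl _)
          Finset.subset_union_left)]
        exact ⟨x, Finset.mem_sdiff.mpr ⟨hx, hxY⟩, fun h' =>
          (Finset.mem_sdiff.mp h').2 (Finset.mem_union_right _ (Finset.mem_insert_self _ _))⟩)
        hsub (hYn.mono Finset.subset_union_left) h1 rfl
      rw [Finset.card_empty] at h3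
      push_cast at h3
      linarith

private theorem SwC_blk_sub {X : Finset V} {𝒵 : Finset (Finset V)} {Z : Finset V}
    (hZ : Adm A X 𝒵 Z) {x : V} (hx : x ∈ Z) : blk A 𝒵 x ⊆ Z := by
  intro y hy
  rw [blk, Finset.mem_insert, mem_bI] at hy
  rcases hy with rfl | ⟨I, hI, hIx, _, hyI⟩
  · exact hx
  · exact hZ.inv I hI x hx (Or.inr hIx) hyI

private theorem SwC_nI {m : ℕ} {S O X C : Finset V} {𝒞 : Finset (Finset V)}
    (h : Loc A m S O X C 𝒞 {X}) (Y : Finset V) :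
    nI A 𝒞 Y = (JJ A 𝒞 ∅ Y).card := by
  rw [nI_add (Finset.empty_subset Y), h.LL_empty.1, zero_add]

/-- The lower bound for admissible sets. -/
theorem low {m : ℕ} {S O X C : Finset V} {𝒞 𝒵 : Finset (Finset V)}
    (h : Loc A m S O X C 𝒞 {X}) (h𝒵 : Dec A (Loc.Xi A O X) 𝒵) {Z : Finset V}
    (hZ : Adm A X 𝒵 Z) : (2 * (m : ℤ) + 1) * (nI A 𝒞 Z : ℤ) - 1 ≤ LL A S O 𝒞 {X} Z := by
  classical
  by_cases hsub : Z ⊆ Loc.Xi A O X
  · obtain ⟨z, hz⟩ := hZ.ne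
    obtain ⟨I, hI, hzI⟩ := (h𝒵.mem z).mp (hsub hz)
    have hIZ : I ⊆ Z := hZ.inv I hI z hz (Or.inl hzI)
    have hIe : I = Z := by
      by_contra hne
      obtain ⟨a, ha, b, hb, hbI, hab⟩ := hZ.cn I hIZ ⟨z, hzI⟩ hne
      obtain ⟨I', hI', hbI'⟩ := (h𝒵.mem b).mp (hsub hb)
      have hII : I ≠ I' := by
        rintro rfl
        exact hbI hbI'
      exact (h𝒵.sep I hI I' hI' hII a ha b hbI').2 hab
    subst hIe
    obtain ⟨h1, h2⟩ := start_int h h𝒵 hI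
    rw [h1]
    push_cast
    linarith
  · obtain ⟨x, hx, hxi⟩ := Finset.not_subset.mp hsub
    obtain ⟨h1, h2, h3, h4, h5, h6⟩ := start_block h h𝒵 (hZ.sub hx) hxi
    have h7 := grow h h𝒵 hZ (SwC_blk_sub hZ hx) ⟨x, Finset.mem_insert_self _ _⟩ h2
    have h8 := SwC_nI h (blk A 𝒵 x)
    have h9 : ∑ _D ∈ JJ A 𝒞 ∅ (blk A 𝒵 x), (2 * (m : ℤ)) ≤
        ∑ D ∈ JJ A 𝒞 ∅ (blk A 𝒵 x), ((dset A S O 𝒵 x D).card : ℤ) := by
      refine Finset.sum_le_sum fun D hD => ?_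
      rw [mem_JJ] at hD
      have := h5 D hD.1 (h4 D hD.1 hD.2.1)
      exact_mod_cast this
    rw [Finset.sum_const, nsmul_eq_mul] at h9
    rw [h8] at h7
    linarith

/-- Equality for `X` implies equality for all admissible sets. -/
theorem eq_adm {m : ℕ} {S O X C : Finset V} {𝒞 𝒵 : Finset (Finset V)}
    (h : Loc A m S O X C 𝒞 {X}) (h𝒵 : Dec A (Loc.Xi A O X) 𝒵) (hC : C.Nonempty)
    (heq : Lam A S O X 𝒞 {X} = (2 * (m : ℤ) + 1) * (𝒞.card : ℤ) - 1) {Z : Finset V}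
    (hZ : Adm A X 𝒵 Z) : LL A S O 𝒞 {X} Z = (2 * (m : ℤ) + 1) * (nI A 𝒞 Z : ℤ) - 1 := by
  classical
  have _ := hC
  have hall : ∀ D ∈ 𝒞, ∃ x ∈ X, ad A D x := by
    intro D hD
    have hDC : D ⊆ C := fun y hy => (h.dC.mem y).mpr ⟨D, hD, hy⟩
    obtain ⟨x0, hx0⟩ := h.ne
    obtain ⟨a, ha, b, hb, hbD, hab⟩ := h.conn D (hDC.trans Finset.subset_union_right)
      (h.dC.ne D hD) (by
        intro he
        have h1 : x0 ∈ D := by
          rw [he]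
          exact Finset.mem_union_left _ hx0
        exact h.dCS x0 (hDC h1) (h.XS hx0))
    rcases Finset.mem_union.mp hb with hbX | hbC
    · exact ⟨b, hbX, a, ha, hab⟩
    · exfalso
      obtain ⟨D', hD', hbD'⟩ := (h.dC.mem b).mp hbC
      have hne : D ≠ D' := by
        rintro rfl
        exact hbD hbD'
      exact (h.dC.sep D hD D' hD' hne a ha b hbD').2 hab
  obtain ⟨e1, _, e3⟩ := h.LL_X hall
  have h1 := low h h𝒵 hZ
  have h2 := grow h h𝒵 (adm_X h h𝒵) hZ.sub hZ.ne hZ.inv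
  rw [e1, e3, heq] at h2
  refine le_antisymm ?_ h1
  linarith

private theorem SwC_star (hs : ∀ x y, A x y → A y x) {T : Finset V} {x : V} (hx : x ∈ T)
    (hT : ∀ y ∈ T, y = x ∨ ∃ Q ⊆ T, Cn A Q ∧ y ∈ Q ∧ ∃ w ∈ Q, A x w) : Cn A T := by
  intro W hW hWn hWT
  by_contra hcon
  push Not at hcon
  have key : ∀ Q ⊆ T, Cn A Q → ∀ u ∈ Q, u ∈ W → Q ⊆ W := by
    intro Q hQ hcn u hu huW
    by_contra hno
    obtain ⟨a, ha, b, hb, hb2, hab⟩ := hcn (Q ∩ W) Finset.inter_subset_left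
      ⟨u, Finset.mem_inter.mpr ⟨hu, huW⟩⟩ (by
        intro he
        exact hno (he ▸ Finset.inter_subset_right))
    rw [Finset.mem_inter] at ha hb2
    exact hcon a ha.2 b (hQ hb) (fun h' => hb2 ⟨hb, h'⟩) hab
  by_cases hxW : x ∈ W
  · apply hWT
    refine Finset.Subset.antisymm hW fun y hy => ?_
    rcases hT y hy with rfl | ⟨Q, hQ, hcn, hyQ, w, hw, hxw⟩
    · exact hxW
    · have hwW : w ∈ W := by
        by_contra h'
        exact hcon x hxW w (hQ hw) h' hxw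
      exact key Q hQ hcn w hw hwW hyQ
  · obtain ⟨y, hy⟩ := hWn
    rcases hT y (hW hy) with rfl | ⟨Q, hQ, hcn, hyQ, w, hw, hxw⟩
    · exact hxW hy
    · have hwW : w ∈ W := key Q hQ hcn y hyQ hy hw
      exact hcon w hwW x hx hxW (hs _ _ hxw)

/-- No pinching. -/
theorem pinch_loc {m : ℕ} {S O X C : Finset V} {𝒞 𝒵 : Finset (Finset V)}
    (h : Loc A m S O X C 𝒞 {X}) (h𝒵 : Dec A (Loc.Xi A O X) 𝒵)
    (heq : Lam A S O X 𝒞 {X} = (2 * (m : ℤ) + 1) * (𝒞.card : ℤ) - 1) {Y : Finset V}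
    (hY : Adm A X 𝒵 Y) {y : V} (hyS : y ∈ S) (hyX : y ∉ X) (hya : ad A X y) {D : Finset V}
    (hD : D ∈ 𝒞) (hDY : ∃ x ∈ Y, ad A D x) (hDy : ad A D y) : ad A Y y := by
  classical
  obtain ⟨n, hn⟩ : ∃ n, (X \ Y).card = n := ⟨_, rfl⟩
  induction n using Nat.strong_induction_on generalizing Y with
  | _ n ih =>
    by_cases hne : Y = X
    · rw [hne]
      exact hya
    · obtain ⟨a, ha, x, hx, hxY, hax⟩ := (adm_X h h𝒵).cn Y hY.sub hY.ne hne
      obtain ⟨h1, h2⟩ := incr h h𝒵 hY.sub hY.inv ha hx hxY hax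
      have hsub : Y ∪ insert x (bI A 𝒵 Y x) ⊆ X := by
        intro z hz
        rw [Finset.mem_union, Finset.mem_insert, mem_bI] at hz
        rcases hz with hz | rfl | ⟨I, hI, hIx, _, hzI⟩
        · exact hY.sub hz
        · exact hx
        · exact (adm_X h h𝒵).inv I hI x hx (Or.inr hIx) hzI
      have hadm : Adm A X 𝒵 (Y ∪ insert x (bI A 𝒵 Y x)) := by
        refine ⟨hsub, hY.ne.mono Finset.subset_union_left, ?_, h1⟩
        refine SwC_star h.symm (x := x)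
          (Finset.mem_union_right _ (Finset.mem_insert_self _ _)) ?_
        intro z hz
        rw [Finset.mem_union, Finset.mem_insert, mem_bI] at hz
        rcases hz with hz | rfl | ⟨I, hI, hIx, hIY, hzI⟩
        · exact Or.inr ⟨Y, Finset.subset_union_left, hY.cn, hz, a, ha, h.symm _ _ hax⟩
        · exact Or.inl rfl
        · obtain ⟨w, hw, hwx⟩ := hIx
          refine Or.inr ⟨I, ?_, h𝒵.cn I hI, hzI, w, hw, h.symm _ _ hwx⟩
          intro u hu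
          rw [Finset.mem_union, Finset.mem_insert, mem_bI]
          exact Or.inr (Or.inr ⟨I, hI, ⟨w, hw, hwx⟩, hIY, hu⟩)
      obtain ⟨v, hv, hDv⟩ := hDY
      have h3 : ad A (Y ∪ insert x (bI A 𝒵 Y x)) y := ih _ (by
        rw [← hn]
        refine Finset.card_lt_card ?_
        rw [Finset.ssubset_iff_of_subset (Finset.sdiff_subset_sdiff (Finset.Subset.refl _)
          Finset.subset_union_left)]
        exact ⟨x, Finset.mem_sdiff.mpr ⟨hx, hxY⟩, fun h' =>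
          (Finset.mem_sdiff.mp h').2 (Finset.mem_union_right _ (Finset.mem_insert_self _ _))⟩)
        hadm ⟨v, Finset.mem_union_left _ hv, hDv⟩ rfl
      by_contra hcon
      have hC : C.Nonempty := by
        obtain ⟨d, hd⟩ := h.dC.ne D hD
        exact ⟨d, (h.dC.mem d).mpr ⟨D, hD, hd⟩⟩
      have h4 := h2 {y} (by
        intro z hz
        rw [Finset.mem_singleton] at hz
        subst hz
        refine ⟨hyS, fun h' => hyX (hsub h'), hcon, h3, ?_⟩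
        unfold ic
        exact Finset.card_pos.mpr ⟨D, Finset.mem_filter.mpr ⟨hD, ⟨v, hv, hDv⟩, hDy⟩⟩)
      rw [eq_adm h h𝒵 hC heq hY, eq_adm h h𝒵 hC heq hadm, Finset.card_singleton] at h4
      push_cast at h4
      linarith

/-- The sizes of the sets `dset`. -/
theorem size_loc {m : ℕ} {S O X C : Finset V} {𝒞 𝒵 : Finset (Finset V)}
    (h : Loc A m S O X C 𝒞 {X}) (h𝒵 : Dec A (Loc.Xi A O X) 𝒵)
    (heq : Lam A S O X 𝒞 {X} = (2 * (m : ℤ) + 1) * (𝒞.card : ℤ) - 1) {x : V} (hx : x ∈ X)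
    (hxi : x ∉ Loc.Xi A O X) {D : Finset V} (hD : D ∈ 𝒞) (hDx : ad A D x) :
    (dset A S O 𝒵 x D).card = 2 * m := by
  classical
  obtain ⟨h1, h2, h3, h4, h5, h6⟩ := start_block h h𝒵 hx hxi
  have hC : C.Nonempty := by
    obtain ⟨d, hd⟩ := h.dC.ne D hD
    exact ⟨d, (h.dC.mem d).mpr ⟨D, hD, hd⟩⟩
  have hxb : x ∈ blk A 𝒵 x := Finset.mem_insert_self _ _
  have hadm : Adm A X 𝒵 (blk A 𝒵 x) := ⟨h1, ⟨x, hxb⟩, h3, h2⟩
  have h7 := eq_adm h h𝒵 hC heq hadm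
  rw [SwC_nI h (blk A 𝒵 x)] at h7
  rw [h7] at h6
  have hDJ : D ∈ JJ A 𝒞 ∅ (blk A 𝒵 x) := by
    rw [mem_JJ]
    refine ⟨hD, ⟨x, hxb, hDx⟩, ?_⟩
    rintro ⟨y, hy, _⟩
    exact absurd hy (Finset.notMem_empty _)
  refine le_antisymm ?_ (h5 D hD hDx)
  by_contra hlt
  rw [not_le] at hlt
  have h8 : ∑ _D ∈ JJ A 𝒞 ∅ (blk A 𝒵 x), (2 * (m : ℤ)) <
      ∑ D ∈ JJ A 𝒞 ∅ (blk A 𝒵 x), ((dset A S O 𝒵 x D).card : ℤ) := by
    refine Finset.sum_lt_sum (fun D' hD' => ?_) ⟨D, hDJ, by exact_mod_cast hlt⟩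
    rw [mem_JJ] at hD'
    have := h5 D' hD'.1 (h4 D' hD'.1 hD'.2.1)
    exact_mod_cast this
  rw [Finset.sum_const, nsmul_eq_mul] at h8
  linarith

end Pool.Agent.MP19e880.FV
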