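import Pool.Agent.Lib.MP_19e880_co_FV.TStep
import Pool.Agent.Lib.MP_19e880_co_FV.SwC

/-!
No pinching, and the sizes of the sets dset, at a neighbour of a tight set.
-/

set_option autoImplicit false
set_option linter.unusedSectionVars false

namespace Pool.Agent.MP19e880.FV

open Pool.Agent.MP19e880.Low Pool.Agent.MP19e880.G2

variable {V : Type} [DecidableEq V] {A : V → V → Prop} {F : ℕ → Finset V → Prop}

/-- The local structure, with a single component of `X`. -/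
theorem loc_one (h : Fam A F) {m : ℕ} {U C : Finset V} {r : V} {𝒞 : Finset (Finset V)}
    (hU : F (m + 2) U) (hT : Tt A (m + 2) U C) (hr : r ∈ oN A U C) (hrf : ad A (far A U C) r)
    (h𝒞 : Dec A (C \ nb A C r) 𝒞) :
    Loc A m (nb A U r) (na A U r \ C) (nb A C r) (C \ nb A C r) 𝒞 {nb A C r} := by
  obtain ⟨hrU, hrC, had⟩ := mem_oN.mp hr
  obtain ⟨a, ha, har⟩ := hrf
  obtain ⟨haU, haC, hna⟩ := mem_far.mp ha
  have hcn : Cn A (nb A C r) := (tight_step h hU hT hr ⟨a, ha, har⟩ h𝒞).1.cn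
  have hne : (nb A C r).Nonempty := by
    obtain ⟨x, hx, hxr⟩ := had
    exact ⟨x, mem_nb.mpr ⟨hx, h.symm _ _ hxr⟩⟩
  refine loc_of h m U C r a 𝒞 {nb A C r} hU hT.sub hT.cn hrU hrC had haU haC
    (fun x hx hxa => hna ⟨x, hx, hxa⟩) (h.symm _ _ har) h𝒞 ⟨?_, ?_, ?_, ?_⟩
  · intro B hB
    rw [Finset.mem_singleton] at hB
    rw [hB]
    exact hne
  · intro B hB
    rw [Finset.mem_singleton] at hB
    rw [hB]
    exact hcn
  · intro x
    constructor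
    · intro hx
      exact ⟨_, Finset.mem_singleton_self _, hx⟩
    · rintro ⟨B, hB, hx⟩
      rw [Finset.mem_singleton] at hB
      rw [hB] at hx
      exact hx
  · intro B hB B' hB' hne'
    rw [Finset.mem_singleton] at hB hB'
    exact absurd (hB.trans hB'.symm) hne'

/-- A connected subset of `C` meeting or adjacent to a component is contained in it. -/
theorem comp_in {C D I : Finset V} {𝒞 : Finset (Finset V)} (hs : ∀ x y, A x y → A y x)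
    (h𝒞 : Dec A C 𝒞) (hD : D ∈ 𝒞) (hI : I ⊆ C) (hIc : Cn A I)
    (hm : ∃ x ∈ D, x ∈ I ∨ ad A I x) : I ⊆ D := by
  have hne : (I ∩ D).Nonempty := by
    obtain ⟨x, hx, hxI | ⟨i, hi, hix⟩⟩ := hm
    · exact ⟨x, Finset.mem_inter.mpr ⟨hxI, hx⟩⟩
    · obtain ⟨D', hD', hiD'⟩ := (h𝒞.mem i).mp (hI hi)
      by_cases hDD : D = D'
      · rw [← hDD] at hiD'
        exact ⟨i, Finset.mem_inter.mpr ⟨hi, hiD'⟩⟩
      · exact absurd (hs _ _ hix) (h𝒞.sep D hD D' hD' hDD x hx i hiD').2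
  by_contra hcon
  obtain ⟨a, ha, b, hb, hb2, hab⟩ := hIc (I ∩ D) Finset.inter_subset_left hne (by
    intro he
    apply hcon
    rw [← he]
    exact Finset.inter_subset_right)
  rw [Finset.mem_inter] at ha hb2
  obtain ⟨D', hD', hbD'⟩ := (h𝒞.mem b).mp (hI hb)
  have hDD : D ≠ D' := by
    rintro rfl
    exact hb2 ⟨hb, hbD'⟩
  exact (h𝒞.sep D hD D' hD' hDD a ha.2 b hbD').2 hab

/-- No pinching. -/
theorem pinch (h : Fam A F) {m : ℕ} {U C : Finset V} {r : V} (hU : F (m + 2) U)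
    (hT : Tt A (m + 2) U C) (hr : r ∈ oN A U C) (hrf : ad A (far A U C) r) {Y : Finset V}
    (hY : Y ⊆ nb A C r) (hYn : Y.Nonempty) (hYc : Cn A Y)
    (hinv : ∀ I : Finset V, I ⊆ nb A C r → (∀ w ∈ I, ∀ o ∈ na A U r \ C, ¬ A w o) → Cn A I →
      (∃ x ∈ Y, x ∈ I ∨ ad A I x) → I ⊆ Y)
    {D : Finset V} (hD : D ⊆ C \ nb A C r) (hDc : Cn A D) (hDY : ∃ x ∈ Y, ad A D x) {y : V}
    (hy : y ∈ nb A U r) (hyC : y ∉ C) (hyX : ad A (nb A C r) y) (hDy : ad A D y) : ad A Y y := by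
  obtain ⟨𝒞, h𝒞⟩ := exists_dec h.symm (C \ nb A C r)
  obtain ⟨𝒵, h𝒵⟩ := exists_dec h.symm (Loc.Xi A (na A U r \ C) (nb A C r))
  obtain ⟨x, hx, d, hd, hdx⟩ := hDY
  obtain ⟨D0, hD0, hdD0⟩ := (h𝒞.mem d).mp (hD hd)
  have hDD : D ⊆ D0 := comp_in h.symm h𝒞 hD0 hD hDc ⟨d, hdD0, Or.inl hd⟩
  have hadm : Adm A (nb A C r) 𝒵 Y := by
    refine ⟨hY, hYn, hYc, ?_⟩
    intro I hI x hx hxI
    refine hinv I ?_ ?_ (h𝒵.cn I hI) ⟨x, hx, hxI⟩
    · intro z hz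
      exact (Loc.mem_Xi.mp ((h𝒵.mem z).mpr ⟨I, hI, hz⟩)).1
    · intro z hz
      exact (Loc.mem_Xi.mp ((h𝒵.mem z).mpr ⟨I, hI, hz⟩)).2
  refine pinch_loc (loc_one h hU hT hr hrf h𝒞) h𝒵 (tight_step h hU hT hr hrf h𝒞).2.2 hadm hy
    (fun h' => hyC (mem_nb.mp h').1) hyX hD0 ⟨x, hx, d, hDD hd, hdx⟩ ?_
  obtain ⟨e, he, hey⟩ := hDy
  exact ⟨e, hDD he, hey⟩

/-- The sizes of the sets `dset`. -/
theorem dsize (h : Fam A F) {m : ℕ} {U C : Finset V} {r : V} {𝒞 𝒵 : Finset (Finset V)}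
    (hU : F (m + 2) U) (hT : Tt A (m + 2) U C) (hr : r ∈ oN A U C) (hrf : ad A (far A U C) r)
    (h𝒞 : Dec A (C \ nb A C r) 𝒞) (h𝒵 : Dec A (Loc.Xi A (na A U r \ C) (nb A C r)) 𝒵)
    {x : V} (hx : x ∈ nb A C r) (hxO : ∃ o ∈ na A U r \ C, A x o) {D : Finset V} (hD : D ∈ 𝒞)
    (hDx : ad A D x) : (dset A (nb A U r) (na A U r \ C) 𝒵 x D).card = 2 * m := by
  refine size_loc (loc_one h hU hT hr hrf h𝒞) h𝒵 (tight_step h hU hT hr hrf h𝒞).2.2 hx ?_ hD hDx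
  obtain ⟨o, ho, hxo⟩ := hxO
  intro h'
  exact (Loc.mem_Xi.mp h').2 o ho hxo

end Pool.Agent.MP19e880.FV
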