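import Pool.Agent.Lib.MP_19e880_co_FV.Face
import Pool.Agent.Lib.MP_19e880_co_G2.Inst

/-!
The strengthened local inequality.
-/

set_option autoImplicit false
set_option linter.unusedSectionVars false
set_option linter.unusedVariables false

namespace Pool.Agent.MP19e880.FV

open Pool.Agent.MP19e880.Low Pool.Agent.MP19e880.G2

variable {V : Type} [DecidableEq V] {A : V → V → Prop} {F : ℕ → Finset V → Prop}

section Aux

open Pool.Agent.MP19e880.G2.Loc

variable {m : ℕ} {S O X C : Finset V} {𝒞 𝒳 𝒵 : Finset (Finset V)}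

/-- Partial states with the stronger bound. -/
private structure St2 (A : V → V → Prop) (m : ℕ) (S O X : Finset V) (𝒞 𝒳 𝒵 : Finset (Finset V))
    (Y : Finset V) : Prop where
  st : St A m S O X 𝒞 𝒳 𝒵 Y
  bnd : Y.Nonempty → (2 * (m : ℤ) + 1) * nI A 𝒞 Y + 2 * (m : ℤ) * nP 𝒳 Y - (2 * (m : ℤ) + 1)
    ≤ LL A S O 𝒞 𝒳 Y

private theorem mk2 (h : Loc A m S O X C 𝒞 𝒳) {Y : Finset V} (hs : Y ⊆ X)
    (hi : ∀ I ∈ 𝒵, ∀ x ∈ Y, (x ∈ I ∨ ad A I x) → I ⊆ Y)
    (hb : Y.Nonempty → (2 * (m : ℤ) + 1) * nI A 𝒞 Y + 2 * (m : ℤ) * nP 𝒳 Y - (2 * (m : ℤ) + 1)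
      ≤ LL A S O 𝒞 𝒳 Y) : St2 A m S O X 𝒞 𝒳 𝒵 Y := by
  refine ⟨⟨hs, hi, ?_⟩, hb⟩
  rcases Finset.eq_empty_or_nonempty Y with hY | hY
  · subst hY
    obtain ⟨e1, e2, e3⟩ := h.LL_empty
    rw [e1, e2, e3]
    push_cast
    linarith
  · have h1 := hb hY
    obtain ⟨y, hy⟩ := hY
    have h2 : 1 ≤ nP 𝒳 Y := by
      obtain ⟨B, hB, hyB⟩ := (h.dX.mem y).mp (hs hy)
      unfold nP
      exact Finset.card_pos.mpr ⟨B, Finset.mem_filter.mpr
        ⟨hB, y, Finset.mem_inter.mpr ⟨hyB, hy⟩⟩⟩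
    have h3 : (1 : ℤ) ≤ (nP 𝒳 Y : ℤ) := by exact_mod_cast h2
    linarith

/-- Adding a vertex adjacent to the part of `Y` in its component. -/
private theorem fstep3 (h : Loc A m S O X C 𝒞 𝒳) (h𝒵 : Dec A (Xi A O X) 𝒵) {Y : Finset V}
    (hY2 : St2 A m S O X 𝒞 𝒳 𝒵 Y) {B : Finset V} (hB : B ∈ 𝒳) {a x : V} (ha : a ∈ B) (haY : a ∈ Y)
    (hxB : x ∈ B) (hxY : x ∉ Y) (hax : A a x) :
    ∃ Y', St2 A m S O X 𝒞 𝒳 𝒵 Y' ∧ Y ⊂ Y' := by
  classical
  have hY := hY2.st
  have hxX : x ∈ X := (h.dX.mem x).mpr ⟨B, hB, hxB⟩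
  have hx : x ∉ Xi A O X := by
    intro h'
    obtain ⟨I, hI, hxI⟩ := (h𝒵.mem x).mp h'
    exact hxY (hY.inv I hI a haY (Or.inr ⟨x, hxI, h.symm _ _ hax⟩) hxI)
  have hxO : ∃ w ∈ O, A x w := by
    by_contra hcon
    push Not at hcon
    exact hx (mem_Xi.mpr ⟨hxX, hcon⟩)
  have hYs : Y ⊆ Y ∪ insert x (bI A 𝒵 Y x) := Finset.subset_union_left
  have hY's : Y ∪ insert x (bI A 𝒵 Y x) ⊆ X := blk_X h𝒵 hY.sub hxX
  -- the extra vertex of `O`
  obtain ⟨z, hzO, hxz, hz1⟩ : ∃ z ∈ O, A x z ∧ 1 ≤ av A S 𝒳 Y z + ic A 𝒞 Y z := by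
    obtain ⟨w, hw, hxw, haw⟩ := h.w2 x hxX a (h.XS (hY.sub haY)) (h.symm _ _ hax)
    rcases Finset.mem_union.mp hw with hwC | hwO
    · obtain ⟨D, hD, hwD⟩ := (h.dC.mem w).mp hwC
      obtain ⟨o, hoO, hxo⟩ := hxO
      obtain ⟨z, hzO, hxz, hDz⟩ := h.exit hxX hD ⟨w, hwD, h.symm _ _ hxw⟩
        (Finset.mem_union_right _ hoO) hxo
        (fun h' => h.dCO o ((h.dC.mem o).mpr ⟨D, hD, h'⟩) hoO)
      refine ⟨z, hzO, hxz, ?_⟩
      have : 1 ≤ ic A 𝒞 Y z := by
        unfold ic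
        exact Finset.card_pos.mpr ⟨D, Finset.mem_filter.mpr
          ⟨hD, ⟨a, haY, w, hwD, h.symm _ _ haw⟩, hDz⟩⟩
      omega
    · refine ⟨w, hwO, hxw, ?_⟩
      have := h.av_pos hY.sub (⟨a, haY, haw⟩ : ad A Y w)
      omega
  have hzS : z ∉ S := h.dSO z hzO
  have hzY' : z ∉ Y ∪ insert x (bI A 𝒵 Y x) := fun h' => hzS (h.XS (hY's h'))
  have hblock := h.block hYs hY's {z} (by
    intro y hy
    rw [Finset.mem_singleton] at hy
    subst hy
    refine ⟨Finset.mem_union_right _ hzO, hzY', ?_, hz1⟩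
    unfold av
    rw [if_neg hzS, if_neg hzS]
    refine Finset.card_lt_card ?_
    rw [Finset.ssubset_iff_of_subset]
    · refine ⟨x, ?_, ?_⟩
      · rw [mem_nb, Finset.mem_union, Finset.mem_insert]
        exact ⟨Or.inr (Or.inl rfl), h.symm _ _ hxz⟩
      · rw [mem_nb]
        exact fun h' => hxY h'.1
    · intro y hy
      rw [mem_nb] at hy ⊢
      exact ⟨hYs hy.1, hy.2⟩) (2 * m) (by
    intro D hD
    have hDx := h.JJ_adj h𝒵 hxX hD
    have hD' := mem_JJ.mp hD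
    refine (h.Q_size h𝒵 hY hxX hx hD'.1 hDx (fun y hy _ hDy => hD'.2.2 ⟨y, hy, hDy⟩)).trans
      (Finset.card_le_card ?_)
    intro y hy
    rw [Finset.mem_filter] at hy ⊢
    refine ⟨hy.1, hy.2.1, ?_, hy.2.2.2⟩
    rcases hy.2.2.1 with h' | h'
    · exact ad_mono Finset.subset_union_right h'.2
    · exact ⟨x, Finset.mem_union_right _ (Finset.mem_insert_self _ _), h'.2⟩)
  rw [h.sum_blk h𝒵 hY hxY hx, Finset.card_singleton] at hblock
  have hvl : ((JJ A 𝒞 Y (Y ∪ insert x (bI A 𝒵 Y x))).card : ℤ) - 1 ≤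
      vl A S 𝒞 𝒳 (Y ∪ insert x (bI A 𝒵 Y x)) x - vl A S 𝒞 𝒳 Y x := by
    unfold vl
    rw [if_pos (Finset.mem_union_right _ (Finset.mem_insert_self _ _)), if_neg hxY,
      h.ic_blk h𝒵 hxX]
    have := h.av_le_one (Y := Y) hxX
    omega
  have hnP : nP 𝒳 (Y ∪ insert x (bI A 𝒵 Y x)) = nP 𝒳 Y := by
    unfold nP
    congr 1
    refine Finset.filter_congr fun B' hB' => ?_
    constructor
    · rintro ⟨y, hy⟩
      rw [Finset.mem_inter, Finset.mem_union] at hy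
      rcases hy.2 with h' | h'
      · exact ⟨y, Finset.mem_inter.mpr ⟨hy.1, h'⟩⟩
      · have hyB := h.blk_comp h𝒵 (Y := Y) hB hxB h'
        have hBB : B' = B := by
          by_contra hne
          exact (h.dX.sep B' hB' B hB hne y hy.1 y hyB).1 rfl
        subst hBB
        exact ⟨a, Finset.mem_inter.mpr ⟨ha, haY⟩⟩
    · rintro ⟨y, hy⟩
      rw [Finset.mem_inter] at hy
      exact ⟨y, Finset.mem_inter.mpr ⟨hy.1, hYs hy.2⟩⟩
  refine ⟨Y ∪ insert x (bI A 𝒵 Y x), mk2 h hY's (h.inv_step h𝒵 hY hx) ?_, ?_⟩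
  · intro _
    rw [nI_add hYs, hnP]
    have hb := hY2.bnd ⟨a, haY⟩
    push_cast
    push_cast at hblock
    linarith
  · rw [Finset.ssubset_iff_of_subset hYs]
    exact ⟨x, Finset.mem_union_right _ (Finset.mem_insert_self _ _), hxY⟩

/-- Starting a new component at a vertex outside `Xi`. -/
private theorem fstep2 (h : Loc A m S O X C 𝒞 𝒳) (h𝒵 : Dec A (Xi A O X) 𝒵) {Y : Finset V}
    (hY2 : St2 A m S O X 𝒞 𝒳 𝒵 Y) {B : Finset V} (hB : B ∈ 𝒳) (hdis : ∀ y ∈ B, y ∉ Y) {x : V}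
    (hxB : x ∈ B) (hx : x ∉ Xi A O X) {D : Finset V} (hD : D ∈ 𝒞) (hDx : ad A D x)
    (hDY : Y = ∅ ∨ ∃ y ∈ Y, ad A D y) :
    ∃ Y', St2 A m S O X 𝒞 𝒳 𝒵 Y' ∧ Y ⊂ Y' := by
  classical
  have hY := hY2.st
  have hxX : x ∈ X := (h.dX.mem x).mpr ⟨B, hB, hxB⟩
  have hxY : x ∉ Y := hdis x hxB
  have hYs : Y ⊆ Y ∪ insert x (bI A 𝒵 Y x) := Finset.subset_union_left
  have hY's : Y ∪ insert x (bI A 𝒵 Y x) ⊆ X := blk_X h𝒵 hY.sub hxX
  have hxnY : ¬ ad A Y x := h.not_ad hY.sub hB hdis hxB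
  have hav0 : av A S 𝒳 Y x = 0 := h.av_zero hxnY
  have hQ : ∀ D' ∈ 𝒞, ad A D' x → 2 * m ≤ ((S ∪ O).filter (fun y =>
      y ∉ Y ∪ insert x (bI A 𝒵 Y x) ∧
      ((y ∈ S ∧ ad A (insert x (bI A 𝒵 Y x)) y) ∨ (y ∈ O ∧ A x y)) ∧ ad A D' y)).card :=
    fun D' hD' hD'x => h.Q_size h𝒵 hY hxX hx hD' hD'x
      (fun y hy hxy _ => hxnY ⟨y, hy, h.symm _ _ hxy⟩)
  have hJ : ∀ D' ∈ JJ A 𝒞 Y (Y ∪ insert x (bI A 𝒵 Y x)), 2 * m ≤ ((S ∪ O).filter
      (fun y => y ∉ Y ∪ insert x (bI A 𝒵 Y x) ∧ ad A (Y ∪ insert x (bI A 𝒵 Y x)) y ∧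
        ad A D' y)).card := by
    intro D' hD'
    have hDx' := h.JJ_adj h𝒵 hxX hD'
    have hD'' := mem_JJ.mp hD'
    refine (hQ D' hD''.1 hDx').trans (Finset.card_le_card ?_)
    intro y hy
    rw [Finset.mem_filter] at hy ⊢
    refine ⟨hy.1, hy.2.1, ?_, hy.2.2.2⟩
    rcases hy.2.2.1 with h' | h'
    · exact ad_mono Finset.subset_union_right h'.2
    · exact ⟨x, Finset.mem_union_right _ (Finset.mem_insert_self _ _), h'.2⟩
  have hnP : nP 𝒳 (Y ∪ insert x (bI A 𝒵 Y x)) = nP 𝒳 Y + 1 := by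
    refine h.nP_incr hYs hB hdis ?_ ⟨x, Finset.mem_union_right _ (Finset.mem_insert_self _ _), hxY⟩
    intro y hy hyY
    rcases Finset.mem_union.mp hy with h' | h'
    · exact absurd h' hyY
    · exact h.blk_comp h𝒵 hB hxB h'
  refine ⟨Y ∪ insert x (bI A 𝒵 Y x), mk2 h hY's (h.inv_step h𝒵 hY hx) ?_, ?_⟩
  · intro _
    rw [nI_add hYs, hnP]
    rcases hDY with hDY | hDY
    · have hblock := h.block hYs hY's ∅ (by simp) (2 * m) hJ
      rw [h.sum_blk h𝒵 hY hxY hx, Finset.card_empty] at hblock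
      have hvl : ((JJ A 𝒞 Y (Y ∪ insert x (bI A 𝒵 Y x))).card : ℤ) - 1 ≤
          vl A S 𝒞 𝒳 (Y ∪ insert x (bI A 𝒵 Y x)) x - vl A S 𝒞 𝒳 Y x := by
        unfold vl
        rw [if_pos (Finset.mem_union_right _ (Finset.mem_insert_self _ _)), if_neg hxY,
          h.ic_blk h𝒵 hxX, hav0]
        omega
      have e1 : nI A 𝒞 Y = 0 := by
        unfold nI
        rw [Finset.card_eq_zero, Finset.filter_eq_empty_iff]
        rintro D' _ ⟨y, hy, _⟩
        rw [hDY] at hy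
        exact absurd hy (Finset.notMem_empty _)
      have e2 : nP 𝒳 Y = 0 := by
        unfold nP
        rw [Finset.card_eq_zero, Finset.filter_eq_empty_iff]
        rintro D' _ ⟨y, hy⟩
        rw [hDY, Finset.inter_empty] at hy
        exact absurd hy (Finset.notMem_empty _)
      have e3 : LL A S O 𝒞 𝒳 Y = 0 := by
        unfold LL
        refine Finset.sum_eq_zero fun y _ => ?_
        unfold vl
        rw [if_neg (by rw [hDY]; exact Finset.notMem_empty _)]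
        have h1 : av A S 𝒳 Y y = 0 := h.av_zero (by
          rintro ⟨w, hw, _⟩
          rw [hDY] at hw
          exact absurd hw (Finset.notMem_empty _))
        have h2 : ic A 𝒞 Y y = 0 := by
          unfold ic
          rw [Finset.card_eq_zero, Finset.filter_eq_empty_iff]
          rintro D' _ ⟨⟨w, hw, _⟩, _⟩
          rw [hDY] at hw
          exact absurd hw (Finset.notMem_empty _)
        rw [h1, h2]
        rfl
      rw [e3] at hblock
      rw [e1, e2]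
      push_cast
      push_cast at hblock
      linarith
    · obtain ⟨y1, hy1, hDy1⟩ := hDY
      have hb := hY2.bnd ⟨y1, hy1⟩
      have hicpos : ∀ y, ad A D y → 1 ≤ ic A 𝒞 Y y := by
        intro y hy
        unfold ic
        exact Finset.card_pos.mpr ⟨D, Finset.mem_filter.mpr ⟨hD, ⟨y1, hy1, hDy1⟩, hy⟩⟩
      have hblock := h.block hYs hY's ((S ∪ O).filter (fun y =>
        y ∉ Y ∪ insert x (bI A 𝒵 Y x) ∧
        ((y ∈ S ∧ ad A (insert x (bI A 𝒵 Y x)) y) ∨ (y ∈ O ∧ A x y)) ∧ ad A D y)) (by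
        intro y hy
        rw [Finset.mem_filter] at hy
        refine ⟨hy.1, hy.2.1, ?_, ?_⟩
        · rcases hy.2.2.1 with ⟨hyS, hya⟩ | ⟨hyO, hxy⟩
          · refine h.av_incr hYs hB hdis hyS ?_
            obtain ⟨w, hw, hwy⟩ := hya
            exact ⟨w, Finset.mem_inter.mpr ⟨h.blk_comp h𝒵 hB hxB hw,
              Finset.mem_union_right _ hw⟩, hwy⟩
          · have hyS := h.dSO y hyO
            unfold av
            rw [if_neg hyS, if_neg hyS]
            refine Finset.card_lt_card ?_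
            rw [Finset.ssubset_iff_of_subset]
            · refine ⟨x, ?_, ?_⟩
              · rw [mem_nb]
                exact ⟨Finset.mem_union_right _ (Finset.mem_insert_self _ _), h.symm _ _ hxy⟩
              · rw [mem_nb]
                exact fun h' => hxY h'.1
            · intro w hw
              rw [mem_nb] at hw ⊢
              exact ⟨hYs hw.1, hw.2⟩
        · have := hicpos y hy.2.2.2
          omega) (2 * m) hJ
      rw [h.sum_blk h𝒵 hY hxY hx] at hblock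
      have hvl : ((JJ A 𝒞 Y (Y ∪ insert x (bI A 𝒵 Y x))).card : ℤ) ≤
          vl A S 𝒞 𝒳 (Y ∪ insert x (bI A 𝒵 Y x)) x - vl A S 𝒞 𝒳 Y x := by
        unfold vl
        rw [if_pos (Finset.mem_union_right _ (Finset.mem_insert_self _ _)), if_neg hxY,
          h.ic_blk h𝒵 hxX, hav0]
        have := hicpos x hDx
        omega
      have hE := hQ D hD hDx
      push_cast
      push_cast at hblock
      have hE' : (2 * (m : ℤ)) ≤ (((S ∪ O).filter (fun y =>
        y ∉ Y ∪ insert x (bI A 𝒵 Y x) ∧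
        ((y ∈ S ∧ ad A (insert x (bI A 𝒵 Y x)) y) ∨ (y ∈ O ∧ A x y)) ∧ ad A D y)).card : ℤ) := by
        exact_mod_cast hE
      linarith
  · rw [Finset.ssubset_iff_of_subset hYs]
    exact ⟨x, Finset.mem_union_right _ (Finset.mem_insert_self _ _), hxY⟩

/-- Adding a component contained in `Xi`. -/
private theorem fstep1 (h : Loc A m S O X C 𝒞 𝒳) (h𝒵 : Dec A (Xi A O X) 𝒵) {Y : Finset V}
    (hY2 : St2 A m S O X 𝒞 𝒳 𝒵 Y) {B : Finset V} (hB : B ∈ 𝒳) (hdis : ∀ y ∈ B, y ∉ Y)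
    (hBX : B ⊆ Xi A O X) {D : Finset V} (hD : D ∈ 𝒞) (hDB : ∃ y ∈ B, ad A D y)
    (hDY : Y = ∅ ∨ ∃ y ∈ Y, ad A D y) :
    ∃ Y', St2 A m S O X 𝒞 𝒳 𝒵 Y' ∧ Y ⊂ Y' := by
  classical
  have hY := hY2.st
  have hBsub : B ⊆ X := fun y hy => (h.dX.mem y).mpr ⟨B, hB, hy⟩
  have hBne := h.dX.ne B hB
  have hYs : Y ⊆ Y ∪ B := Finset.subset_union_left
  have hY's : Y ∪ B ⊆ X := Finset.union_subset hY.sub hBsub
  obtain ⟨b0, hb0, hDb0⟩ := hDB
  have hDall : ∀ y ∈ B, ad A D y := fun y hy => h.int_comp hBX (h.dX.cn B hB) hb0 hy hD hDb0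
  have hun : ∀ D' ∈ 𝒞, (∃ y ∈ B, ad A D' y) → D' = D := by
    rintro D' hD' ⟨y, hy, hD'y⟩
    exact h.int_unique (hBX hy) hD' hD hD'y (hDall y hy)
  have hoN : ∀ y ∈ oN A S B, y ∈ S ∪ O ∧ y ∉ Y ∪ B ∧ ad A (B ∩ (Y ∪ B)) y ∧ ad A D y := by
    intro y hy
    rw [mem_oNl] at hy
    obtain ⟨hyS, hyB, w, hw, hwy⟩ := hy
    refine ⟨Finset.mem_union_left _ hyS, ?_, ⟨w, Finset.mem_inter.mpr ⟨hw,
      Finset.mem_union_right _ hw⟩, hwy⟩, h.int_adj (hBX hw) hyS hwy hD (hDall w hw)⟩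
    rw [Finset.mem_union]
    rintro (h' | h')
    · exact h.not_ad hY.sub hB hdis hw ⟨y, h', h.symm _ _ hwy⟩
    · exact hyB h'
  have hsize : 2 * m ≤ (oN A S B).card := h.Sp B hBsub hBne
  have hJ : ∀ D' ∈ JJ A 𝒞 Y (Y ∪ B), 2 * m ≤ ((S ∪ O).filter
      (fun y => y ∉ Y ∪ B ∧ ad A (Y ∪ B) y ∧ ad A D' y)).card := by
    intro D' hD'
    rw [mem_JJ] at hD'
    obtain ⟨hD'C, ⟨y, hy, hD'y⟩, hD'Y⟩ := hD'
    have hyB : y ∈ B := by
      rcases Finset.mem_union.mp hy with h' | h'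
      · exact absurd ⟨y, h', hD'y⟩ hD'Y
      · exact h'
    have hDD : D' = D := hun D' hD'C ⟨y, hyB, hD'y⟩
    subst hDD
    refine hsize.trans (Finset.card_le_card ?_)
    intro w hw
    obtain ⟨h1, h2, h3, h4⟩ := hoN w hw
    rw [Finset.mem_filter]
    exact ⟨h1, h2, ad_mono Finset.inter_subset_right h3, h4⟩
  have hsum : ∑ y ∈ (Y ∪ B) \ Y, (vl A S 𝒞 𝒳 (Y ∪ B) y - vl A S 𝒞 𝒳 Y y) = 0 := by
    refine Finset.sum_eq_zero fun y hy => ?_
    rw [Finset.mem_sdiff, Finset.mem_union] at hy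
    have hyB : y ∈ B := hy.1.resolve_left hy.2
    exact h.vl_bI (hBX hyB) hy.2 (h.not_ad hY.sub hB hdis hyB) (Finset.mem_union_right _ hyB)
  have hnP : nP 𝒳 (Y ∪ B) = nP 𝒳 Y + 1 := by
    obtain ⟨b, hb⟩ := hBne
    refine h.nP_incr hYs hB hdis ?_ ⟨b, Finset.mem_union_right _ hb, hdis b hb⟩
    intro y hy hyY
    exact (Finset.mem_union.mp hy).resolve_left hyY
  refine ⟨Y ∪ B, mk2 h hY's ?_ ?_, ?_⟩
  · intro I hI y hy hyI
    rw [Finset.mem_union] at hy
    rcases hy with hy | hy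
    · exact (hY.inv I hI y hy hyI).trans hYs
    · have hIX : I ⊆ X := fun z hz => (mem_Xi.mp ((h𝒵.mem z).mpr ⟨I, hI, hz⟩)).1
      rcases hyI with hyI | ⟨w, hw, hwy⟩
      · exact (h.comp_sub hIX (h𝒵.cn I hI) hB hyI hy).trans Finset.subset_union_right
      · obtain ⟨B', hB', hwB'⟩ := (h.dX.mem w).mp (hIX hw)
        have hBB : B' = B := by
          by_contra hne
          exact (h.dX.sep B' hB' B hB hne w hwB' y hy).2 hwy
        subst hBB
        exact (h.comp_sub hIX (h𝒵.cn I hI) hB hw hwB').trans Finset.subset_union_right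
  · intro _
    rw [nI_add hYs, hnP]
    rcases hDY with hDY | ⟨y1, hy1, hDy1⟩
    · have hblock := h.block hYs hY's ∅ (by simp) (2 * m) hJ
      rw [hsum, Finset.card_empty] at hblock
      have hJc : (JJ A 𝒞 Y (Y ∪ B)).card = 1 := by
        rw [Finset.card_eq_one]
        refine ⟨D, ?_⟩
        ext D'
        rw [mem_JJ, Finset.mem_singleton]
        constructor
        · rintro ⟨hD', ⟨y, hy, hD'y⟩, hD'Y⟩
          refine hun D' hD' ⟨y, ?_, hD'y⟩
          rcases Finset.mem_union.mp hy with h' | h'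
          · exact absurd ⟨y, h', hD'y⟩ hD'Y
          · exact h'
        · rintro rfl
          refine ⟨hD, ⟨b0, Finset.mem_union_right _ hb0, hDb0⟩, ?_⟩
          rintro ⟨y, hy, _⟩
          rw [hDY] at hy
          exact absurd hy (Finset.notMem_empty _)
      subst hDY
      obtain ⟨e1, e2, e3⟩ := h.LL_empty
      rw [e3, hJc] at hblock
      rw [e1, e2, hJc]
      push_cast
      push_cast at hblock
      linarith
    · have hb := hY2.bnd ⟨y1, hy1⟩
      have hJc : JJ A 𝒞 Y (Y ∪ B) = ∅ := by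
        rw [Finset.eq_empty_iff_forall_notMem]
        intro D' hD'
        rw [mem_JJ] at hD'
        obtain ⟨hD', ⟨y, hy, hD'y⟩, hD'Y⟩ := hD'
        have hyB : y ∈ B := by
          rcases Finset.mem_union.mp hy with h' | h'
          · exact absurd ⟨y, h', hD'y⟩ hD'Y
          · exact h'
        have := hun D' hD' ⟨y, hyB, hD'y⟩
        subst this
        exact hD'Y ⟨y1, hy1, hDy1⟩
      have hblock := h.block hYs hY's (oN A S B) (by
        intro y hy
        obtain ⟨h1, h2, h3, h4⟩ := hoN y hy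
        refine ⟨h1, h2, h.av_incr hYs hB hdis (mem_oNl.mp hy).1 h3, ?_⟩
        have : 1 ≤ ic A 𝒞 Y y := by
          unfold ic
          exact Finset.card_pos.mpr ⟨D, Finset.mem_filter.mpr ⟨hD, ⟨y1, hy1, hDy1⟩, h4⟩⟩
        omega) (2 * m) hJ
      rw [hsum] at hblock
      rw [hJc, Finset.card_empty] at hblock ⊢
      have hs : (2 * (m : ℤ)) ≤ ((oN A S B).card : ℤ) := by exact_mod_cast hsize
      push_cast
      push_cast at hblock
      linarith
  · rw [Finset.ssubset_iff_of_subset hYs]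
    exact ⟨b0, Finset.mem_union_right _ hb0, hdis b0 hb0⟩

/-- A state different from `X` can be enlarged. -/
private theorem fenlarge (h : Loc A m S O X C 𝒞 𝒳) (h𝒵 : Dec A (Xi A O X) 𝒵) (hC : C.Nonempty)
    {Y : Finset V} (hY2 : St2 A m S O X 𝒞 𝒳 𝒵 Y) (hYX : Y ≠ X) :
    ∃ Y', St2 A m S O X 𝒞 𝒳 𝒵 Y' ∧ Y ⊂ Y' := by
  classical
  have hY := hY2.st
  by_cases hc : ∃ B ∈ 𝒳, ∃ a ∈ B, a ∈ Y ∧ ∃ b ∈ B, b ∉ Y
  · obtain ⟨B, hB, a, ha, haY, b, hb, hbY⟩ := hc
    obtain ⟨a', ha', x, hx, hxn, hax⟩ := h.dX.cn B hB (B ∩ Y) Finset.inter_subset_left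
      ⟨a, Finset.mem_inter.mpr ⟨ha, haY⟩⟩ (by
        intro he
        exact hbY (Finset.mem_inter.mp (he.symm ▸ hb : b ∈ B ∩ Y)).2)
    rw [Finset.mem_inter] at ha' hxn
    exact fstep3 h h𝒵 hY2 hB ha'.1 ha'.2 hx (fun h' => hxn ⟨hx, h'⟩) hax
  · push Not at hc
    -- a component `B` disjoint from `Y` and a member `D` adjacent to it
    have hex : ∃ B ∈ 𝒳, (∀ y ∈ B, y ∉ Y) ∧ ∃ D ∈ 𝒞, (∃ y ∈ B, ad A D y) ∧
        (Y = ∅ ∨ ∃ y ∈ Y, ad A D y) := by
      rcases Finset.eq_empty_or_nonempty Y with hYe | hYn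
      · obtain ⟨x0, hx0⟩ := h.ne
        obtain ⟨B, hB, hx0B⟩ := (h.dX.mem x0).mp hx0
        obtain ⟨c0, hc0⟩ := hC
        have hBs : B ⊆ X := fun y hy => (h.dX.mem y).mpr ⟨B, hB, hy⟩
        obtain ⟨a, ha, b, hb, hbB, hab⟩ := h.conn B (hBs.trans Finset.subset_union_left)
          ⟨x0, hx0B⟩ (by
            intro he
            have h1 : c0 ∈ B := by
              rw [he]
              exact Finset.mem_union_right _ hc0
            exact h.dCS c0 hc0 (h.XS (hBs h1)))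
        rcases Finset.mem_union.mp hb with hbX | hbC
        · obtain ⟨B', hB', hbB'⟩ := (h.dX.mem b).mp hbX
          have hne : B ≠ B' := by
            rintro rfl
            exact hbB hbB'
          exact absurd hab (h.dX.sep B hB B' hB' hne a ha b hbB').2
        · obtain ⟨D, hD, hbD⟩ := (h.dC.mem b).mp hbC
          refine ⟨B, hB, ?_, D, hD, ⟨a, ha, b, hbD, h.symm _ _ hab⟩, Or.inl hYe⟩
          intro y _ hyY
          rw [hYe] at hyY
          exact absurd hyY (Finset.notMem_empty _)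
      · -- the union of `Y` and the members of `𝒞` adjacent to it
        set R : Finset V := (𝒞.filter (fun D => ∃ y ∈ Y, ad A D y)).biUnion id with hR
        have hmR : ∀ v, v ∈ R ↔ ∃ D ∈ 𝒞, (∃ y ∈ Y, ad A D y) ∧ v ∈ D := by
          intro v
          rw [hR]
          simp only [Finset.mem_biUnion, Finset.mem_filter, id]
          constructor
          · rintro ⟨D, ⟨h1, h2⟩, h3⟩
            exact ⟨D, h1, h2, h3⟩
          · rintro ⟨D, h1, h2, h3⟩
            exact ⟨D, ⟨h1, h2⟩, h3⟩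
        have hRC : R ⊆ C := by
          intro v hv
          obtain ⟨D, hD, _, hvD⟩ := (hmR v).mp hv
          exact (h.dC.mem v).mpr ⟨D, hD, hvD⟩
        obtain ⟨x1, hx1, hx1Y⟩ : ∃ x ∈ X, x ∉ Y := by
          by_contra hcon
          push Not at hcon
          exact hYX (Finset.Subset.antisymm hY.sub hcon)
        obtain ⟨a, ha, b, hb, hbn, hab⟩ := h.conn (Y ∪ R)
          (Finset.union_subset_union hY.sub hRC) (hYn.mono Finset.subset_union_left) (by
            intro he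
            have h1 : x1 ∈ Y ∪ R := by
              rw [he]
              exact Finset.mem_union_left _ hx1
            rcases Finset.mem_union.mp h1 with h1 | h1
            · exact hx1Y h1
            · exact h.dCS x1 (hRC h1) (h.XS hx1))
        rw [Finset.mem_union, not_or] at hbn
        rcases Finset.mem_union.mp ha with haY | haR
        · -- `a ∈ Y`: impossible
          exfalso
          obtain ⟨B, hB, haB⟩ := (h.dX.mem a).mp (hY.sub haY)
          rcases Finset.mem_union.mp hb with hbX | hbC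
          · obtain ⟨B', hB', hbB'⟩ := (h.dX.mem b).mp hbX
            by_cases hBB : B = B'
            · subst hBB
              exact hbn.1 (hc B hB a haB haY b hbB')
            · exact (h.dX.sep B hB B' hB' hBB a haB b hbB').2 hab
          · obtain ⟨D, hD, hbD⟩ := (h.dC.mem b).mp hbC
            exact hbn.2 ((hmR b).mpr ⟨D, hD, ⟨a, haY, b, hbD, h.symm _ _ hab⟩, hbD⟩)
        · obtain ⟨D, hD, hDY, haD⟩ := (hmR a).mp haR
          rcases Finset.mem_union.mp hb with hbX | hbC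
          · obtain ⟨B, hB, hbB⟩ := (h.dX.mem b).mp hbX
            refine ⟨B, hB, ?_, D, hD, ⟨b, hbB, a, haD, hab⟩, Or.inr hDY⟩
            intro y hy hyY
            exact hbn.1 (hc B hB y hy hyY b hbB)
          · exfalso
            obtain ⟨D', hD', hbD'⟩ := (h.dC.mem b).mp hbC
            by_cases hDD : D = D'
            · subst hDD
              exact hbn.2 ((hmR b).mpr ⟨D, hD, hDY, hbD'⟩)
            · exact (h.dC.sep D hD D' hD' hDD a haD b hbD').2 hab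
    obtain ⟨B, hB, hdis, D, hD, ⟨b, hb, hDb⟩, hDY⟩ := hex
    by_cases hBX : B ⊆ Xi A O X
    · exact fstep1 h h𝒵 hY2 hB hdis hBX hD ⟨b, hb, hDb⟩ hDY
    · have hex2 : ∃ x ∈ B, x ∉ Xi A O X ∧ ad A D x := by
        by_cases hbX : b ∈ Xi A O X
        · obtain ⟨I, hI, hbI⟩ := (h𝒵.mem b).mp hbX
          have hIs : I ⊆ Xi A O X := fun z hz => (h𝒵.mem z).mpr ⟨I, hI, hz⟩
          have hIX : I ⊆ X := fun z hz => (mem_Xi.mp (hIs hz)).1
          have hIB := h.comp_sub hIX (h𝒵.cn I hI) hB hbI hb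
          obtain ⟨a, ha, x, hx, hxI, hax⟩ := h.dX.cn B hB I hIB ⟨b, hbI⟩ (by
            rintro rfl
            exact hBX hIs)
          refine ⟨x, hx, ?_, ?_⟩
          · intro hxX
            obtain ⟨I', hI', hxI'⟩ := (h𝒵.mem x).mp hxX
            have hne : I ≠ I' := by
              rintro rfl
              exact hxI hxI'
            exact (h𝒵.sep I hI I' hI' hne a ha x hxI').2 hax
          · exact h.int_adj (hIs ha) (h.XS ((h.dX.mem x).mpr ⟨B, hB, hx⟩)) hax hD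
              (h.int_comp hIs (h𝒵.cn I hI) hbI ha hD hDb)
        · exact ⟨b, hb, hbX, hDb⟩
      obtain ⟨x, hx, hxX, hDx⟩ := hex2
      exact fstep2 h h𝒵 hY2 hB hdis hx hxX hD hDx hDY

private theorem fSt_X (h : Loc A m S O X C 𝒞 𝒳) (h𝒵 : Dec A (Xi A O X) 𝒵) (hC : C.Nonempty) :
    St2 A m S O X 𝒞 𝒳 𝒵 X := by
  have key : ∀ n : ℕ, ∀ Y : Finset V, St2 A m S O X 𝒞 𝒳 𝒵 Y → (X \ Y).card = n →
      St2 A m S O X 𝒞 𝒳 𝒵 X := by
    intro n
    induction n using Nat.strong_induction_on with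
    | _ n ih =>
      intro Y hY hn
      by_cases hYX : Y = X
      · rwa [hYX] at hY
      · obtain ⟨Y', hY', hss⟩ := fenlarge h h𝒵 hC hY hYX
        refine ih _ ?_ Y' hY' rfl
        rw [← hn]
        refine Finset.card_lt_card ?_
        obtain ⟨z, hz, hzY⟩ := (Finset.ssubset_iff_of_subset hss.1).mp hss
        rw [Finset.ssubset_iff_of_subset (Finset.sdiff_subset_sdiff (Finset.Subset.refl _) hss.1)]
        refine ⟨z, Finset.mem_sdiff.mpr ⟨hY'.st.sub hz, hzY⟩, ?_⟩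
        rw [Finset.mem_sdiff]
        exact fun h' => h'.2 hz
  refine key _ ∅ (mk2 h (Finset.empty_subset _) ?_ ?_) rfl
  · intro I _ x hx
    exact absurd hx (Finset.notMem_empty _)
  · intro h'
    exact absurd h' Finset.not_nonempty_empty

end Aux

/-- A lower bound for `Lam` with the coefficient `2 m` instead of `2 m - 1` at `𝒳.card`. -/
theorem bound_strong {m : ℕ} {S O X C : Finset V} {𝒞 𝒳 : Finset (Finset V)}
    (h : Loc A m S O X C 𝒞 𝒳) (hC : C.Nonempty) :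
    (2 * (m : ℤ) + 1) * ((𝒞.card : ℤ) - 1) + 2 * (m : ℤ) * (𝒳.card : ℤ) ≤ Lam A S O X 𝒞 𝒳 := by
  classical
  obtain ⟨𝒵, h𝒵⟩ := exists_dec h.symm (Loc.Xi A O X)
  have hst := (fSt_X h h𝒵 hC).bnd h.ne
  have hall : ∀ D ∈ 𝒞, ∃ x ∈ X, ad A D x := by
    intro D hD
    have hDC : D ⊆ C := fun y hy => (h.dC.mem y).mpr ⟨D, hD, hy⟩
    obtain ⟨x0, hx0⟩ := h.ne
    obtain ⟨a, ha, b, hb, hbD, hab⟩ := h.conn D (hDC.trans Finset.subset_union_right)
      (h.dC.ne D hD) (by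
        intro he
        have h1 : x0 ∈ D := by
          rw [he]
          exact Finset.mem_union_left _ hx0
        exact h.dCS x0 (hDC h1) (h.XS hx0))
    rcases Finset.mem_union.mp hb with hbX | hbC
    · exact ⟨b, hbX, a, ha, hab⟩
    · exfalso
      obtain ⟨D', hD', hbD'⟩ := (h.dC.mem b).mp hbC
      have hne : D ≠ D' := by
        rintro rfl
        exact hbD hbD'
      exact (h.dC.sep D hD D' hD' hne a ha b hbD').2 hab
  obtain ⟨e1, e2, e3⟩ := h.LL_X hall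
  rw [e1, e2, e3] at hst
  linarith

end Pool.Agent.MP19e880.FV
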