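import Pool.Agent.Lib.MP_19e880_co_FV.Good
import Pool.Agent.Lib.MP_19e880_co_G3.Small
import Pool.Agent.Lib.MP_19e880_co_TT.ConH

/-!
Suspensions, cross-polytopes.
-/

set_option autoImplicit false
set_option linter.unusedSectionVars false

namespace Pool.Agent.MP19e880.FV

open Pool.Agent.MP19e880 Pool.Agent.MP19e880.Low Pool.Agent.MP19e880.G2 Polynomial

variable {V : Type} [Fintype V] [LinearOrder V] {k : Type} [Field k]
  {S : Finset (Finset V)} {d : ℕ}

/-- A suspension. -/
theorem susp_H (h : HS k S d) {σ : Finset V} (hσ : σ ∈ S) {v : V} (hv : v ∈ lv S σ)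
    (h1 : (Low.na (Adj S) (lv S σ) v).card ≤ 1) :
    H S d σ = (1 + X) * H S d (insert v σ) := by
  have hE := TT.eul_of_hs h
  have hv' := (mem_lv σ v).mp hv
  have hcard : ∀ ρ ∈ Kf S σ v, ρ.card ≤ 1 := by
    intro ρ hρ
    refine (Finset.card_le_card ?_).trans h1
    intro y hy
    unfold Kf at hρ
    rw [Finset.mem_filter] at hρ
    have hyN : ({y, v} : Finset V) ∉ S := by
      intro hyS
      refine (Finset.disjoint_left.mp hρ.2.1 hy) ?_
      unfold Nb
      rw [Finset.mem_filter]
      exact ⟨Finset.mem_univ _, hyS⟩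
    have hyv : y ≠ v := by
      rintro rfl
      apply hyN
      rw [Finset.pair_eq_singleton]
      exact hE.down _ hv'.2 _ (Finset.singleton_subset_iff.mpr (Finset.mem_insert_self _ _))
    have hyσ : y ∉ σ := by
      intro hyσ
      apply hyN
      refine hE.down _ hv'.2 _ ?_
      intro z hz
      rw [Finset.mem_insert, Finset.mem_singleton] at hz
      rcases hz with rfl | rfl
      · exact Finset.mem_insert_of_mem hyσ
      · exact Finset.mem_insert_self _ _
    rw [Low.mem_na, mem_lv]
    refine ⟨⟨hyσ, hE.down _ hρ.2.2 _ ?_⟩, hyv, ?_⟩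
    · exact Finset.insert_subset (Finset.mem_union_left _ hy) Finset.subset_union_right
    · rintro ⟨_, h2⟩
      rw [Finset.pair_comm] at h2
      exact hyN h2
  have hf := hE.main_formula σ v hv'.1 hv'.2 (by
    intro ρ hρ
    have := hcard ρ hρ
    omega)
  have e2 : (Kf S σ v).filter (fun ρ => ρ.card = 2) = ∅ := by
    rw [Finset.filter_eq_empty_iff]
    intro ρ hρ
    have := hcard ρ hρ
    omega
  have e3 : (Kf S σ v).filter (fun ρ => ρ.card = 3) = ∅ := by
    rw [Finset.filter_eq_empty_iff]
    intro ρ hρ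
    have := hcard ρ hρ
    omega
  rw [e2, e3, Finset.sum_empty, mul_zero, mul_zero, add_zero, sub_zero] at hf
  exact hf

/-- A cross-polytope. -/
theorem oct_H (h : HS k S d) : ∀ (e : ℕ) (σ : Finset V), σ ∈ S → σ.card + e = d →
    (lv S σ).card ≤ 2 * e → H S d σ = (1 + X) ^ e := by
  have hE := TT.eul_of_hs h
  intro e
  induction e with
  | zero =>
    intro σ hσ hd _
    rw [pow_zero]
    exact H_facet hE σ hσ (by omega)
  | succ e ih =>
    intro σ hσ hd hle
    have h2 := lv_two_mul h (e + 1) σ hσ hd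
    obtain ⟨v, hv⟩ : (lv S σ).Nonempty := by
      rw [← Finset.card_pos]
      omega
    have hv' := (mem_lv σ v).mp hv
    have hc : (insert v σ).card + e = d := by
      rw [Finset.card_insert_of_notMem hv'.1]
      omega
    have h3 := lv_bound h σ hσ v hv'.1 hv'.2
    have h4 := (fam h hE).card_eq (lv S σ) v hv
    rw [nb_lv h hE σ v hv] at h4
    have h5 := lv_two_mul h e (insert v σ) hv'.2 hc
    rw [susp_H h hσ hv (by omega), ih (insert v σ) hv'.2 hc (by omega), pow_succ, mul_comm]

end Pool.Agent.MP19e880.FV
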