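import Pool.Agent.Lib.MP_19e880_co_FV.Face

/-!
Sweeping: the increment of the value along a block.
-/

set_option autoImplicit false
set_option linter.unusedSectionVars false

namespace Pool.Agent.MP19e880.FV

open Pool.Agent.MP19e880.Low Pool.Agent.MP19e880.G2

variable {V : Type} [DecidableEq V] {A : V → V → Prop} {F : ℕ → Finset V → Prop}

private theorem swa_bI_not {m : ℕ} {S O X C : Finset V} {𝒞 𝒳 𝒵 : Finset (Finset V)}
    (h : Loc A m S O X C 𝒞 𝒳) {Y : Finset V}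
    (hinv : ∀ I ∈ 𝒵, ∀ x ∈ Y, (x ∈ I ∨ ad A I x) → I ⊆ Y) {x y : V}
    (hy : y ∈ bI A 𝒵 Y x) : y ∉ Y ∧ ¬ ad A Y y := by
  obtain ⟨I, hI, _, hIY, hyI⟩ := mem_bI.mp hy
  constructor
  · intro hyY
    exact hIY (hinv I hI y hyY (Or.inl hyI))
  · rintro ⟨w, hw, hwy⟩
    exact hIY (hinv I hI w hw (Or.inr ⟨y, hyI, h.symm _ _ hwy⟩))

private theorem swa_inv_step {O X : Finset V} {𝒵 : Finset (Finset V)}
    (h𝒵 : Dec A (Loc.Xi A O X) 𝒵) {Y : Finset V}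
    (hinv : ∀ I ∈ 𝒵, ∀ x ∈ Y, (x ∈ I ∨ ad A I x) → I ⊆ Y) {x : V}
    (hx : x ∉ Loc.Xi A O X) :
    ∀ I ∈ 𝒵, ∀ y ∈ Y ∪ insert x (bI A 𝒵 Y x), (y ∈ I ∨ ad A I y) →
      I ⊆ Y ∪ insert x (bI A 𝒵 Y x) := by
  intro I hI y hy hyI
  rw [Finset.mem_union, Finset.mem_insert] at hy
  rcases hy with hy | rfl | hy
  · exact (hinv I hI y hy hyI).trans Finset.subset_union_left
  · rcases hyI with hyI | hyI
    · exact absurd ((h𝒵.mem y).mpr ⟨I, hI, hyI⟩) hx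
    · by_cases hIY : I ⊆ Y
      · exact hIY.trans Finset.subset_union_left
      · intro z hz
        rw [Finset.mem_union, Finset.mem_insert, mem_bI]
        exact Or.inr (Or.inr ⟨I, hI, hyI, hIY, hz⟩)
  · obtain ⟨I', hI', hI'x, hI'Y, hyI'⟩ := mem_bI.mp hy
    have hII : I = I' := by
      by_contra hne
      rcases hyI with hyI | ⟨w, hw, hwy⟩
      · exact (h𝒵.sep I hI I' hI' hne y hyI y hyI').1 rfl
      · exact (h𝒵.sep I hI I' hI' hne w hw y hyI').2 hwy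
    subst hII
    intro z hz
    rw [Finset.mem_union, Finset.mem_insert, mem_bI]
    exact Or.inr (Or.inr ⟨I, hI, hI'x, hI'Y, hz⟩)

open Classical in
private theorem swa_Q_size {m : ℕ} {S O X C : Finset V} {𝒞 𝒳 𝒵 : Finset (Finset V)}
    (h : Loc A m S O X C 𝒞 𝒳) (h𝒵 : Dec A (Loc.Xi A O X) 𝒵) {Y : Finset V} (hY : Y ⊆ X)
    (hinv : ∀ I ∈ 𝒵, ∀ x ∈ Y, (x ∈ I ∨ ad A I x) → I ⊆ Y) {x : V} (hxX : x ∈ X)
    (hx : x ∉ Loc.Xi A O X)
    {D : Finset V} (hD : D ∈ 𝒞) (hDx : ad A D x) (hYD : ∀ y ∈ Y, A x y → ¬ ad A D y) :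
    2 * m ≤ ((S ∪ O).filter (fun y => y ∉ Y ∪ insert x (bI A 𝒵 Y x) ∧
      ((y ∈ S ∧ ad A (insert x (bI A 𝒵 Y x)) y) ∨ (y ∈ O ∧ A x y)) ∧ ad A D y)).card := by
  by_cases hcase : ∃ y ∈ bI A 𝒵 Y x, ad A D y
  · obtain ⟨y0, hy0, hDy0⟩ := hcase
    obtain ⟨I, hI, hIx, hIY, hy0I⟩ := mem_bI.mp hy0
    have hIs : I ⊆ Loc.Xi A O X := fun z hz => (h𝒵.mem z).mpr ⟨I, hI, hz⟩
    have hIX : I ⊆ X := fun z hz => (Loc.mem_Xi.mp (hIs hz)).1
    have h1 := h.Sp I hIX ⟨y0, hy0I⟩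
    have hxO : ∃ w ∈ O, A x w := by
      by_contra hcon
      push Not at hcon
      exact hx (Loc.mem_Xi.mpr ⟨hxX, hcon⟩)
    obtain ⟨w, hwO, hxw⟩ := hxO
    obtain ⟨z, hzO, hxz, hDz⟩ := h.exit hxX hD hDx (Finset.mem_union_right _ hwO) hxw
      (fun h' => h.dCO w ((h.dC.mem w).mpr ⟨D, hD, h'⟩) hwO)
    have hzS := h.dSO z hzO
    have hsub : insert z ((oN A S I).erase x) ⊆ (S ∪ O).filter (fun y =>
        y ∉ Y ∪ insert x (bI A 𝒵 Y x) ∧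
        ((y ∈ S ∧ ad A (insert x (bI A 𝒵 Y x)) y) ∨ (y ∈ O ∧ A x y)) ∧ ad A D y) := by
      intro y hy
      rw [Finset.mem_insert, Finset.mem_erase, mem_oNl] at hy
      rw [Finset.mem_filter, Finset.mem_union, Finset.mem_union, Finset.mem_insert]
      rcases hy with rfl | ⟨hyx, hyS, hyI, hIy⟩
      · refine ⟨Or.inr hzO, ?_, Or.inr ⟨hzO, hxz⟩, hDz⟩
        rintro (h' | rfl | h')
        · exact hzS (h.XS (hY h'))
        · exact hzS (h.XS hxX)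
        · exact hzS (h.XS (Loc.mem_Xi.mp (Loc.bI_Xi h𝒵 h')).1)
      · obtain ⟨w', hw', hw'y⟩ := hIy
        refine ⟨Or.inl hyS, ?_, Or.inl ⟨hyS, w', ?_, hw'y⟩, ?_⟩
        · rintro (h' | rfl | h')
          · exact hIY (hinv I hI y h' (Or.inr ⟨w', hw', hw'y⟩))
          · exact hyx rfl
          · obtain ⟨I', hI', _, _, hyI'⟩ := mem_bI.mp h'
            have hne : I ≠ I' := by
              rintro rfl
              exact hyI hyI'
            exact (h𝒵.sep I hI I' hI' hne w' hw' y hyI').2 hw'y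
        · rw [Finset.mem_insert, mem_bI]
          exact Or.inr ⟨I, hI, hIx, hIY, hw'⟩
        · exact h.int_adj (hIs hw') hyS hw'y hD (h.int_comp hIs (h𝒵.cn I hI) hy0I hw' hD hDy0)
    have h2 := Finset.card_le_card hsub
    have h3 : x ∈ oN A S I := by
      rw [mem_oNl]
      exact ⟨h.XS hxX, fun h' => hx (hIs h'), hIx⟩
    rw [Finset.card_insert_of_notMem, Finset.card_erase_of_mem h3] at h2
    · have h4 := Finset.card_pos.mpr ⟨x, h3⟩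
      omega
    · intro h'
      rw [Finset.mem_erase, mem_oNl] at h'
      exact hzS h'.2.1
  · push Not at hcase
    refine (h.K x hxX D hD hDx).trans (Finset.card_le_card ?_)
    intro y hy
    rw [Finset.mem_filter] at hy
    rw [Finset.mem_filter]
    refine ⟨hy.1, ?_, ?_, hy.2.2⟩
    · rw [Finset.mem_union, Finset.mem_insert]
      rintro (h' | rfl | h')
      · exact hYD y h' hy.2.1 hy.2.2
      · exact h.irr _ hy.2.1
      · exact hcase y h' hy.2.2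
    · rcases Finset.mem_union.mp hy.1 with h' | h'
      · exact Or.inl ⟨h', x, Finset.mem_insert_self _ _, hy.2.1⟩
      · exact Or.inr ⟨h', hy.2.1⟩

private theorem swa_sum_blk {m : ℕ} {S O X C : Finset V} {𝒞 𝒳 𝒵 : Finset (Finset V)}
    (h : Loc A m S O X C 𝒞 𝒳) (h𝒵 : Dec A (Loc.Xi A O X) 𝒵) {Y : Finset V}
    (hinv : ∀ I ∈ 𝒵, ∀ x ∈ Y, (x ∈ I ∨ ad A I x) → I ⊆ Y) {x : V} (hxY : x ∉ Y) :
    ∑ y ∈ (Y ∪ insert x (bI A 𝒵 Y x)) \ Y, (vl A S 𝒞 𝒳 (Y ∪ insert x (bI A 𝒵 Y x)) y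
      - vl A S 𝒞 𝒳 Y y) = vl A S 𝒞 𝒳 (Y ∪ insert x (bI A 𝒵 Y x)) x - vl A S 𝒞 𝒳 Y x := by
  refine Finset.sum_eq_single x ?_ ?_
  · intro y hy hyx
    rw [Finset.mem_sdiff, Finset.mem_union, Finset.mem_insert] at hy
    rcases hy.1 with h1 | h1 | h1
    · exact absurd h1 hy.2
    · exact absurd h1 hyx
    · have h2 := swa_bI_not h hinv h1
      exact h.vl_bI (Loc.bI_Xi h𝒵 h1) h2.1 h2.2 (by
        rw [Finset.mem_union, Finset.mem_insert]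
        exact Or.inr (Or.inr h1))
  · intro h'
    exfalso
    apply h'
    rw [Finset.mem_sdiff, Finset.mem_union, Finset.mem_insert]
    exact ⟨Or.inr (Or.inl rfl), hxY⟩

/-- Adding a block to a set `Y` closed under `𝒵`. -/
theorem incr {m : ℕ} {S O X C : Finset V} {𝒞 𝒵 : Finset (Finset V)}
    (h : Loc A m S O X C 𝒞 {X}) (h𝒵 : Dec A (Loc.Xi A O X) 𝒵) {Y : Finset V} (hY : Y ⊆ X)
    (hinv : ∀ I ∈ 𝒵, ∀ x ∈ Y, (x ∈ I ∨ ad A I x) → I ⊆ Y) {a x : V} (ha : a ∈ Y) (hx : x ∈ X)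
    (hxY : x ∉ Y) (hax : A a x) :
    (∀ I ∈ 𝒵, ∀ y ∈ Y ∪ insert x (bI A 𝒵 Y x), (y ∈ I ∨ ad A I y) →
      I ⊆ Y ∪ insert x (bI A 𝒵 Y x)) ∧
    ∀ E : Finset V, (∀ y ∈ E, y ∈ S ∧ y ∉ Y ∪ insert x (bI A 𝒵 Y x) ∧ ¬ ad A Y y ∧
        ad A (Y ∪ insert x (bI A 𝒵 Y x)) y ∧ 1 ≤ ic A 𝒞 Y y) →
      (2 * (m : ℤ) + 1) * ((nI A 𝒞 (Y ∪ insert x (bI A 𝒵 Y x)) : ℤ) - nI A 𝒞 Y) + E.card ≤
        LL A S O 𝒞 {X} (Y ∪ insert x (bI A 𝒵 Y x)) - LL A S O 𝒞 {X} Y := by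
  classical
  have hxi : x ∉ Loc.Xi A O X := by
    intro h'
    obtain ⟨I, hI, hxI⟩ := (h𝒵.mem x).mp h'
    exact hxY (hinv I hI a ha (Or.inr ⟨x, hxI, h.symm _ _ hax⟩) hxI)
  refine ⟨swa_inv_step h𝒵 hinv hxi, fun E hE => ?_⟩
  have hxO : ∃ w ∈ O, A x w := by
    by_contra hcon
    push Not at hcon
    exact hxi (Loc.mem_Xi.mpr ⟨hx, hcon⟩)
  have hYs : Y ⊆ Y ∪ insert x (bI A 𝒵 Y x) := Finset.subset_union_left
  have hY's : Y ∪ insert x (bI A 𝒵 Y x) ⊆ X := Loc.blk_X h𝒵 hY hx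
  -- the extra vertex of `O`
  obtain ⟨z, hzO, hxz, hz1⟩ : ∃ z ∈ O, A x z ∧ 1 ≤ av A S {X} Y z + ic A 𝒞 Y z := by
    obtain ⟨w, hw, hxw, haw⟩ := h.w2 x hx a (h.XS (hY ha)) (h.symm _ _ hax)
    rcases Finset.mem_union.mp hw with hwC | hwO
    · obtain ⟨D, hD, hwD⟩ := (h.dC.mem w).mp hwC
      obtain ⟨o, hoO, hxo⟩ := hxO
      obtain ⟨z, hzO, hxz, hDz⟩ := h.exit hx hD ⟨w, hwD, h.symm _ _ hxw⟩
        (Finset.mem_union_right _ hoO) hxo
        (fun h' => h.dCO o ((h.dC.mem o).mpr ⟨D, hD, h'⟩) hoO)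
      refine ⟨z, hzO, hxz, ?_⟩
      have : 1 ≤ ic A 𝒞 Y z := by
        unfold ic
        exact Finset.card_pos.mpr ⟨D, Finset.mem_filter.mpr
          ⟨hD, ⟨a, ha, w, hwD, h.symm _ _ haw⟩, hDz⟩⟩
      omega
    · refine ⟨w, hwO, hxw, ?_⟩
      have := h.av_pos hY (⟨a, ha, haw⟩ : ad A Y w)
      omega
  have hzS : z ∉ S := h.dSO z hzO
  have hzY' : z ∉ Y ∪ insert x (bI A 𝒵 Y x) := fun h' => hzS (h.XS (hY's h'))
  have hzE : z ∉ E := fun h' => hzS (hE z h').1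
  have hblock := h.block hYs hY's (insert z E) (by
    intro y hy
    rw [Finset.mem_insert] at hy
    rcases hy with rfl | hy
    · refine ⟨Finset.mem_union_right _ hzO, hzY', ?_, hz1⟩
      unfold av
      rw [if_neg hzS, if_neg hzS]
      refine Finset.card_lt_card ?_
      rw [Finset.ssubset_iff_of_subset]
      · refine ⟨x, ?_, ?_⟩
        · rw [mem_nb, Finset.mem_union, Finset.mem_insert]
          exact ⟨Or.inr (Or.inl rfl), h.symm _ _ hxz⟩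
        · rw [mem_nb]
          exact fun h' => hxY h'.1
      · intro y hy
        rw [mem_nb] at hy ⊢
        exact ⟨hYs hy.1, hy.2⟩
    · obtain ⟨h1, h2, h3, h4, h5⟩ := hE y hy
      refine ⟨Finset.mem_union_left _ h1, h2, ?_, ?_⟩
      · have := h.av_zero (𝒳 := {X}) h3
        have := h.av_pos hY's h4
        omega
      · omega) (2 * m) (by
    intro D hD
    have hDx := h.JJ_adj h𝒵 hx hD
    have hD' := mem_JJ.mp hD
    refine (swa_Q_size h h𝒵 hY hinv hx hxi hD'.1 hDx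
      (fun y hy _ hDy => hD'.2.2 ⟨y, hy, hDy⟩)).trans (Finset.card_le_card ?_)
    intro y hy
    rw [Finset.mem_filter] at hy ⊢
    refine ⟨hy.1, hy.2.1, ?_, hy.2.2.2⟩
    rcases hy.2.2.1 with h' | h'
    · exact ad_mono Finset.subset_union_right h'.2
    · exact ⟨x, Finset.mem_union_right _ (Finset.mem_insert_self _ _), h'.2⟩)
  rw [swa_sum_blk h h𝒵 hinv hxY, Finset.card_insert_of_notMem hzE] at hblock
  have hvl : ((JJ A 𝒞 Y (Y ∪ insert x (bI A 𝒵 Y x))).card : ℤ) - 1 ≤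
      vl A S 𝒞 {X} (Y ∪ insert x (bI A 𝒵 Y x)) x - vl A S 𝒞 {X} Y x := by
    unfold vl
    rw [if_pos (Finset.mem_union_right _ (Finset.mem_insert_self _ _)), if_neg hxY,
      h.ic_blk h𝒵 hx]
    have := h.av_le_one (Y := Y) hx
    omega
  rw [nI_add hYs]
  push_cast
  push_cast at hblock
  nlinarith

end Pool.Agent.MP19e880.FV
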