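import Pool.Agent.Lib.MP_19e880_co_FV.LocOf
import Pool.Agent.Lib.MP_19e880_co_FV.Str

/-!
The tight step.
-/

set_option autoImplicit false
set_option linter.unusedSectionVars false

namespace Pool.Agent.MP19e880.FV

open Pool.Agent.MP19e880.Low Pool.Agent.MP19e880.G2

variable {V : Type} [DecidableEq V] {A : V → V → Prop} {F : ℕ → Finset V → Prop}

theorem far_nb {U C : Finset V} {r a : V} (ha : a ∈ far A U C) (hra : A r a) :
    a ∈ far A (nb A U r) (nb A C r) := by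
  rw [mem_far] at ha ⊢
  refine ⟨mem_nb.mpr ⟨ha.1, hra⟩, fun h' => ha.2.1 (mem_nb.mp h').1, ?_⟩
  rintro ⟨x, hx, hxa⟩
  exact ha.2.2 ⟨x, (mem_nb.mp hx).1, hxa⟩

/-- The equality analysis, once the set of neighbours of `r` in `C` is known to be connected. -/
private theorem tight_aux (h : Fam A F) {m : ℕ} {U C : Finset V} {r a : V}
    {𝒞 : Finset (Finset V)} (hU : F (m + 2) U) (hT : Tt A (m + 2) U C) (hr : r ∈ oN A U C)
    (ha : a ∈ far A U C) (har : A a r) (h𝒞 : Dec A (C \ nb A C r) 𝒞)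
    (hX : Dec A (nb A C r) {nb A C r})
    (hlam : (2 * (m : ℤ) + 1) * (𝒞.card : ℤ) - 1 ≤
      Lam A (nb A U r) (na A U r \ C) (nb A C r) 𝒞 {nb A C r}) :
    Tt A (m + 1) (nb A U r) (nb A C r) ∧ (∀ B ∈ 𝒞, Tt A (m + 2) U B) ∧
      Lam A (nb A U r) (na A U r \ C) (nb A C r) 𝒞 {nb A C r} =
        (2 * (m : ℤ) + 1) * (𝒞.card : ℤ) - 1 := by
  classical
  have hr' := mem_oN.mp hr
  have ha' := mem_far.mp ha
  have hra : A r a := h.symm _ _ har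
  have hsubC : nb A C r ⊆ nb A U r := by
    intro y hy
    rw [mem_nb] at hy ⊢
    exact ⟨hT.sub hy.1, hy.2⟩
  have hB𝒞 : ∀ B ∈ 𝒞, B ⊆ C := fun B hB y hy =>
    (Finset.mem_sdiff.mp ((h𝒞.mem y).mpr ⟨B, hB, hy⟩)).1
  have hfarB : ∀ B ∈ 𝒞, a ∈ far A U B := by
    intro B hB
    rw [mem_far]
    refine ⟨ha'.1, fun h' => ha'.2.1 (hB𝒞 B hB h'), ?_⟩
    rintro ⟨x, hx, hxa⟩
    exact ha'.2.2 ⟨x, hB𝒞 B hB hx, hxa⟩
  have key := H_total h.symm h.irr (m + 1) hT.sub hr'.1 hr'.2.1 hr'.2.2 h𝒞 hX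
  have k1 : ∀ B ∈ 𝒞, -(4 * ((m + 1 + 1 : ℕ) : ℤ) - 6) ≤ H A (m + 1 + 1) U B := by
    intro B hB
    have hf := mem_far.mp (hfarB B hB)
    exact contraction h (lemmaL h) (m + 1) U B hU ((hB𝒞 B hB).trans hT.sub) (h𝒞.ne B hB)
      (h𝒞.cn B hB) ⟨a, hf.1, hf.2.1, fun x hx hxa => hf.2.2 ⟨x, hx, hxa⟩⟩
  have hXm := Finset.mem_singleton_self (nb A C r)
  have hfX := mem_far.mp (far_nb ha hra)
  have k2 : -(4 * ((m + 1 : ℕ) : ℤ) - 6) ≤ H A (m + 1) (nb A U r) (nb A C r) :=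
    contraction h (lemmaL h) m (nb A U r) (nb A C r) (h.link (m + 1) U r hU hr'.1) hsubC
      (hX.ne _ hXm) (hX.cn _ hXm) ⟨a, hfX.1, hfX.2.1, fun x hx hxa => hfX.2.2 ⟨x, hx, hxa⟩⟩
  have hTe := hT.eq
  rw [Finset.sum_singleton] at key
  have hsum : ∑ B ∈ 𝒞, (-(4 * ((m + 1 + 1 : ℕ) : ℤ) - 6)) ≤ ∑ B ∈ 𝒞, H A (m + 1 + 1) U B :=
    Finset.sum_le_sum k1
  have hcard : ∑ B ∈ 𝒞, (-(4 * ((m + 1 + 1 : ℕ) : ℤ) - 6)) =
      (𝒞.card : ℤ) * (-(4 * ((m + 1 + 1 : ℕ) : ℤ) - 6)) := by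
    rw [Finset.sum_const, nsmul_eq_mul]
  have e2 : H A (m + 1 + 1) U C = -(4 * ((m + 2 : ℕ) : ℤ) - 6) := hTe
  have e3 : ∑ B ∈ 𝒞, H A (m + 1 + 1) U B = ∑ B ∈ 𝒞, (-(4 * ((m + 1 + 1 : ℕ) : ℤ) - 6)) := by
    refine le_antisymm ?_ hsum
    rw [hcard]
    push_cast at e2 k2 key ⊢
    nlinarith [e2, k2, key, hlam]
  have e4 : ∀ B ∈ 𝒞, H A (m + 1 + 1) U B = -(4 * ((m + 1 + 1 : ℕ) : ℤ) - 6) := by
    intro B hB
    have := (Finset.sum_eq_sum_iff_of_le k1).mp e3.symm B hB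
    exact this.symm
  rw [e3, hcard] at key
  have e5 : H A (m + 1) (nb A U r) (nb A C r) = -(4 * ((m + 1 : ℕ) : ℤ) - 6) := by
    refine le_antisymm ?_ k2
    push_cast at e2 k2 key ⊢
    nlinarith [e2, k2, key, hlam]
  refine ⟨⟨hsubC, hX.ne _ hXm, hX.cn _ hXm, ⟨a, far_nb ha hra⟩, e5⟩, ?_, ?_⟩
  · intro B hB
    exact ⟨(hB𝒞 B hB).trans hT.sub, h𝒞.ne B hB, h𝒞.cn B hB, ⟨a, hfarB B hB⟩, e4 B hB⟩
  · refine le_antisymm ?_ hlam
    rw [e5] at key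
    push_cast at e2 key ⊢
    nlinarith [e2, key]

theorem tight_step (h : Fam A F) {m : ℕ} {U C : Finset V} {r : V} {𝒞 : Finset (Finset V)}
    (hU : F (m + 2) U) (hT : Tt A (m + 2) U C) (hr : r ∈ oN A U C) (hrf : ad A (far A U C) r)
    (h𝒞 : Dec A (C \ nb A C r) 𝒞) :
    Tt A (m + 1) (nb A U r) (nb A C r) ∧ (∀ B ∈ 𝒞, Tt A (m + 2) U B) ∧
      Lam A (nb A U r) (na A U r \ C) (nb A C r) 𝒞 {nb A C r} =
        (2 * (m : ℤ) + 1) * (𝒞.card : ℤ) - 1 := by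
  classical
  obtain ⟨a, ha, har⟩ := hrf
  have hr' := mem_oN.mp hr
  have ha' := mem_far.mp ha
  have hra : A r a := h.symm _ _ har
  have hna : ∀ x ∈ C, ¬ A x a := fun x hx hxa => ha'.2.2 ⟨x, hx, hxa⟩
  have hXne : (nb A C r).Nonempty := by
    obtain ⟨x, hx, hxr⟩ := hr'.2.2
    exact ⟨x, mem_nb.mpr ⟨hx, h.symm _ _ hxr⟩⟩
  rcases Finset.eq_empty_or_nonempty (C \ nb A C r) with he | hne
  · -- all members of `C` are adjacent to `r`
    have hCX : nb A C r = C := by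
      refine Finset.Subset.antisymm (fun y hy => (mem_nb.mp hy).1) ?_
      rwa [Finset.sdiff_eq_empty_iff_subset] at he
    have hX : Dec A (nb A C r) {nb A C r} := by
      refine ⟨?_, ?_, ?_, ?_⟩
      · intro B hB
        rw [Finset.mem_singleton] at hB
        rw [hB]
        exact hXne
      · intro B hB
        rw [Finset.mem_singleton] at hB
        rw [hB, hCX]
        exact hT.cn
      · intro x
        constructor
        · intro hx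
          exact ⟨_, Finset.mem_singleton_self _, hx⟩
        · rintro ⟨B, hB, hx⟩
          rw [Finset.mem_singleton] at hB
          rwa [hB] at hx
      · intro B hB B' hB' hne
        rw [Finset.mem_singleton] at hB hB'
        exact absurd (hB.trans hB'.symm) hne
    have hloc := loc_of h m U C r a 𝒞 {nb A C r} hU hT.sub hT.cn hr'.1 hr'.2.1 hr'.2.2 ha'.1
      ha'.2.1 hna hra h𝒞 hX
    have hb := hloc.bound_zero he
    have hk : 𝒞.card = 0 := by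
      rw [Finset.card_eq_zero, Finset.eq_empty_iff_forall_notMem]
      intro D hD
      obtain ⟨y, hy⟩ := h𝒞.ne D hD
      have := (h𝒞.mem y).mpr ⟨D, hD, hy⟩
      rw [he] at this
      exact absurd this (Finset.notMem_empty _)
    refine tight_aux h hU hT hr ha har h𝒞 hX ?_
    rw [hk] at hb ⊢
    rw [Finset.card_singleton] at hb
    push_cast at hb ⊢
    linarith
  · obtain ⟨𝒳, h𝒳⟩ := exists_dec h.symm (nb A C r)
    have hloc := loc_of h m U C r a 𝒞 𝒳 hU hT.sub hT.cn hr'.1 hr'.2.1 hr'.2.2 ha'.1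
      ha'.2.1 hna hra h𝒞 h𝒳
    have hb := bound_strong hloc hne
    have hB𝒞 : ∀ B ∈ 𝒞, B ⊆ C := fun B hB y hy =>
      (Finset.mem_sdiff.mp ((h𝒞.mem y).mpr ⟨B, hB, hy⟩)).1
    have hB𝒳 : ∀ B ∈ 𝒳, B ⊆ nb A C r := fun B hB y hy => (h𝒳.mem y).mpr ⟨B, hB, hy⟩
    have key := H_total h.symm h.irr (m + 1) hT.sub hr'.1 hr'.2.1 hr'.2.2 h𝒞 h𝒳
    have k1 : ∀ B ∈ 𝒞, -(4 * ((m + 1 + 1 : ℕ) : ℤ) - 6) ≤ H A (m + 1 + 1) U B := by
      intro B hB
      exact contraction h (lemmaL h) (m + 1) U B hU ((hB𝒞 B hB).trans hT.sub) (h𝒞.ne B hB)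
        (h𝒞.cn B hB) ⟨a, ha'.1, fun h' => ha'.2.1 (hB𝒞 B hB h'),
          fun x hx => hna x (hB𝒞 B hB hx)⟩
    have k2 : ∀ B ∈ 𝒳, -(4 * ((m + 1 : ℕ) : ℤ) - 6) ≤ H A (m + 1) (nb A U r) B := by
      intro B hB
      refine contraction h (lemmaL h) m (nb A U r) B (h.link (m + 1) U r hU hr'.1) ?_
        (h𝒳.ne B hB) (h𝒳.cn B hB) ⟨a, mem_nb.mpr ⟨ha'.1, hra⟩,
          fun h' => ha'.2.1 (mem_nb.mp (hB𝒳 B hB h')).1,
          fun x hx => hna x (mem_nb.mp (hB𝒳 B hB hx)).1⟩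
      intro y hy
      have := mem_nb.mp (hB𝒳 B hB hy)
      exact mem_nb.mpr ⟨hT.sub this.1, this.2⟩
    have s1 := Finset.card_nsmul_le_sum 𝒞 (fun B => H A (m + 1 + 1) U B) _ k1
    have s2 := Finset.card_nsmul_le_sum 𝒳 (fun B => H A (m + 1) (nb A U r) B) _ k2
    simp only [nsmul_eq_mul] at s1 s2
    have hTe : H A (m + 1 + 1) U C = -(4 * ((m + 2 : ℕ) : ℤ) - 6) := hT.eq
    have hp : (𝒳.card : ℤ) ≤ 1 := by
      push_cast at s1 s2 hTe hb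
      rw [hTe] at key
      nlinarith [s1, s2, hb, key]
    have hp1 : 𝒳.card ≤ 1 := by exact_mod_cast hp
    obtain ⟨x0, hx0⟩ := hXne
    obtain ⟨B0, hB0, hxB0⟩ := (h𝒳.mem x0).mp hx0
    have h𝒳1 : 𝒳 = {B0} := by
      refine Finset.eq_singleton_iff_unique_mem.mpr ⟨hB0, fun B hB => ?_⟩
      exact Finset.card_le_one.mp hp1 B hB B0 hB0
    have hBX : B0 = nb A C r := by
      refine Finset.Subset.antisymm (hB𝒳 B0 hB0) ?_
      intro y hy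
      obtain ⟨B, hB, hyB⟩ := (h𝒳.mem y).mp hy
      rw [h𝒳1, Finset.mem_singleton] at hB
      rwa [hB] at hyB
    rw [h𝒳1, hBX] at h𝒳 hb
    refine tight_aux h hU hT hr ha har h𝒞 h𝒳 ?_
    rw [Finset.card_singleton] at hb
    push_cast at hb ⊢
    linarith

end Pool.Agent.MP19e880.FV
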